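import Pool.Agent.Y955.PF.Alpha2

/-!
# The first family: the approximation and the conclusion
-/

set_option autoImplicit false

namespace Pool.Agent.Y955.PF.AL

variable {p : ℕ} [hp : Fact p.Prime]

section

variable {m l : ℕ} (H : Hyp p m l)

include H

lemma l1_ne : (l : ℚ_[p]) + 1 ≠ 0 := by
  rw [← norm_pos_iff, norm_l1 H]; exact one_pos

lemma xx_zero : xx m l (0 : ℚ_[p]) = -(1 / ((m : ℚ_[p]) + 1)) := by
  have h1 := l1_ne H
  have h2 := m1_ne H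
  unfold xx DD
  rw [mul_zero, mul_zero, add_zero, add_zero, mul_one]
  field_simp

lemma gg_zero : gg m l (0 : ℚ_[p]) = 1 / ((m : ℚ_[p]) + 1) := by
  have h1 := l1_ne H
  have h2 := m1_ne H
  unfold gg DD
  rw [mul_zero, mul_zero, add_zero]
  field_simp

lemma cc_zero : cc m l (0 : ℚ_[p]) = 0 := by
  unfold cc
  simp

lemma q_pos : 0 < ‖(m : ℚ_[p])‖ * eps p := mul_pos (norm_m_pos H) (eps_pos hp.out)

lemma q_lt : ‖(m : ℚ_[p])‖ * eps p < 1 := by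
  have h1 := norm_m_lt H
  have h2 := norm_m_pos H
  have h3 := eps_pos hp.out
  have h4 := (eps_le hp.out).trans_lt (inv_p_lt hp.out)
  nlinarith

lemma m_sq_le : ‖(m : ℚ_[p])‖ ^ 2 ≤ eps p := by
  refine le_trans ?_ (sq_le_eps hp.out)
  exact pow_le_pow_left₀ (norm_nonneg _) (norm_m_le H) 2

/-- the power of `1 + m` -/
lemma one_add_m_pow (hPow : S_POW) {T : ℕ} (hT : p ^ 2 ∣ T) :
    ‖(1 + (m : ℚ_[p])) ^ T - 1‖ ≤ ‖(m : ℚ_[p])‖ * eps p := by
  obtain ⟨s, rfl⟩ := hT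
  have h0 : ‖(1 + (m : ℚ_[p])) ^ (p ^ 2) - 1‖ ≤ ‖(m : ℚ_[p])‖ * eps p := by
    rcases eq_or_ne p 2 with hp2 | hp2
    · have h1 : (1 + (m : ℚ_[p])) ^ (p ^ 2) - 1 =
          (m : ℚ_[p]) * ((2 + m) * (2 + (m : ℚ_[p]) * (2 + m))) := by
        have : p ^ 2 = 4 := by rw [hp2]; norm_num
        rw [this]
        ring
      have h2 : ‖(2 : ℚ_[p])‖ ≤ 1 / 2 := by
        have := norm_nat_of_dvd (p := p) (n := 2) (by rw [hp2])
        rw [show ((2 : ℕ) : ℚ_[p]) = 2 by norm_num] at this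
        refine this.trans ?_
        rw [hp2]
        norm_num
      have h3 : ‖(m : ℚ_[p])‖ ≤ 1 / 2 := (norm_m_le H).trans (by rw [hp2]; norm_num)
      have h4 : ‖2 + (m : ℚ_[p])‖ ≤ 1 / 2 := (nadd _ _).trans (max_le h2 h3)
      have h5 : ‖2 + (m : ℚ_[p]) * (2 + m)‖ ≤ 1 / 2 := by
        refine (nadd _ _).trans (max_le h2 ?_)
        rw [norm_mul]
        have := norm_nonneg (m : ℚ_[p])
        have := norm_nonneg (2 + (m : ℚ_[p]))
        nlinarith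
      rw [h1, norm_mul]
      apply mul_le_mul_of_nonneg_left _ (norm_nonneg _)
      rw [norm_mul]
      unfold eps
      rw [if_pos hp2]
      have := norm_nonneg (2 + (m : ℚ_[p]))
      have := norm_nonneg (2 + (m : ℚ_[p]) * (2 + m))
      nlinarith
    · have h1 := hPow p p (m : ℚ_[p]) (norm_m_le H) (fun h => absurd h hp2)
      rw [Padic.norm_p] at h1
      have h2 : eps p = (p : ℝ)⁻¹ := by unfold eps; rw [if_neg hp2]
      rw [h2, pow_two, pow_mul]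
      have h3 : (1 + (m : ℚ_[p])) ^ p = 1 + ((1 + (m : ℚ_[p])) ^ p - 1) := by ring
      rw [h3]
      have h4 := pow_sub_one_le (z := (1 + (m : ℚ_[p])) ^ p - 1) (by
        rw [h1]
        have h5 := norm_m_lt H
        have h6 := inv_p_lt hp.out
        have h7 : (0 : ℝ) ≤ (p : ℝ)⁻¹ := by positivity
        have h8 := norm_nonneg (m : ℚ_[p])
        nlinarith) p
      refine h4.trans ?_
      rw [h1, mul_comm]
  rw [pow_mul, show (1 + (m : ℚ_[p])) ^ (p ^ 2) = 1 + ((1 + (m : ℚ_[p])) ^ (p ^ 2) - 1) by ring]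
  refine (pow_sub_one_le ?_ s).trans h0
  exact h0.trans (q_lt H).le

end

section

variable {m l T : ℕ} {τ : ℚ_[p]} (H : Hyp p m l) (P : Pt m l T ((m : ℚ_[p]) ^ T) τ) (hT : 3 ≤ T)

include H P hT

lemma pow_T_le : ‖(m : ℚ_[p])‖ ^ T ≤ ‖(m : ℚ_[p])‖ * eps p := by
  calc ‖(m : ℚ_[p])‖ ^ T ≤ ‖(m : ℚ_[p])‖ ^ 3 := pow_le_pow_of_le_one (norm_nonneg _) (norm_m_lt H).le hT
    _ = ‖(m : ℚ_[p])‖ * ‖(m : ℚ_[p])‖ ^ 2 := by ring
    _ ≤ _ := mul_le_mul_of_nonneg_left (m_sq_le H) (norm_nonneg _)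

lemma t_le : ‖τ‖ ≤ ‖(m : ℚ_[p])‖ * eps p := by
  rw [norm_t H P]
  refine le_trans ?_ (pow_T_le H P hT)
  apply pow_le_pow_of_le_one (norm_nonneg _) (norm_m_lt H).le
  have := H.hm
  nlinarith

lemma rel_v : Rel (‖(m : ℚ_[p])‖ * eps p) (-1 + (m : ℚ_[p]) ^ T) (-1) := by
  refine Rel.of_sub (by rw [norm_neg, norm_one]) ?_
  rw [show -1 + (m : ℚ_[p]) ^ T - -1 = (m : ℚ_[p]) ^ T by ring, norm_pow]
  exact pow_T_le H P hT

lemma rel_vc : Rel (‖(m : ℚ_[p])‖ * eps p) (-1 + (m : ℚ_[p]) ^ T + cc m l τ) (-1) := by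
  refine Rel.of_sub (by rw [norm_neg, norm_one]) ?_
  rw [show -1 + (m : ℚ_[p]) ^ T + cc m l τ - -1 = (m : ℚ_[p]) ^ T + cc m l τ by ring]
  refine (nadd _ _).trans (max_le ?_ ?_)
  · rw [norm_pow]
    exact pow_T_le H P hT
  · rw [norm_cc H P.ht]
    exact t_le H P hT

lemma rel_rho : Rel (‖(m : ℚ_[p])‖ * eps p) (rho m l ((m : ℚ_[p]) ^ T) τ * (m : ℚ_[p]) ^ m)
    (((m : ℚ_[p]) + 1) ^ (m + 1)) := by
  have hq0 := q_pos H
  have hq1 := q_lt H
  have ht := t_le H P hT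
  have hm0 := m_ne H
  have hm1 := m1_ne H
  set q := ‖(m : ℚ_[p])‖ * eps p with hq
  have hz : ‖(0 : ℚ_[p])‖ < 1 := by rw [norm_zero]; exact one_pos
  have ht0 : ‖τ - 0‖ ≤ q := by rw [sub_zero]; exact ht
  have h1 : Rel q (xx m l τ) (xx m l 0) := (lip_xx H P.ht hz ht0).rel (norm_xx H hz)
  have h2 : Rel q (gg m l τ) (gg m l 0) := (lip_gg H P.ht hz ht0).rel (norm_gg H hz)
  have h3 : Rel q (xx m l τ + cc m l τ) (xx m l 0 + cc m l 0) :=
    ((lip_xx H P.ht hz ht0).add (lip_cc H P.ht hz ht0)).rel (by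
      rw [cc_zero H, add_zero]; exact norm_xx H hz)
  rw [cc_zero H, add_zero] at h3
  have h4 := rel_v H P hT
  have h5 := ((h4.mul hq1 (h3.pow hq0.le hq1 l)).div hq1 ((h1.pow hq0.le hq1 (l + 1)).mul hq1
    (h2.pow hq0.le hq1 m)))
  have h6 : rho m l ((m : ℚ_[p]) ^ T) τ * (m : ℚ_[p]) ^ m =
      (-1 + (m : ℚ_[p]) ^ T) * (xx m l τ + cc m l τ) ^ l / (xx m l τ ^ (l + 1) * gg m l τ ^ m) := by
    have hx := h1.ne_zero hq1
    have hg := h2.ne_zero hq1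
    unfold rho
    rw [mul_pow]
    field_simp
  have h7 : (-1 : ℚ_[p]) * xx m l 0 ^ l / (xx m l 0 ^ (l + 1) * gg m l 0 ^ m) = ((m : ℚ_[p]) + 1) ^ (m + 1) := by
    have hx := h1.1
    rw [pow_succ, gg_zero H, one_div, inv_pow]
    have h8 : (-1 : ℚ_[p]) * xx m l 0 ^ l / (xx m l 0 ^ l * xx m l 0 * (((m : ℚ_[p]) + 1) ^ m)⁻¹) =
      -(xx m l 0)⁻¹ * ((m : ℚ_[p]) + 1) ^ m := by
      field_simp
    rw [h8, xx_zero H]
    field_simp
    ring
  rw [h6, ← h7]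
  exact h5

lemma approx_zs (hPow : S_POW) : ∀ k j : ℕ, k + j + 1 = T →
    Rel (‖(m : ℚ_[p])‖ * eps p) (zs m l ((m : ℚ_[p]) ^ T) τ k)
      (-(rho m l ((m : ℚ_[p]) ^ T) τ ^ (k + 1) * ((m : ℚ_[p]) ^ T) ^ m)) := by
  have hq0 := q_pos H
  have hq1 := q_lt H
  have hv := rel_v H P hT
  have hvc := rel_vc H P hT
  have hrho := rho_ne H P
  have hm := two_le_m H
  have hM0 := norm_m_pos H
  have hM1 := norm_m_lt H
  have hMp := norm_m_le H
  have hMe := m_sq_le H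
  intro k
  induction k with
  | zero =>
    intro j hj
    have h1 : Rel (‖(m : ℚ_[p])‖ * eps p) (((m : ℚ_[p]) ^ T) ^ m *
        (rho m l ((m : ℚ_[p]) ^ T) τ * (-1 + (m : ℚ_[p]) ^ T) ^ (l + 1) / (-1 + (m : ℚ_[p]) ^ T + cc m l τ) ^ l))
        (((m : ℚ_[p]) ^ T) ^ m * (rho m l ((m : ℚ_[p]) ^ T) τ * (-1) ^ (l + 1) / (-1) ^ l)) :=
      (Rel.refl hq0.le (pow_ne_zero _ (d_ne H P))).mul hq1
        (((Rel.refl hq0.le hrho).mul hq1 (hv.pow hq0.le hq1 _)).div hq1 (hvc.pow hq0.le hq1 _))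
    have h2 : ((m : ℚ_[p]) ^ T) ^ m * (rho m l ((m : ℚ_[p]) ^ T) τ * (-1) ^ (l + 1) / (-1) ^ l) =
        -(rho m l ((m : ℚ_[p]) ^ T) τ ^ (0 + 1) * ((m : ℚ_[p]) ^ T) ^ m) := by
      have h3 : ((-1 : ℚ_[p])) ^ l ≠ 0 := pow_ne_zero _ (by norm_num)
      rw [pow_succ, ← mul_assoc, mul_div_right_comm, mul_div_assoc, div_self h3]
      ring
    rw [← h2]
    exact h1
  | succ k ih =>
    intro j hj
    have hkj : k + (j + 1) + 1 = T := by omega
    have h1 := ih (j + 1) hkj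
    have hz := norm_zs_le H P hkj
    have hcz := norm_cz_le H P hkj
    have hz2 : ‖zs m l ((m : ℚ_[p]) ^ T) τ k‖ ≤ ‖(m : ℚ_[p])‖ ^ 2 :=
      hz.trans (pow_le_pow_of_le_one (norm_nonneg _) hM1.le hm)
    have h2 : Rel (‖(m : ℚ_[p])‖ * eps p) ((1 + zs m l ((m : ℚ_[p]) ^ T) τ k) ^ m) 1 := by
      refine Rel.of_sub norm_one ?_
      have hle : ‖zs m l ((m : ℚ_[p]) ^ T) τ k‖ ≤ eps p := hz2.trans hMe
      rw [hPow p m _ (hle.trans (eps_le hp.out)) (by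
        intro h2
        refine hle.trans ?_
        unfold eps
        rw [if_pos h2])]
      exact mul_le_mul_of_nonneg_left hle (norm_nonneg _)
    have h3 : Rel (‖(m : ℚ_[p])‖ * eps p) ((1 + cc m l τ / zs m l ((m : ℚ_[p]) ^ T) τ k) ^ l) 1 := by
      rcases Nat.eq_zero_or_pos l with hl | hl
      · rw [hl, pow_zero]
        exact Rel.refl hq0.le one_ne_zero
      · have hl0 : ¬ p ∣ l := by
          rcases H.h0 with h | h
          · omega
          · exact h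
        have hp3 : 3 ≤ p := by
          rcases hp.out.eq_two_or_odd with h | h
          · exfalso
            rw [h] at hl0
            have h5 := H.h1
            rw [h] at h5
            omega
          · have := hp.out.two_le
            omega
        have hm3 : 3 ≤ m := hp3.trans (Nat.le_of_dvd (by omega) H.hpm)
        have hle : ‖cc m l τ / zs m l ((m : ℚ_[p]) ^ T) τ k‖ ≤ ‖(m : ℚ_[p])‖ * eps p := by
          calc _ ≤ ‖(m : ℚ_[p])‖ ^ m := hcz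
            _ ≤ ‖(m : ℚ_[p])‖ ^ 3 := pow_le_pow_of_le_one (norm_nonneg _) hM1.le hm3
            _ = ‖(m : ℚ_[p])‖ * ‖(m : ℚ_[p])‖ ^ 2 := by ring
            _ ≤ _ := mul_le_mul_of_nonneg_left hMe (norm_nonneg _)
        refine Rel.of_sub norm_one ((pow_sub_one_le ?_ l).trans hle)
        exact hle.trans hq1.le
    have h4 : Rel (‖(m : ℚ_[p])‖ * eps p) (zs m l ((m : ℚ_[p]) ^ T) τ k *
        (rho m l ((m : ℚ_[p]) ^ T) τ * (1 + zs m l ((m : ℚ_[p]) ^ T) τ k) ^ m /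
          (1 + cc m l τ / zs m l ((m : ℚ_[p]) ^ T) τ k) ^ l))
        (-(rho m l ((m : ℚ_[p]) ^ T) τ ^ (k + 1) * ((m : ℚ_[p]) ^ T) ^ m) *
          (rho m l ((m : ℚ_[p]) ^ T) τ * 1 / 1)) :=
      h1.mul hq1 (((Rel.refl hq0.le hrho).mul hq1 h2).div hq1 h3)
    have h5 : -(rho m l ((m : ℚ_[p]) ^ T) τ ^ (k + 1) * ((m : ℚ_[p]) ^ T) ^ m) *
        (rho m l ((m : ℚ_[p]) ^ T) τ * 1 / 1) =
        -(rho m l ((m : ℚ_[p]) ^ T) τ ^ (k + 1 + 1) * ((m : ℚ_[p]) ^ T) ^ m) := by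
      rw [div_one, mul_one, pow_succ _ (k + 1)]
      ring
    rw [← h5]
    exact h4

lemma approx (hPow : S_POW) (hpT : p ^ 2 ∣ T) :
    ‖-1 - zs m l ((m : ℚ_[p]) ^ T) τ (T - 1)‖ ≤ ‖(m : ℚ_[p])‖ * eps p := by
  have hq0 := q_pos H
  have hq1 := q_lt H
  have h1 := approx_zs H P hT hPow (T - 1) 0 (by omega)
  rw [show T - 1 + 1 = T by omega] at h1
  have h2 := (rel_rho H P hT).pow hq0.le hq1 T
  have h3 : (rho m l ((m : ℚ_[p]) ^ T) τ * (m : ℚ_[p]) ^ m) ^ T =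
      rho m l ((m : ℚ_[p]) ^ T) τ ^ T * ((m : ℚ_[p]) ^ T) ^ m := by
    rw [mul_pow, ← pow_mul, ← pow_mul, mul_comm m T]
  rw [h3] at h2
  have h4 : Rel (‖(m : ℚ_[p])‖ * eps p) ((((m : ℚ_[p]) + 1) ^ (m + 1)) ^ T) 1 := by
    refine Rel.of_sub norm_one ?_
    have h5 := one_add_m_pow H hPow hpT
    rw [← pow_mul, mul_comm (m + 1) T, pow_mul, add_comm (m : ℚ_[p]) 1,
      show (1 + (m : ℚ_[p])) ^ T = 1 + ((1 + (m : ℚ_[p])) ^ T - 1) by ring]
    exact (pow_sub_one_le (h5.trans hq1.le) (m + 1)).trans h5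
  have h5 := h1.trans hq1 ((h2.trans hq1 h4).neg)
  have h6 := h5.2
  rw [norm_neg, norm_one, mul_one] at h6
  rw [norm_sub_rev]
  exact h6

end

/-- the orbit -/
noncomputable def seq (m l : ℕ) (δ τ : ℚ_[p]) : ℕ → ℚ_[p]
  | 0 => xx m l τ
  | 1 => -1 + δ
  | k + 2 => zs m l δ τ k

lemma zs_step {m l : ℕ} {z ρ c : ℚ_[p]} (hz : z ≠ 0) (h : 1 + c / z ≠ 0) :
    z * (ρ * (1 + z) ^ m / (1 + c / z) ^ l) = ρ * z ^ (l + 1) * (z + 1) ^ m / (z + c) ^ l := by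
  have h1 : z + c = z * (1 + c / z) := by field_simp
  rw [h1, mul_pow, pow_succ, add_comm 1 z]
  have h2 : (1 + c / z) ^ l ≠ 0 := pow_ne_zero _ h
  have h3 : z ^ l ≠ 0 := pow_ne_zero _ hz
  generalize (1 + c / z) ^ l = w at h2 ⊢
  field_simp

lemma hh_ne {m l : ℕ} (H : Hyp p m l) {τ : ℚ_[p]} (hτ : ‖τ‖ < 1) (hl : l ≠ 0) : hh m l τ ≠ 0 := by
  have h1 := norm_hh H hτ
  intro h2
  rw [h2, zero_pow hl, norm_zero] at h1
  exact zero_ne_one h1

/-- the data -/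
lemma data {m l T : ℕ} {δ τ : ℚ_[p]} (H : Hyp p m l) (P : Pt m l T δ τ)
    (hZ : zs m l δ τ (T - 1) = -1) :
    DataA p m l (T + 1) (rho m l δ τ) (cc m l τ) τ (seq m l δ τ) := by
  have hT := P.hT
  have ht := P.ht
  have hrho := rho_ne H P
  have hm0 := m_ne H
  have hd0 := d_ne H P
  have ht0 := t_ne H P
  refine ⟨by omega, hrho, ?_, ?_, eq_sum H ht, eq_prod H ht, ?_, ?_, ?_, ?_⟩
  · rw [← norm_pos_iff, norm_cc H ht]
    exact norm_pos_iff.2 ht0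
  · intro h
    have := norm_cc H ht
    rw [h, norm_one] at this
    linarith
  · intro hl
    have h1 := eq_sum H ht
    have h2 := DD_ne H ht
    have h3 := m1_ne H
    show ((m : ℚ_[p]) + 1) * xx m l τ = -1
    unfold xx
    subst hl
    have h4 : DD m 0 τ = 1 + ((m : ℚ_[p]) + 1) * τ := by
      unfold DD
      push_cast
      ring
    rw [h4] at h2
    rw [h4]
    push_cast
    field_simp
    ring
  · intro k hk
    match k, hk with
    | 0, _ =>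
      have hx0 : xx m l τ ≠ 0 := by rw [← norm_pos_iff, norm_xx H ht]; exact one_pos
      have hg0 : gg m l τ ≠ 0 := by rw [← norm_pos_iff, norm_gg H ht]; exact one_pos
      have hxc : xx m l τ + cc m l τ ≠ 0 := by rw [← norm_pos_iff, norm_xc H P]; exact one_pos
      refine ⟨?_, ?_, fun _ => hxc⟩
      · show -1 + δ = rho m l δ τ * xx m l τ ^ (l + 1) * (xx m l τ + 1) ^ m / (xx m l τ + cc m l τ) ^ l
        rw [xx_add_one H ht]
        unfold rho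
        have h1 := pow_ne_zero (l + 1) hx0
        have h2 := pow_ne_zero m (mul_ne_zero hm0 hg0)
        have h3 := pow_ne_zero l hxc
        generalize xx m l τ ^ (l + 1) = a at h1 ⊢
        generalize ((m : ℚ_[p]) * gg m l τ) ^ m = b at h2 ⊢
        generalize (xx m l τ + cc m l τ) ^ l = w at h3 ⊢
        field_simp
      · intro h
        have h1 := xx_add_one H ht
        have h2 : xx m l τ = -1 := h
        rw [h2] at h1
        have h3 := mul_ne_zero hm0 hg0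
        apply h3
        rw [← h1]
        ring
    | 1, _ =>
      refine ⟨?_, ?_, fun _ => ?_⟩
      · show δ ^ m * (rho m l δ τ * (-1 + δ) ^ (l + 1) / (-1 + δ + cc m l τ) ^ l) =
          rho m l δ τ * (-1 + δ) ^ (l + 1) * (-1 + δ + 1) ^ m / (-1 + δ + cc m l τ) ^ l
        rw [show -1 + δ + 1 = δ by ring]
        ring
      · intro h
        have h1 : -1 + δ = -1 := h
        apply hd0
        linear_combination h1
      · show -1 + δ + cc m l τ ≠ 0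
        rw [← norm_pos_iff, norm_vc H (d_lt H P) ht]
        exact one_pos
    | k + 2, hk =>
      obtain ⟨j, hj⟩ : ∃ j, k + (j + 1) + 1 = T := ⟨T - k - 2, by omega⟩
      have hM1 := norm_m_lt H
      have hMm : ‖(m : ℚ_[p])‖ ^ m < 1 := (m_pow_le H P).trans_lt hM1
      have hz0 : zs m l δ τ k ≠ 0 := by
        rw [← norm_pos_iff, norm_zs H P k (j + 1) hj]
        exact pow_pos (norm_m_pos H) _
      have hz1 := (norm_zs_le H P hj).trans_lt hMm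
      have hcz := (norm_cz_le H P hj).trans_lt hMm
      have h1c : 1 + cc m l τ / zs m l δ τ k ≠ 0 := by
        rw [← norm_pos_iff, norm_one_add hcz]
        exact one_pos
      refine ⟨zs_step hz0 h1c, ?_, fun _ => ?_⟩
      · intro h
        have h1 : zs m l δ τ k = -1 := h
        rw [h1, norm_neg, norm_one] at hz1
        exact lt_irrefl _ hz1
      · show zs m l δ τ k + cc m l τ ≠ 0
        have h1 : zs m l δ τ k + cc m l τ = zs m l δ τ k * (1 + cc m l τ / zs m l δ τ k) := by field_simp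
        rw [h1]
        exact mul_ne_zero hz0 h1c
  · obtain ⟨s, rfl⟩ : ∃ s, T = s + 1 := ⟨T - 1, by omega⟩
    show zs m l δ τ s = -1
    simpa using hZ
  · intro hl
    have hh0 := hh_ne H ht hl
    refine ⟨?_, ?_⟩
    · rw [tau_add_cc H ht]
      exact mul_ne_zero ht0 hh0
    · show rho m l δ τ * τ ^ (l + 1) * (τ + 1) ^ m / (τ + cc m l τ) ^ l =
        δ ^ m * (rho m l δ τ * (-1 + δ) ^ (l + 1) / (-1 + δ + cc m l τ) ^ l)
      have he := P.he
      have hvc : -1 + δ + cc m l τ ≠ 0 := by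
        rw [← norm_pos_iff, norm_vc H (d_lt H P) ht]
        exact one_pos
      rw [tau_add_cc H ht, mul_pow, show δ ^ m * (rho m l δ τ * (-1 + δ) ^ (l + 1) / (-1 + δ + cc m l τ) ^ l) =
        rho m l δ τ * ((-1 + δ) ^ (l + 1) * δ ^ m) / (-1 + δ + cc m l τ) ^ l by ring, ← he]
      unfold UU
      have h1 := pow_ne_zero l hh0
      have h2 := pow_ne_zero l hvc
      have h3 := pow_ne_zero l ht0
      rw [pow_succ, add_comm τ 1]
      generalize hh m l τ ^ l = a at h1 ⊢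
      generalize (-1 + δ + cc m l τ) ^ l = b at h2 ⊢
      generalize τ ^ l = w at h3 ⊢
      field_simp

end Pool.Agent.Y955.PF.AL

namespace Pool.Agent.Y955.PF

open AL

theorem alpha_of (hI : S_ISO) (hPow : S_POW) : S_ALPHA := by
  intro p hp m l hm hpm h1 h0 N
  have H : Hyp p m l := ⟨hm, hpm, h1, h0⟩
  obtain ⟨T, hNT, h3T, hpT⟩ : ∃ T, N ≤ T ∧ 3 ≤ T ∧ p ^ 2 ∣ T := by
    refine ⟨p ^ 2 * (N + 1), ?_, ?_, dvd_mul_right _ _⟩
    · have h4 : 1 ≤ p ^ 2 := Nat.one_le_pow _ _ hp.out.pos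
      calc N ≤ 1 * (N + 1) := by omega
        _ ≤ p ^ 2 * (N + 1) := Nat.mul_le_mul_right _ h4
    · have h4 : 2 ^ 2 ≤ p ^ 2 := Nat.pow_le_pow_left hp.out.two_le 2
      calc 3 ≤ 2 ^ 2 * 1 := by norm_num
        _ ≤ p ^ 2 * (N + 1) := Nat.mul_le_mul h4 (by omega)
  have hM0 := norm_m_pos H
  have hM1 := norm_m_lt H
  have he0 := eps_pos hp.out
  have he1 : eps p < 1 := (eps_le hp.out).trans_lt (inv_p_lt hp.out)
  have hMT : 0 < ‖(m : ℚ_[p])‖ ^ T := pow_pos hM0 _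
  have hex : ∀ δ : ℚ_[p], ∃ τ : ℚ_[p], ‖δ - (m : ℚ_[p]) ^ T‖ ≤ ‖(m : ℚ_[p])‖ ^ T * eps p → Pt m l T δ τ := by
    intro δ
    by_cases hδ : ‖δ - (m : ℚ_[p]) ^ T‖ ≤ ‖(m : ℚ_[p])‖ ^ T * eps p
    · have h2 : ‖δ‖ = ‖(m : ℚ_[p])‖ ^ T := by
        have h3 : ‖δ - (m : ℚ_[p]) ^ T‖ < ‖(m : ℚ_[p]) ^ T‖ := by
          rw [norm_pow]
          refine hδ.trans_lt ?_
          nlinarith
        have h4 := norm_add_eq h3
        rw [add_sub_cancel, norm_pow] at h4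
        exact h4
      have h3 : ‖δ‖ ≤ (p : ℝ)⁻¹ := by
        rw [h2]
        calc ‖(m : ℚ_[p])‖ ^ T ≤ ‖(m : ℚ_[p])‖ ^ 1 := pow_le_pow_of_le_one hM0.le hM1.le (by omega)
          _ = ‖(m : ℚ_[p])‖ := pow_one _
          _ ≤ _ := norm_m_le H
      obtain ⟨τ, h4, h5⟩ := exists_tau H hI h3
      exact ⟨τ, fun _ => ⟨by omega, h2, h4.trans_lt (inv_p_lt hp.out), h5⟩⟩
    · exact ⟨0, fun h => absurd h hδ⟩
  choose τ hτ using hex
  have hself : ‖(m : ℚ_[p]) ^ T - (m : ℚ_[p]) ^ T‖ ≤ ‖(m : ℚ_[p])‖ ^ T * eps p := by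
    rw [sub_self, norm_zero]
    positivity
  obtain ⟨δ, hδ, hZ⟩ := hI p (fun δ => zs m l δ (τ δ) (T - 1)) ((m : ℚ_[p]) ^ T)
    (‖(m : ℚ_[p])‖ ^ T * eps p) (‖(m : ℚ_[p])‖ / ‖(m : ℚ_[p])‖ ^ T) (by positivity) (by positivity) (by
      intro x y hx hy
      show ‖zs m l x (τ x) (T - 1) - zs m l y (τ y) (T - 1)‖ = _
      rcases eq_or_ne x y with rfl | hxy
      · simp
      have hxy0 : 0 < ‖x - y‖ := norm_pos_iff.2 (sub_ne_zero.2 hxy)
      have hle : ‖x - y‖ ≤ ‖(m : ℚ_[p])‖ ^ T * eps p := by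
        rw [show x - y = (x - (m : ℚ_[p]) ^ T) - (y - (m : ℚ_[p]) ^ T) by ring]
        exact (nsub _ _).trans (max_le hx hy)
      have h2 := pair_zs H (hτ x hx) (hτ y hy) hPow (η := ‖x - y‖ / ‖(m : ℚ_[p])‖ ^ T) (by positivity) (by
        rw [div_le_iff₀ hMT, mul_comm]
        exact hle) (by field_simp) (T - 1) 0 (by omega)
      rw [h2, norm_zs H (hτ y hy) (T - 1) 0 (by omega), zero_mul, pow_zero, mul_one]
      ring) (-1) (by
      show ‖-1 - zs m l ((m : ℚ_[p]) ^ T) (τ ((m : ℚ_[p]) ^ T)) (T - 1)‖ ≤ _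
      refine (approx H (hτ _ hself) h3T hPow hpT).trans (le_of_eq ?_)
      field_simp)
  exact ⟨T + 1, by omega, rho m l δ (τ δ), cc m l (τ δ), τ δ, seq m l δ (τ δ), data H (hτ δ hδ) hZ⟩

end Pool.Agent.Y955.PF
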