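import Pool.Agent.Y955.PF.Stm

set_option autoImplicit false

namespace Pool.Agent.Y955.PF

open Finset

/-- the case of a prime exponent -/
theorem pow_norm_prime (p : ℕ) [hp : Fact p.Prime] (z : ℚ_[p]) (hz : ‖z‖ ≤ (p : ℝ)⁻¹)
    (h2 : p = 2 → ‖z‖ ≤ 1 / 4) : ‖(1 + z) ^ p - 1‖ = (p : ℝ)⁻¹ * ‖z‖ := by
  by_cases hz0 : z = 0
  · subst hz0
    simp
  have hzpos : 0 < ‖z‖ := norm_pos_iff.2 hz0
  have hp1 : (1:ℝ) < p := by exact_mod_cast hp.out.one_lt
  have hp0 : (0:ℝ) < p := by linarith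
  have hz1 : ‖z‖ < 1 := by
    refine lt_of_le_of_lt hz ?_
    rw [inv_lt_one₀ hp0]
    exact hp1
  have hadd := add_pow_prime_eq hp.out z 1
  have hmem : 1 ∈ Ioo 0 p := by
    rw [mem_Ioo]
    exact ⟨by norm_num, hp.out.one_lt⟩
  set S : ℚ_[p] := ∑ k ∈ (Ioo 0 p).erase 1,
    z ^ (k - 1) * 1 ^ (p - k - 1) * ((p.choose k / p : ℕ) : ℚ_[p]) with hS
  have hsum : ∑ k ∈ Ioo 0 p, z ^ (k - 1) * 1 ^ (p - k - 1) * ((p.choose k / p : ℕ) : ℚ_[p]) =
      S + 1 := by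
    rw [← sum_erase_add _ _ hmem, hS]
    congr 1
    rw [Nat.choose_one_right, Nat.div_self hp.out.pos]
    simp
  have e1 : (1 + z) ^ p - 1 = p * z + (z ^ p + p * z * S) := by
    rw [add_comm 1 z, hadd, hsum]
    ring
  have hpn : ‖(p : ℚ_[p])‖ = (p : ℝ)⁻¹ := Padic.norm_p
  have hSn : ‖S‖ ≤ ‖z‖ := by
    rw [hS]
    apply IsUltrametricDist.norm_sum_le_of_forall_le_of_nonneg hzpos.le
    intro k hk
    rw [mem_erase, mem_Ioo] at hk
    rw [one_pow, mul_one, norm_mul, norm_pow]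
    have h3 : ‖((p.choose k / p : ℕ) : ℚ_[p])‖ ≤ 1 := by
      have := Padic.norm_int_le_one (p := p) ((p.choose k / p : ℕ) : ℤ)
      rwa [Int.cast_natCast] at this
    have h4 : ‖z‖ ^ (k - 1) ≤ ‖z‖ ^ 1 := pow_le_pow_of_le_one hzpos.le hz1.le (by omega)
    calc ‖z‖ ^ (k - 1) * ‖((p.choose k / p : ℕ) : ℚ_[p])‖ ≤ ‖z‖ ^ 1 * 1 := by gcongr
      _ = ‖z‖ := by ring
  have hpz : ‖(p : ℚ_[p]) * z‖ = (p : ℝ)⁻¹ * ‖z‖ := by rw [norm_mul, hpn]
  have hpinv : (0:ℝ) < (p : ℝ)⁻¹ := by positivity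
  have hA : ‖z ^ p‖ < (p : ℝ)⁻¹ * ‖z‖ := by
    rw [norm_pow]
    obtain ⟨q, hq⟩ : ∃ q, p = q + 2 := ⟨p - 2, by have := hp.out.two_le; omega⟩
    have e2 : ‖z‖ ^ p = ‖z‖ ^ (q + 1) * ‖z‖ := by
      rw [← pow_succ]
      congr 1
    rw [e2]
    apply mul_lt_mul_of_pos_right _ hzpos
    by_cases hp2 : p = 2
    · have hq0 : q = 0 := by omega
      have h9 := h2 hp2
      have h10 : (p : ℝ)⁻¹ = 1 / 2 := by
        have : (p : ℝ) = 2 := by exact_mod_cast hp2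
        rw [this]
        norm_num
      rw [h10, hq0]
      norm_num
      linarith
    · have hq1 : 2 ≤ q + 1 := by
        have : q ≠ 0 := fun h => hp2 (by rw [hq, h])
        omega
      calc ‖z‖ ^ (q + 1) ≤ ‖z‖ ^ 2 := pow_le_pow_of_le_one hzpos.le hz1.le hq1
        _ ≤ ((p : ℝ)⁻¹) ^ 2 := by gcongr
        _ < (p : ℝ)⁻¹ := by
            rw [sq]
            have : (p : ℝ)⁻¹ < 1 := by
              rw [inv_lt_one₀ hp0]
              exact hp1
            nlinarith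
  have hB : ‖(p : ℚ_[p]) * z * S‖ < (p : ℝ)⁻¹ * ‖z‖ := by
    rw [norm_mul, hpz]
    have : ‖S‖ < 1 := lt_of_le_of_lt hSn hz1
    have h0 : 0 < (p : ℝ)⁻¹ * ‖z‖ := by positivity
    nlinarith
  have hR : ‖z ^ p + p * z * S‖ < ‖(p : ℚ_[p]) * z‖ := by
    rw [hpz]
    exact lt_of_le_of_lt (Padic.nonarchimedean _ _) (max_lt hA hB)
  rw [e1, IsUltrametricDist.norm_add_eq_max_of_norm_ne_norm hR.ne', max_eq_left hR.le, hpz]

/-- the case of an exponent prime to `p` -/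
theorem pow_norm_coprime (p : ℕ) [hp : Fact p.Prime] (n : ℕ) (hn : ¬ p ∣ n) (z : ℚ_[p])
    (hz : ‖z‖ ≤ (p : ℝ)⁻¹) : ‖(1 + z) ^ n - 1‖ = ‖z‖ := by
  by_cases hz0 : z = 0
  · subst hz0
    simp
  have hzpos : 0 < ‖z‖ := norm_pos_iff.2 hz0
  have hp1 : (1:ℝ) < p := by exact_mod_cast hp.out.one_lt
  have hp0 : (0:ℝ) < p := by linarith
  have hz1 : ‖z‖ < 1 := by
    refine lt_of_le_of_lt hz ?_
    rw [inv_lt_one₀ hp0]
    exact hp1
  have hone : ‖1 + z‖ ≤ 1 := by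
    refine (Padic.nonarchimedean _ _).trans ?_
    rw [norm_one]
    exact max_le le_rfl hz1.le
  -- `(1 + z)^i - 1` is small
  have hi : ∀ i : ℕ, ‖(1 + z) ^ i - 1‖ ≤ ‖z‖ := by
    intro i
    induction i with
    | zero => simp
    | succ i ih =>
      have e : (1 + z) ^ (i + 1) - 1 = (1 + z) ^ i * z + ((1 + z) ^ i - 1) := by ring
      rw [e]
      refine (Padic.nonarchimedean _ _).trans (max_le ?_ ih)
      rw [norm_mul, norm_pow]
      have : ‖1 + z‖ ^ i ≤ 1 := pow_le_one₀ (norm_nonneg _) hone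
      nlinarith
  have hgeom : (1 + z) ^ n - 1 = (∑ i ∈ range n, (1 + z) ^ i) * z := by
    have := geom_sum_mul (1 + z) n
    rw [add_sub_cancel_left] at this
    exact this.symm
  have hsum : ∑ i ∈ range n, (1 + z) ^ i = n + ∑ i ∈ range n, ((1 + z) ^ i - 1) := by
    rw [sum_sub_distrib]
    simp
  have hsm : ‖∑ i ∈ range n, ((1 + z) ^ i - 1)‖ ≤ ‖z‖ :=
    IsUltrametricDist.norm_sum_le_of_forall_le_of_nonneg hzpos.le (fun i _ => hi i)
  have hnn : ‖(n : ℚ_[p])‖ = 1 :=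
    Padic.norm_natCast_eq_one_iff.2 ((Nat.Prime.coprime_iff_not_dvd hp.out).2 hn)
  rw [hgeom, norm_mul, hsum]
  have hR : ‖∑ i ∈ range n, ((1 + z) ^ i - 1)‖ < ‖(n : ℚ_[p])‖ := by
    rw [hnn]
    exact lt_of_le_of_lt hsm hz1
  rw [IsUltrametricDist.norm_add_eq_max_of_norm_ne_norm hR.ne', max_eq_left hR.le, hnn, one_mul]

theorem pow_norm : S_POW := by
  intro p hp n
  induction n using Nat.strong_induction_on with
  | _ n ih =>
    intro z hz h2
    by_cases hn0 : n = 0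
    · subst hn0
      simp
    by_cases hn : p ∣ n
    · obtain ⟨k, hk⟩ := hn
      have hk0 : 0 < k := by
        rcases Nat.eq_zero_or_pos k with h | h
        · subst h
          omega
        · exact h
      have hkn : k < n := by
        rw [hk]
        have := hp.out.one_lt
        nlinarith
      have hp1 : (1:ℝ) < p := by exact_mod_cast hp.out.one_lt
      have hp0 : (0:ℝ) < p := by linarith
      have h3 := pow_norm_prime p z hz h2
      set z' : ℚ_[p] := (1 + z) ^ p - 1 with hz'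
      have hpinv1 : (p : ℝ)⁻¹ ≤ 1 := by
        rw [inv_le_one₀ hp0]
        exact hp1.le
      have h4 : ‖z'‖ ≤ ‖z‖ := by
        rw [h3]
        nlinarith [norm_nonneg z]
      have h5 := ih k hkn z' (h4.trans hz) (fun h => h4.trans (h2 h))
      have h6 : 1 + z' = (1 + z) ^ p := by
        rw [hz']
        ring
      rw [h6, ← pow_mul, ← hk, h3] at h5
      rw [h5, hk]
      push_cast
      rw [norm_mul, Padic.norm_p]
      ring
    · have h3 := pow_norm_coprime p n hn z hz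
      have hnn : ‖(n : ℚ_[p])‖ = 1 :=
        Padic.norm_natCast_eq_one_iff.2 ((Nat.Prime.coprime_iff_not_dvd hp.out).2 hn)
      rw [h3, hnn, one_mul]

end Pool.Agent.Y955.PF
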