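import Pool.Agent.Y955.PF.Iso
import Pool.Agent.Y955.PF.Pow

/-!
# Case `p ∣ d`: the dynamics of `ρ x / (x + 1) ^ d` over `ℚ_p`
-/

set_option autoImplicit false

namespace Pool.Agent.Y955.PF.Beta

variable {p : ℕ} [hp : Fact p.Prime]

/-- `a = b (1 + z)` with `|z| ≤ e` -/
def R (e : ℝ) (a b : ℚ_[p]) : Prop := ∃ z : ℚ_[p], ‖z‖ ≤ e ∧ a = b * (1 + z)

lemma norm_one_add {z : ℚ_[p]} (h : ‖z‖ < 1) : ‖1 + z‖ = 1 := by
  rw [IsUltrametricDist.norm_add_eq_max_of_norm_ne_norm (by rw [norm_one]; exact h.ne'), norm_one,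
    max_eq_left h.le]

lemma norm_add_large {z : ℚ_[p]} (h : 1 < ‖z‖) : ‖z + 1‖ = ‖z‖ := by
  rw [IsUltrametricDist.norm_add_eq_max_of_norm_ne_norm (by rw [norm_one]; exact h.ne'), norm_one,
    max_eq_left h.le]

lemma norm_add_small {z : ℚ_[p]} (h : ‖z‖ < 1) : ‖z + 1‖ = 1 := by
  rw [add_comm]; exact norm_one_add h

lemma add_le {x y : ℚ_[p]} {e : ℝ} (hx : ‖x‖ ≤ e) (hy : ‖y‖ ≤ e) : ‖x + y‖ ≤ e :=
  (IsUltrametricDist.norm_add_le_max x y).trans (max_le hx hy)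

lemma sub_le {x y : ℚ_[p]} {e : ℝ} (hx : ‖x‖ ≤ e) (hy : ‖y‖ ≤ e) : ‖x - y‖ ≤ e := by
  rw [sub_eq_add_neg]; exact add_le hx (by rwa [norm_neg])

lemma one_add_ne {z : ℚ_[p]} (h : ‖z‖ < 1) : (1 + z) ≠ 0 := by
  intro h0
  have := norm_one_add h
  rw [h0, norm_zero] at this
  exact zero_ne_one this

lemma R.refl {e : ℝ} (he : 0 ≤ e) (a : ℚ_[p]) : R e a a := ⟨0, by simpa using he, by ring⟩

lemma R.mono {e e' : ℝ} {a b : ℚ_[p]} (h : R e a b) (he : e ≤ e') : R e' a b := by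
  obtain ⟨z, hz, rfl⟩ := h
  exact ⟨z, hz.trans he, rfl⟩

lemma R.mul {e : ℝ} {a b a' b' : ℚ_[p]} (h : R e a b) (h' : R e a' b') (he : e ≤ 1) :
    R e (a * a') (b * b') := by
  obtain ⟨z, hz, rfl⟩ := h
  obtain ⟨w, hw, rfl⟩ := h'
  refine ⟨z + w + z * w, ?_, by ring⟩
  refine add_le (add_le hz hw) ?_
  rw [norm_mul]
  calc ‖z‖ * ‖w‖ ≤ 1 * e := mul_le_mul (hz.trans he) hw (norm_nonneg _) zero_le_one
    _ = e := one_mul _

lemma R.trans {e : ℝ} {a b c : ℚ_[p]} (h : R e a b) (h' : R e b c) (he : e ≤ 1) : R e a c := by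
  obtain ⟨z, hz, rfl⟩ := h
  obtain ⟨w, hw, rfl⟩ := h'
  refine ⟨z + w + z * w, ?_, by ring⟩
  refine add_le (add_le hz hw) ?_
  rw [norm_mul]
  calc ‖z‖ * ‖w‖ ≤ 1 * e := mul_le_mul (hz.trans he) hw (norm_nonneg _) zero_le_one
    _ = e := one_mul _

lemma R.inv {e : ℝ} {a b : ℚ_[p]} (h : R e a b) (he : e < 1) : R e a⁻¹ b⁻¹ := by
  obtain ⟨z, hz, rfl⟩ := h
  have h1 : ‖z‖ < 1 := lt_of_le_of_lt hz he
  have h2 := one_add_ne h1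
  refine ⟨-z / (1 + z), ?_, ?_⟩
  · rw [norm_div, norm_neg, norm_one_add h1, div_one]; exact hz
  · rw [mul_inv]
    congr 1
    field_simp
    ring

lemma R.symm {e : ℝ} {a b : ℚ_[p]} (h : R e a b) (he : e < 1) : R e b a := by
  obtain ⟨z, hz, rfl⟩ := h
  have h1 : ‖z‖ < 1 := lt_of_le_of_lt hz he
  have h2 := one_add_ne h1
  refine ⟨-z / (1 + z), ?_, ?_⟩
  · rw [norm_div, norm_neg, norm_one_add h1, div_one]; exact hz
  · field_simp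
    ring

lemma R.div {e : ℝ} {a b a' b' : ℚ_[p]} (h : R e a b) (h' : R e a' b') (he : e < 1) :
    R e (a / a') (b / b') := by
  rw [div_eq_mul_inv, div_eq_mul_inv]
  exact h.mul (h'.inv he) he.le

lemma R.pow {e : ℝ} {a b : ℚ_[p]} (h : R e a b) (he0 : 0 ≤ e) (he : e ≤ 1) (n : ℕ) :
    R e (a ^ n) (b ^ n) := by
  induction n with
  | zero => simpa using R.refl he0 (1 : ℚ_[p])
  | succ n ih => rw [pow_succ, pow_succ]; exact ih.mul h he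

lemma R.norm_eq {e : ℝ} {a b : ℚ_[p]} (h : R e a b) (he : e < 1) : ‖a‖ = ‖b‖ := by
  obtain ⟨z, hz, rfl⟩ := h
  rw [norm_mul, norm_one_add (lt_of_le_of_lt hz he), mul_one]

lemma R.one_add {e q : ℝ} {a b : ℚ_[p]} (h : R e a b) (hb : ‖b‖ ≤ q) (hq : q < 1) :
    R (q * e) (a + 1) (b + 1) := by
  obtain ⟨z, hz, rfl⟩ := h
  have h1 : ‖b‖ < 1 := lt_of_le_of_lt hb hq
  have h2 : b + 1 ≠ 0 := by rw [add_comm]; exact one_add_ne h1
  refine ⟨b * z / (b + 1), ?_, ?_⟩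
  · rw [norm_div, norm_add_small h1, div_one, norm_mul]
    exact mul_le_mul hb hz (norm_nonneg _) ((norm_nonneg _).trans hb)
  · field_simp
    ring

/-- powers of a number close to `1` -/
lemma R.powS (hP : S_POW) {e : ℝ} {a b : ℚ_[p]} (h : R e a b) (he : e ≤ ((p : ℝ)⁻¹) ^ 2) (n : ℕ) :
    R (‖(n : ℚ_[p])‖ * e) (a ^ n) (b ^ n) := by
  obtain ⟨z, hz, rfl⟩ := h
  have hp2 : (2 : ℝ) ≤ p := by exact_mod_cast hp.out.two_le
  have hpi : (0 : ℝ) < (p : ℝ)⁻¹ := by positivity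
  have hpi1 : (p : ℝ)⁻¹ ≤ 1 := inv_le_one_of_one_le₀ (by linarith)
  have h1 : ‖z‖ ≤ (p : ℝ)⁻¹ := by
    refine (hz.trans he).trans ?_
    rw [pow_two]
    calc (p : ℝ)⁻¹ * (p : ℝ)⁻¹ ≤ (p : ℝ)⁻¹ * 1 := mul_le_mul_of_nonneg_left hpi1 hpi.le
      _ = (p : ℝ)⁻¹ := mul_one _
  have h2 : p = 2 → ‖z‖ ≤ 1 / 4 := by
    intro h
    refine (hz.trans he).trans ?_
    rw [h]; norm_num
  refine ⟨(1 + z) ^ n - 1, ?_, by rw [mul_pow]; ring⟩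
  rw [hP p n z h1 h2]
  exact mul_le_mul_of_nonneg_left hz (norm_nonneg _)

/-! ### One pass -/

/-- the map -/
noncomputable def g (e : ℕ) (ρ t : ℚ_[p]) : ℚ_[p] := ρ * t / (t + 1) ^ (e + 1)

/-- the orbit of `g t` -/
noncomputable def v (e : ℕ) (ρ t : ℚ_[p]) (k : ℕ) : ℚ_[p] := (g e ρ)^[k + 1] t

lemma v_zero (e : ℕ) (ρ t : ℚ_[p]) : v e ρ t 0 = g e ρ t := rfl

lemma v_succ (e : ℕ) (ρ t : ℚ_[p]) (k : ℕ) : v e ρ t (k + 1) = g e ρ (v e ρ t k) := by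
  unfold v
  rw [Function.iterate_succ_apply']

/-- the hypotheses on `ρ` and the starting point -/
structure Hy (q : ℝ) (e s : ℕ) (ρ t : ℚ_[p]) : Prop where
  hρ : ‖ρ‖ * q ^ ((e + 1) * e) = 1
  ht : ‖t‖ = 1
  hs : ‖t + 1‖ = q ^ s

section pass

variable {q : ℝ} {e s : ℕ} {ρ t : ℚ_[p]}

lemma v0_norm (hq : 0 < q) (H : Hy q e s ρ t) :
    ‖v e ρ t 0‖ * q ^ ((e + 1) * e + s * (e + 1)) = 1 := by
  have h1 : q ^ (s * (e + 1)) ≠ 0 := by positivity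
  have h2 : ‖v e ρ t 0‖ = ‖ρ‖ / q ^ (s * (e + 1)) := by
    rw [v_zero, g, norm_div, norm_mul, norm_pow, H.ht, H.hs, mul_one, ← pow_mul]
  rw [h2, pow_add q ((e + 1) * e), div_mul_eq_mul_div, ← mul_assoc, H.hρ, one_mul, div_self h1]

lemma v0_large (hq : 0 < q) (hq1 : q < 1) (he : 1 ≤ e) (H : Hy q e s ρ t) :
    1 < ‖v e ρ t 0‖ := by
  have h := v0_norm hq H
  have h1 : q ^ ((e + 1) * e + s * (e + 1)) < 1 := by
    refine pow_lt_one₀ hq.le hq1 ?_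
    have : 0 < (e + 1) * e := by positivity
    omega
  have h2 : 0 < q ^ ((e + 1) * e + s * (e + 1)) := by positivity
  by_contra hc
  push Not at hc
  have : ‖v e ρ t 0‖ * q ^ ((e + 1) * e + s * (e + 1)) ≤ 1 * q ^ ((e + 1) * e + s * (e + 1)) :=
    mul_le_mul_of_nonneg_right hc h2.le
  linarith

lemma v0_inv_norm (hq : 0 < q) (hq1 : q < 1) (H : Hy q e s ρ t) :
    ‖(v e ρ t 0)⁻¹‖ ≤ q ^ ((e + 1) * e) := by
  have h := v0_norm hq H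
  rw [norm_inv, eq_inv_of_mul_eq_one_left h, inv_inv]
  exact pow_le_pow_of_le_one hq.le hq1.le (by omega)

/-- the first step, with the large number `v 0` -/
lemma v_one (hq : 0 < q) (hq1 : q < 1) (he : 1 ≤ e) (H : Hy q e s ρ t) :
    v e ρ t 1 = ρ * (v e ρ t 0 ^ e)⁻¹ / ((v e ρ t 0)⁻¹ + 1) ^ (e + 1) := by
  have h0 : v e ρ t 0 ≠ 0 := by
    have := v0_large hq hq1 he H
    intro h; rw [h, norm_zero] at this; linarith
  have h1 : (v e ρ t 0)⁻¹ + 1 = (v e ρ t 0 + 1) / v e ρ t 0 := by field_simp; ring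
  rw [v_succ, g, h1, div_pow, div_div_eq_mul_div, mul_assoc]
  congr 2
  rw [pow_succ]
  field_simp

lemma v_norm (hq : 0 < q) (hq1 : q < 1) (he : 1 ≤ e) (H : Hy q e s ρ t) :
    ∀ k : ℕ, 1 ≤ k → k ≤ s + e →
      ‖v e ρ t k‖ * q ^ ((e + 1) * e * k) = q ^ ((e + 1) * e * (s + e)) := by
  intro k hk1
  induction k, hk1 using Nat.le_induction with
  | base =>
    intro _
    have h1 := v0_inv_norm hq hq1 H
    have hD : q ^ ((e + 1) * e) < 1 := pow_lt_one₀ hq.le hq1 (by positivity)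
    rw [v_one hq hq1 he H, norm_div, norm_pow, norm_add_small (lt_of_le_of_lt h1 hD), one_pow,
      div_one, norm_mul, norm_inv, norm_pow, mul_one, mul_right_comm, H.hρ, one_mul]
    have h := v0_norm hq H
    rw [eq_inv_of_mul_eq_one_left h, inv_pow, inv_inv, ← pow_mul]
    congr 1
    ring
  | succ k hk1 ih =>
    intro hk
    have ih := ih (by omega)
    have hsm : ‖v e ρ t k‖ < 1 := by
      by_contra hc
      push Not at hc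
      have h2 : q ^ ((e + 1) * e * (s + e)) < q ^ ((e + 1) * e * k) := by
        refine pow_lt_pow_right_of_lt_one₀ hq hq1 ?_
        have : 0 < (e + 1) * e := by positivity
        exact Nat.mul_lt_mul_of_pos_left (by omega) this
      have h3 : 0 < q ^ ((e + 1) * e * k) := by positivity
      nlinarith
    rw [v_succ, g, norm_div, norm_pow, norm_add_small hsm, one_pow, div_one, norm_mul,
      show (e + 1) * e * (k + 1) = (e + 1) * e + (e + 1) * e * k by ring, pow_add]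
    calc ‖ρ‖ * ‖v e ρ t k‖ * (q ^ ((e + 1) * e) * q ^ ((e + 1) * e * k))
        = (‖ρ‖ * q ^ ((e + 1) * e)) * (‖v e ρ t k‖ * q ^ ((e + 1) * e * k)) := by ring
      _ = _ := by rw [H.hρ, ih, one_mul]

lemma v_small (hq : 0 < q) (hq1 : q < 1) (he : 1 ≤ e) (H : Hy q e s ρ t) (k : ℕ) (hk1 : 1 ≤ k)
    (hk : k < s + e) : ‖v e ρ t k‖ ≤ q ^ ((e + 1) * e) := by
  have h := v_norm hq hq1 he H k hk1 hk.le
  have h2 : 0 < q ^ ((e + 1) * e * k) := by positivity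
  have h3 : ‖v e ρ t k‖ = q ^ ((e + 1) * e * (s + e)) / q ^ ((e + 1) * e * k) := by
    rw [eq_div_iff h2.ne']; exact v_norm hq hq1 he H k hk1 hk.le
  rw [h3, div_le_iff₀ h2, ← pow_add]
  refine pow_le_pow_of_le_one hq.le hq1.le ?_
  calc (e + 1) * e + (e + 1) * e * k = (e + 1) * e * (k + 1) := by ring
    _ ≤ (e + 1) * e * (s + e) := Nat.mul_le_mul_left _ (by omega)

lemma v_last (hq : 0 < q) (hq1 : q < 1) (he : 1 ≤ e) (H : Hy q e s ρ t) :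
    ‖v e ρ t (s + e)‖ = 1 := by
  have h := v_norm hq hq1 he H (s + e) (by omega) le_rfl
  have h2 : 0 < q ^ ((e + 1) * e * (s + e)) := by positivity
  exact (mul_eq_right₀ h2.ne').1 h

lemma main_eq (hq : 0 < q) (H : Hy q e s ρ t) :
    ρ ^ (s + e) * (v e ρ t 0 ^ e)⁻¹ = ρ ^ s * (t ^ e)⁻¹ * (t + 1) ^ ((e + 1) * e) := by
  have h1 : ρ ≠ 0 := by
    intro h; have := H.hρ; rw [h, norm_zero, zero_mul] at this; exact zero_ne_one this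
  have h2 : t ≠ 0 := by
    intro h; have := H.ht; rw [h, norm_zero] at this; exact zero_ne_one this
  have h3 : t + 1 ≠ 0 := by
    intro h; have := H.hs; rw [h, norm_zero] at this
    have : (0 : ℝ) < q ^ s := by positivity
    linarith
  rw [v_zero, g, div_pow, mul_pow, ← pow_mul, pow_add]
  field_simp

lemma R_one_add {a : ℚ_[p]} {f : ℝ} (h : ‖a‖ ≤ f) : R f (a + 1) 1 := ⟨a, h, by ring⟩

/-- the hypotheses on `q` -/
structure Hq (p : ℕ) [Fact p.Prime] (q : ℝ) (e : ℕ) : Prop where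
  q0 : 0 < q
  e1 : 1 ≤ e
  qp : q ≤ (p : ℝ)⁻¹
  qe : q = ‖((e + 1 : ℕ) : ℚ_[p])‖

lemma p_inv_lt : (p : ℝ)⁻¹ < 1 := by
  have hp2 : (2 : ℝ) ≤ p := by exact_mod_cast hp.out.two_le
  exact inv_lt_one_of_one_lt₀ (by linarith)

lemma Hq.q1 (h : Hq p q e) : q < 1 := lt_of_le_of_lt h.qp p_inv_lt

lemma Hq.D2 (h : Hq p q e) : 2 ≤ (e + 1) * e := by
  have := h.e1
  nlinarith

lemma Hq.qD (h : Hq p q e) : q ^ ((e + 1) * e) ≤ ((p : ℝ)⁻¹) ^ 2 :=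
  (pow_le_pow_of_le_one h.q0.le h.q1.le h.D2).trans (pow_le_pow_left₀ h.q0.le h.qp 2)

lemma Hq.qD1 (h : Hq p q e) : q ^ ((e + 1) * e) < 1 :=
  pow_lt_one₀ h.q0.le h.q1 (by have := h.D2; omega)

lemma v_main (hP : S_POW) (hQ : Hq p q e) (H : Hy q e s ρ t) :
    ∀ k : ℕ, 1 ≤ k → k ≤ s + e →
      R (q * q ^ ((e + 1) * e)) (v e ρ t k) (ρ ^ k * (v e ρ t 0 ^ e)⁻¹) := by
  have hq := hQ.q0
  have hq1 := hQ.q1
  have he := hQ.e1
  have key : ∀ a : ℚ_[p], ‖a‖ ≤ q ^ ((e + 1) * e) →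
      R (q * q ^ ((e + 1) * e)) ((a + 1) ^ (e + 1)) 1 := by
    intro a ha
    have h := (R_one_add ha).powS hP hQ.qD (e + 1)
    rwa [one_pow, ← hQ.qe] at h
  have hqD1 : q * q ^ ((e + 1) * e) < 1 := by
    have h1 := hQ.qD1
    have h2 : 0 < q ^ ((e + 1) * e) := by positivity
    nlinarith
  have hqD0 : 0 ≤ q * q ^ ((e + 1) * e) := by positivity
  intro k hk1
  induction k, hk1 using Nat.le_induction with
  | base =>
    intro _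
    rw [v_one hq hq1 he H]
    have h1 := (R.refl hqD0 (ρ * (v e ρ t 0 ^ e)⁻¹)).div (key _ (v0_inv_norm hq hq1 H)) hqD1
    rw [div_one] at h1
    rw [pow_one]
    exact h1
  | succ k hk1 ih =>
    intro hk
    have ih := ih (by omega)
    rw [v_succ, g]
    have h1 := (((R.refl hqD0 ρ).mul ih hqD1.le).div
      (key _ (v_small hq hq1 he H k hk1 (by omega))) hqD1)
    rw [div_one] at h1
    rw [pow_succ' ρ k, mul_assoc]
    exact h1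

lemma v_var (hP : S_POW) (hQ : Hq p q e) (H : Hy q e s ρ t) {ρ' t' : ℚ_[p]} (H' : Hy q e s ρ' t')
    {μ η : ℝ} (hμ : μ < 1) (hμ0 : 0 ≤ μ) (hη : η ≤ ((p : ℝ)⁻¹) ^ 2) (hqη : q * η ≤ μ)
    (hρ : R μ ρ ρ') (ht : R μ t t') (hδ : R η (t + 1) (t' + 1)) :
    ∀ k : ℕ, 1 ≤ k → k ≤ s + e →
      R μ (v e ρ t k) (v e ρ' t' k) ∧
      R (q ^ ((e + 1) * e) * μ) (v e ρ t k * (ρ' ^ k * (v e ρ' t' 0 ^ e)⁻¹))
        (v e ρ' t' k * (ρ ^ k * (v e ρ t 0 ^ e)⁻¹)) := by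
  have hq := hQ.q0
  have hq1 := hQ.q1
  have he := hQ.e1
  have hD0 : 0 < q ^ ((e + 1) * e) := by positivity
  have hm0 : 0 ≤ q ^ ((e + 1) * e) * μ := by positivity
  have hmμ : q ^ ((e + 1) * e) * μ ≤ μ := by
    have := hQ.qD1
    nlinarith
  have hm1 : q ^ ((e + 1) * e) * μ < 1 := lt_of_le_of_lt hmμ hμ
  have h0 : R μ (v e ρ t 0) (v e ρ' t' 0) := by
    rw [v_zero, v_zero, g, g]
    refine (hρ.mul ht hμ.le).div ?_ hμ
    have h := hδ.powS hP hη (e + 1)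
    rw [← hQ.qe] at h
    exact h.mono hqη
  have h0' := h0.inv hμ
  have hX0 : R (q ^ ((e + 1) * e) * μ) (((v e ρ t 0)⁻¹ + 1) ^ (e + 1))
      (((v e ρ' t' 0)⁻¹ + 1) ^ (e + 1)) :=
    (h0'.one_add (v0_inv_norm hq hq1 H') hQ.qD1).pow hm0 hm1.le _
  -- from the second relation to the first
  have hback : ∀ k : ℕ, R (q ^ ((e + 1) * e) * μ) (v e ρ t k * (ρ' ^ k * (v e ρ' t' 0 ^ e)⁻¹))
        (v e ρ' t' k * (ρ ^ k * (v e ρ t 0 ^ e)⁻¹)) → R μ (v e ρ t k) (v e ρ' t' k) := by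
    intro k h
    have hr' : ρ' ≠ 0 := by
      intro h; have := H'.hρ; rw [h, norm_zero, zero_mul] at this; exact zero_ne_one this
    have hr : ρ ≠ 0 := by
      intro h; have := H.hρ; rw [h, norm_zero, zero_mul] at this; exact zero_ne_one this
    have hv : v e ρ t 0 ≠ 0 := by
      intro h; have := v0_norm hq H; rw [h, norm_zero, zero_mul] at this; exact zero_ne_one this
    have hv' : v e ρ' t' 0 ≠ 0 := by
      intro h; have := v0_norm hq H'; rw [h, norm_zero, zero_mul] at this; exact zero_ne_one this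
    have hc : R μ (ρ ^ k * (v e ρ t 0 ^ e)⁻¹) (ρ' ^ k * (v e ρ' t' 0 ^ e)⁻¹) :=
      (hρ.pow hμ0 hμ.le k).mul ((h0.pow hμ0 hμ.le e).inv hμ) hμ.le
    have h2 := (h.mono hmμ).div hc hμ
    have h3 := h2.mul (R.refl hμ0 1) hμ.le
    -- `v k * c' / c` is close to `v' k * c / c'`
    have h4 := ((h.mono hmμ).div (R.refl hμ0 (ρ' ^ k * (v e ρ' t' 0 ^ e)⁻¹)) hμ)
    have e1 : v e ρ t k * (ρ' ^ k * (v e ρ' t' 0 ^ e)⁻¹) / (ρ' ^ k * (v e ρ' t' 0 ^ e)⁻¹) =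
        v e ρ t k := by field_simp
    rw [e1] at h4
    refine h4.trans ?_ hμ.le
    have h5 := (R.refl hμ0 (v e ρ' t' k)).mul (hc.div (R.refl hμ0 (ρ' ^ k * (v e ρ' t' 0 ^ e)⁻¹)) hμ)
      hμ.le
    have e2 : (ρ' ^ k * (v e ρ' t' 0 ^ e)⁻¹) / (ρ' ^ k * (v e ρ' t' 0 ^ e)⁻¹) = 1 := by
      field_simp
    rw [e2, mul_one, ← mul_div_assoc] at h5
    exact h5
  intro k hk1
  induction k, hk1 using Nat.le_induction with
  | base =>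
    intro _
    have hb : R (q ^ ((e + 1) * e) * μ) (v e ρ t 1 * (ρ' ^ 1 * (v e ρ' t' 0 ^ e)⁻¹))
        (v e ρ' t' 1 * (ρ ^ 1 * (v e ρ t 0 ^ e)⁻¹)) := by
      rw [v_one hq hq1 he H, v_one hq hq1 he H']
      have h1 := (R.refl hm0 (ρ * (v e ρ t 0 ^ e)⁻¹ * (ρ' * (v e ρ' t' 0 ^ e)⁻¹))).div hX0 hm1
      convert h1 using 1
      · ring
      · ring
    exact ⟨hback 1 hb, hb⟩
  | succ k hk1 ih =>
    intro hk
    obtain ⟨ih1, ih2⟩ := ih (by omega)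
    have hX : R (q ^ ((e + 1) * e) * μ) ((v e ρ t k + 1) ^ (e + 1)) ((v e ρ' t' k + 1) ^ (e + 1)) :=
      (ih1.one_add (v_small hq hq1 he H' k hk1 (by omega)) hQ.qD1).pow hm0 hm1.le _
    have hb : R (q ^ ((e + 1) * e) * μ) (v e ρ t (k + 1) * (ρ' ^ (k + 1) * (v e ρ' t' 0 ^ e)⁻¹))
        (v e ρ' t' (k + 1) * (ρ ^ (k + 1) * (v e ρ t 0 ^ e)⁻¹)) := by
      rw [v_succ, v_succ, g, g]
      have h1 := (ih2.mul (R.refl hm0 (ρ * ρ')) hm1.le).div hX hm1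
      convert h1 using 1
      · ring
      · ring
    exact ⟨hback (k + 1) hb, hb⟩

/-- the last value -/
noncomputable def Z (e s : ℕ) (ρ t : ℚ_[p]) : ℚ_[p] := v e ρ t (s + e)

/-- its main term -/
noncomputable def M (e s : ℕ) (ρ t : ℚ_[p]) : ℚ_[p] :=
  ρ ^ s * (t ^ e)⁻¹ * (t + 1) ^ ((e + 1) * e)

lemma Z_main (hP : S_POW) (hQ : Hq p q e) (H : Hy q e s ρ t) :
    R (q * q ^ ((e + 1) * e)) (Z e s ρ t) (M e s ρ t) := by
  have h := v_main hP hQ H (s + e) (by have := hQ.e1; omega) le_rfl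
  rwa [main_eq hQ.q0 H] at h

lemma Z_var (hP : S_POW) (hQ : Hq p q e) (H : Hy q e s ρ t) {ρ' t' : ℚ_[p]} (H' : Hy q e s ρ' t')
    {μ η : ℝ} (hμ : μ < 1) (hμ0 : 0 ≤ μ) (hη : η ≤ ((p : ℝ)⁻¹) ^ 2) (hqη : q * η ≤ μ)
    (hρ : R μ ρ ρ') (ht : R μ t t') (hδ : R η (t + 1) (t' + 1)) :
    R (q ^ ((e + 1) * e) * μ) (Z e s ρ t * M e s ρ' t') (Z e s ρ' t' * M e s ρ t) := by
  have h := (v_var hP hQ H H' hμ hμ0 hη hqη hρ ht hδ (s + e) (by have := hQ.e1; omega) le_rfl).2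
  rwa [main_eq hQ.q0 H, main_eq hQ.q0 H'] at h

end pass

/-! ### The two passes -/

lemma norm_nat_le (m : ℕ) : ‖(m : ℚ_[p])‖ ≤ 1 := by
  have := Padic.norm_int_le_one (p := p) (m : ℤ)
  rwa [Int.cast_natCast] at this

lemma norm_le_of_dvd {n : ℕ} (h : p ∣ n) : ‖(n : ℚ_[p])‖ ≤ (p : ℝ)⁻¹ := by
  obtain ⟨m, rfl⟩ := h
  have hp0 : (0 : ℝ) < (p : ℝ)⁻¹ := by
    have := hp.out.pos
    positivity
  rw [Nat.cast_mul, norm_mul, Padic.norm_p]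
  calc (p : ℝ)⁻¹ * ‖(m : ℚ_[p])‖ ≤ (p : ℝ)⁻¹ * 1 :=
        mul_le_mul_of_nonneg_left (norm_nat_le m) hp0.le
    _ = (p : ℝ)⁻¹ := mul_one _

/-- `A = A' (1 + z) (1 + ζ)` with `|ζ| < |z| < 1` -/
lemma iso_aux {A A' z ζ : ℚ_[p]} (hA' : ‖A'‖ = 1) (hz : ‖z‖ < 1) (hζ : ‖ζ‖ < ‖z‖)
    (h : A = A' * (1 + z) * (1 + ζ)) : ‖A - A'‖ = ‖z‖ := by
  have h1 : A - A' = A' * (z + ζ * (1 + z)) := by rw [h]; ring
  have h2 : ‖ζ * (1 + z)‖ < ‖z‖ := by rw [norm_mul, norm_one_add hz, mul_one]; exact hζ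
  rw [h1, norm_mul, hA', one_mul, IsUltrametricDist.norm_add_eq_max_of_norm_ne_norm h2.ne',
    max_eq_left h2.le]

lemma R.close {f : ℝ} {a b : ℚ_[p]} (h : R f a b) (hb : ‖b‖ = 1) : ‖a - b‖ ≤ f := by
  obtain ⟨z, hz, rfl⟩ := h
  rw [show b * (1 + z) - b = b * z by ring, norm_mul, hb, one_mul]
  exact hz

section main

variable {q : ℝ} {e : ℕ}

/-- the critical point -/
noncomputable def a0 (p : ℕ) [Fact p.Prime] (e : ℕ) : ℚ_[p] := (e : ℚ_[p])⁻¹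

/-- the first approximation of `ρ` -/
noncomputable def rs (p : ℕ) [Fact p.Prime] (e : ℕ) : ℚ_[p] :=
  -((e : ℚ_[p]) ^ (e ^ 2) / ((e + 1 : ℕ) : ℚ_[p]) ^ ((e + 1) * e))

lemma norm_e (hQ : Hq p q e) : ‖(e : ℚ_[p])‖ = 1 := by
  have h : (e : ℚ_[p]) = -(1 + -((e + 1 : ℕ) : ℚ_[p])) := by push_cast; ring
  rw [h, norm_neg, norm_one_add]
  rw [norm_neg, ← hQ.qe]
  exact hQ.q1

lemma e_ne (hQ : Hq p q e) : (e : ℚ_[p]) ≠ 0 := by
  intro h; have := norm_e hQ; rw [h, norm_zero] at this; exact zero_ne_one this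

lemma d_ne : ((e + 1 : ℕ) : ℚ_[p]) ≠ 0 := Nat.cast_ne_zero.2 (by omega)

lemma rs_norm (hQ : Hq p q e) : ‖rs p e‖ * q ^ ((e + 1) * e) = 1 := by
  have h1 : q ^ ((e + 1) * e) ≠ 0 := (pow_pos hQ.q0 _).ne'
  rw [rs, norm_neg, norm_div, norm_pow, norm_pow, norm_e hQ, one_pow, ← hQ.qe, one_div,
    inv_mul_cancel₀ h1]

lemma a0_add (hQ : Hq p q e) : a0 p e + 1 = ((e + 1 : ℕ) : ℚ_[p]) / e := by
  have := e_ne hQ
  rw [a0]
  push_cast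
  field_simp
  ring

lemma hy_first (hQ : Hq p q e) {ρ : ℚ_[p]} (hρ : ‖ρ‖ = ‖rs p e‖) : Hy q e 1 ρ (a0 p e) where
  hρ := by rw [hρ]; exact rs_norm hQ
  ht := by rw [a0, norm_inv, norm_e hQ, inv_one]
  hs := by rw [a0_add hQ, norm_div, norm_e hQ, div_one, ← hQ.qe, pow_one]

lemma M_first (hQ : Hq p q e) (ρ : ℚ_[p]) : M e 1 ρ (a0 p e) = ρ * (-(rs p e)⁻¹) := by
  have h1 := e_ne hQ
  have h2 : ((e + 1 : ℕ) : ℚ_[p]) ≠ 0 := d_ne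
  rw [M, a0_add hQ, a0, rs, pow_one, inv_neg, neg_neg, inv_div, inv_pow, inv_inv, div_pow,
    mul_assoc]
  congr 1
  rw [mul_div_assoc', div_eq_div_iff (pow_ne_zero _ h1) (pow_ne_zero _ h1),
    show (e + 1) * e = e + e ^ 2 by ring, pow_add (e : ℚ_[p])]
  ring

/-- the value after the first pass -/
noncomputable def A (p : ℕ) [Fact p.Prime] (e : ℕ) (ρ : ℚ_[p]) : ℚ_[p] := Z e 1 ρ (a0 p e)

lemma norm_eq_of_close {x y : ℚ_[p]} {f : ℝ} (h : ‖x - y‖ ≤ ‖y‖ * f) (hf : f < 1) (hy : y ≠ 0) :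
    ‖x‖ = ‖y‖ := by
  have h0 : 0 < ‖y‖ := norm_pos_iff.2 hy
  have h1 : ‖x - y‖ < ‖y‖ := lt_of_le_of_lt h (by nlinarith)
  have h2 : x = y + (x - y) := by ring
  rw [h2, IsUltrametricDist.norm_add_eq_max_of_norm_ne_norm h1.ne', max_eq_left h1.le]

lemma eps_lt : ((p : ℝ)⁻¹) ^ 2 < 1 := by
  have h := p_inv_lt (p := p)
  have h0 : (0 : ℝ) < (p : ℝ)⁻¹ := by
    have := hp.out.pos
    positivity
  exact pow_lt_one₀ h0.le h (by norm_num)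

lemma eps_pos : 0 < ((p : ℝ)⁻¹) ^ 2 := by
  have := hp.out.pos
  positivity

lemma rs_ne (hQ : Hq p q e) : rs p e ≠ 0 := by
  intro h; have := rs_norm hQ; rw [h, norm_zero, zero_mul] at this; exact zero_ne_one this

lemma A_iso (hP : S_POW) (hQ : Hq p q e) {ρ ρ' : ℚ_[p]}
    (h : ‖ρ - rs p e‖ ≤ ‖rs p e‖ * ((p : ℝ)⁻¹) ^ 2) (h' : ‖ρ' - rs p e‖ ≤ ‖rs p e‖ * ((p : ℝ)⁻¹) ^ 2) :
    ‖A p e ρ - A p e ρ'‖ = q ^ ((e + 1) * e) * ‖ρ - ρ'‖ := by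
  rcases eq_or_ne ρ ρ' with rfl | hne
  · simp
  have hn := norm_eq_of_close h eps_lt (rs_ne hQ)
  have hn' := norm_eq_of_close h' eps_lt (rs_ne hQ)
  have hr' : ρ' ≠ 0 := by
    intro h0; rw [h0, norm_zero] at hn'; exact (norm_pos_iff.2 (rs_ne hQ)).ne hn'
  have hr : ρ ≠ 0 := by
    intro h0; rw [h0, norm_zero] at hn; exact (norm_pos_iff.2 (rs_ne hQ)).ne hn
  have H := hy_first hQ hn
  have H' := hy_first hQ hn'
  set z : ℚ_[p] := (ρ - ρ') / ρ' with hz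
  have hρz : ρ = ρ' * (1 + z) := by rw [hz]; field_simp; ring
  have hqD : 0 < q ^ ((e + 1) * e) := pow_pos hQ.q0 _
  have hz1 : ‖z‖ = q ^ ((e + 1) * e) * ‖ρ - ρ'‖ := by
    rw [hz, norm_div, hn', div_eq_iff (norm_pos_iff.2 (rs_ne hQ)).ne']
    have := rs_norm hQ
    calc ‖ρ - ρ'‖ = ‖ρ - ρ'‖ * (‖rs p e‖ * q ^ ((e + 1) * e)) := by rw [this, mul_one]
      _ = _ := by ring
  have hzlt : ‖z‖ < 1 := by
    have h1 : ‖ρ - ρ'‖ ≤ ‖rs p e‖ * ((p : ℝ)⁻¹) ^ 2 := by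
      rw [show ρ - ρ' = (ρ - rs p e) - (ρ' - rs p e) by ring]
      exact sub_le h h'
    rw [hz1]
    calc q ^ ((e + 1) * e) * ‖ρ - ρ'‖ ≤ q ^ ((e + 1) * e) * (‖rs p e‖ * ((p : ℝ)⁻¹) ^ 2) :=
          mul_le_mul_of_nonneg_left h1 hqD.le
      _ = (‖rs p e‖ * q ^ ((e + 1) * e)) * ((p : ℝ)⁻¹) ^ 2 := by ring
      _ < 1 := by rw [rs_norm hQ, one_mul]; exact eps_lt
  have hz0 : 0 < ‖z‖ := by
    rw [hz1]; exact mul_pos hqD (norm_pos_iff.2 (sub_ne_zero.2 hne))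
  have hv := Z_var hP hQ H H' (μ := ‖z‖) (η := 0) hzlt (norm_nonneg _) eps_pos.le
    (by rw [mul_zero]; exact norm_nonneg _) ⟨z, le_rfl, hρz⟩ (R.refl (norm_nonneg _) _)
    (R.refl le_rfl _)
  rw [M_first hQ, M_first hQ] at hv
  obtain ⟨ζ, hζ, hvv⟩ := hv
  have hζ' : ‖ζ‖ < ‖z‖ := lt_of_le_of_lt hζ (by have := hQ.qD1; nlinarith)
  have hA : A p e ρ = A p e ρ' * (1 + z) * (1 + ζ) := by
    have hk : -(rs p e)⁻¹ ≠ 0 := neg_ne_zero.2 (inv_ne_zero (rs_ne hQ))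
    have h1 : A p e ρ * (ρ' * (-(rs p e)⁻¹)) =
        (A p e ρ' * (1 + z) * (1 + ζ)) * (ρ' * (-(rs p e)⁻¹)) := by
      unfold A
      rw [hvv, hρz]
      ring
    exact mul_right_cancel₀ (mul_ne_zero hr' hk) h1
  have hA'1 : ‖A p e ρ'‖ = 1 := v_last hQ.q0 hQ.q1 hQ.e1 H'
  rw [iso_aux hA'1 hzlt hζ' hA, hz1]

lemma R.neg {f : ℝ} {a b : ℚ_[p]} (h : R f a b) : R f (-a) (-b) := by
  obtain ⟨z, hz, rfl⟩ := h
  exact ⟨z, hz, by ring⟩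

lemma q_le_one (hQ : Hq p q e) : q * q ^ ((e + 1) * e) ≤ q * ((p : ℝ)⁻¹) ^ 2 :=
  mul_le_mul_of_nonneg_left hQ.qD hQ.q0.le

/-- the value `ρ_c` -/
lemma exists_center (hI : S_ISO) (hP : S_POW) (hQ : Hq p q e) {T : ℕ} (hT : 3 ≤ T) :
    ∃ ρ : ℚ_[p], ‖ρ - rs p e‖ ≤ ‖rs p e‖ * ((p : ℝ)⁻¹) ^ 2 ∧
      A p e ρ = -1 + ((e + 1 : ℕ) : ℚ_[p]) ^ T := by
  have hqD : 0 < q ^ ((e + 1) * e) := pow_pos hQ.q0 _
  have hrs := rs_norm hQ
  have hr0 : 0 < ‖rs p e‖ := norm_pos_iff.2 (rs_ne hQ)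
  have hc : ‖(-1 + ((e + 1 : ℕ) : ℚ_[p]) ^ T) - A p e (rs p e)‖ ≤
      q ^ ((e + 1) * e) * (‖rs p e‖ * ((p : ℝ)⁻¹) ^ 2) := by
    have e1 : q ^ ((e + 1) * e) * (‖rs p e‖ * ((p : ℝ)⁻¹) ^ 2) = ((p : ℝ)⁻¹) ^ 2 := by
      calc _ = (‖rs p e‖ * q ^ ((e + 1) * e)) * ((p : ℝ)⁻¹) ^ 2 := by ring
        _ = _ := by rw [hrs, one_mul]
    rw [e1]
    have h1 := (Z_main hP hQ (hy_first hQ (ρ := rs p e) rfl)).close (by
      rw [M_first hQ, mul_neg, mul_inv_cancel₀ (rs_ne hQ), norm_neg, norm_one])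
    rw [M_first hQ, mul_neg, mul_inv_cancel₀ (rs_ne hQ)] at h1
    have h2 : q * q ^ ((e + 1) * e) ≤ ((p : ℝ)⁻¹) ^ 2 := by
      refine (q_le_one hQ).trans ?_
      have := hQ.q1
      have h3 := eps_pos (p := p)
      nlinarith
    have h3 : ‖((e + 1 : ℕ) : ℚ_[p]) ^ T‖ ≤ ((p : ℝ)⁻¹) ^ 2 := by
      rw [norm_pow, ← hQ.qe]
      exact (pow_le_pow_of_le_one hQ.q0.le hQ.q1.le (by omega : 2 ≤ T)).trans
        (pow_le_pow_left₀ hQ.q0.le hQ.qp 2)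
    rw [show (-1 + ((e + 1 : ℕ) : ℚ_[p]) ^ T) - A p e (rs p e) =
      ((e + 1 : ℕ) : ℚ_[p]) ^ T - (A p e (rs p e) - -1) by ring]
    exact sub_le h3 (h1.trans h2)
  obtain ⟨x, hx, hx2⟩ := hI p (A p e) (rs p e) (‖rs p e‖ * ((p : ℝ)⁻¹) ^ 2) (q ^ ((e + 1) * e))
    (mul_pos hr0 eps_pos) hqD (fun x y hx hy => A_iso hP hQ hx hy) _ hc
  exact ⟨x, hx, hx2⟩

lemma qT_le (hQ : Hq p q e) {T : ℕ} (hT : 3 ≤ T) : q ^ T ≤ q * ((p : ℝ)⁻¹) ^ 2 := by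
  have h1 : q ^ T ≤ q ^ 3 := pow_le_pow_of_le_one hQ.q0.le hQ.q1.le hT
  have h2 : q ^ 3 = q * q ^ 2 := by ring
  rw [h2] at h1
  exact h1.trans (mul_le_mul_of_nonneg_left (pow_le_pow_left₀ hQ.q0.le hQ.qp 2) hQ.q0.le)

lemma qeps_lt (hQ : Hq p q e) : q * ((p : ℝ)⁻¹) ^ 2 < 1 := by
  have h1 := hQ.q1
  have h2 := hQ.q0
  have h3 := eps_lt (p := p)
  have h4 := eps_pos (p := p)
  nlinarith

/-- `-1 + d ^ T` -/
lemma R_Ac (hQ : Hq p q e) {T : ℕ} (hT : 3 ≤ T) :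
    R (q * ((p : ℝ)⁻¹) ^ 2) (-1 + ((e + 1 : ℕ) : ℚ_[p]) ^ T) (-1) := by
  refine ⟨-((e + 1 : ℕ) : ℚ_[p]) ^ T, ?_, by ring⟩
  rw [norm_neg, norm_pow, ← hQ.qe]
  exact qT_le hQ hT

/-- `ρ_c` is close to `ρ*` -/
lemma center_close (hP : S_POW) (hQ : Hq p q e) {T : ℕ} (hT : 3 ≤ T) {ρ : ℚ_[p]}
    (h : ‖ρ - rs p e‖ ≤ ‖rs p e‖ * ((p : ℝ)⁻¹) ^ 2)
    (hA : A p e ρ = -1 + ((e + 1 : ℕ) : ℚ_[p]) ^ T) :
    R (q * ((p : ℝ)⁻¹) ^ 2) ρ (rs p e) := by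
  have hn := norm_eq_of_close h eps_lt (rs_ne hQ)
  have h1 := (Z_main hP hQ (hy_first hQ hn)).mono (q_le_one hQ)
  rw [M_first hQ] at h1
  have h2 := (h1.symm (qeps_lt hQ)).trans (show R _ (A p e ρ) (-1) by
    rw [hA]; exact R_Ac hQ hT) (qeps_lt hQ).le
  have h3 := h2.mul (R.refl (mul_nonneg hQ.q0.le eps_pos.le) (-(rs p e))) (qeps_lt hQ).le
  have e1 : ρ * -(rs p e)⁻¹ * -(rs p e) = ρ := by
    have := rs_ne hQ
    field_simp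
  rw [e1, mul_neg, neg_mul, one_mul, neg_neg] at h3
  exact h3

/-! ### the second pass -/

/-- the final value -/
noncomputable def W (p : ℕ) [Fact p.Prime] (e T : ℕ) (ρ : ℚ_[p]) : ℚ_[p] := Z e T ρ (A p e ρ)

/-- the small ball around `ρ_c` -/
structure Ball (p : ℕ) [Fact p.Prime] (q : ℝ) (e T : ℕ) (ρc ρ : ℚ_[p]) : Prop where
  h : ‖ρ - ρc‖ ≤ ‖rs p e‖ * q ^ T * ((p : ℝ)⁻¹) ^ 2

lemma Ball.first (hQ : Hq p q e) {T : ℕ} {ρc ρ : ℚ_[p]}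
    (hc : ‖ρc - rs p e‖ ≤ ‖rs p e‖ * ((p : ℝ)⁻¹) ^ 2) (hb : Ball p q e T ρc ρ) :
    ‖ρ - rs p e‖ ≤ ‖rs p e‖ * ((p : ℝ)⁻¹) ^ 2 := by
  rw [show ρ - rs p e = (ρ - ρc) + (ρc - rs p e) by ring]
  refine add_le (hb.h.trans ?_) hc
  have h1 : q ^ T ≤ 1 := pow_le_one₀ hQ.q0.le hQ.q1.le
  calc ‖rs p e‖ * q ^ T * ((p : ℝ)⁻¹) ^ 2 ≤ ‖rs p e‖ * 1 * ((p : ℝ)⁻¹) ^ 2 := by
        gcongr
    _ = _ := by rw [mul_one]

lemma Ball.hy (hP : S_POW) (hQ : Hq p q e) {T : ℕ} {ρc ρ : ℚ_[p]}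
    (hc : ‖ρc - rs p e‖ ≤ ‖rs p e‖ * ((p : ℝ)⁻¹) ^ 2)
    (hA : A p e ρc = -1 + ((e + 1 : ℕ) : ℚ_[p]) ^ T) (hb : Ball p q e T ρc ρ) :
    Hy q e T ρ (A p e ρ) := by
  have h1 := hb.first hQ hc
  have hn := norm_eq_of_close h1 eps_lt (rs_ne hQ)
  have H := hy_first hQ hn
  refine ⟨H.hρ, v_last hQ.q0 hQ.q1 hQ.e1 H, ?_⟩
  have h2 := A_iso hP hQ h1 hc
  have h3 : ‖A p e ρ - A p e ρc‖ ≤ q ^ T * ((p : ℝ)⁻¹) ^ 2 := by
    rw [h2]
    calc q ^ ((e + 1) * e) * ‖ρ - ρc‖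
        ≤ q ^ ((e + 1) * e) * (‖rs p e‖ * q ^ T * ((p : ℝ)⁻¹) ^ 2) :=
          mul_le_mul_of_nonneg_left hb.h (pow_pos hQ.q0 _).le
      _ = (‖rs p e‖ * q ^ ((e + 1) * e)) * (q ^ T * ((p : ℝ)⁻¹) ^ 2) := by ring
      _ = _ := by rw [rs_norm hQ, one_mul]
  have h4 : A p e ρ + 1 = ((e + 1 : ℕ) : ℚ_[p]) ^ T + (A p e ρ - A p e ρc) := by
    rw [hA]; ring
  have h5 : ‖((e + 1 : ℕ) : ℚ_[p]) ^ T‖ = q ^ T := by rw [norm_pow, ← hQ.qe]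
  have h6 : ‖A p e ρ - A p e ρc‖ < ‖((e + 1 : ℕ) : ℚ_[p]) ^ T‖ := by
    rw [h5]
    refine lt_of_le_of_lt h3 ?_
    have := pow_pos hQ.q0 T
    have := eps_lt (p := p)
    nlinarith
  rw [h4, IsUltrametricDist.norm_add_eq_max_of_norm_ne_norm h6.ne', max_eq_left h6.le, h5]

lemma W_iso (hP : S_POW) (hQ : Hq p q e) {T : ℕ} (hT : 3 ≤ T) {ρc ρ ρ' : ℚ_[p]}
    (hc : ‖ρc - rs p e‖ ≤ ‖rs p e‖ * ((p : ℝ)⁻¹) ^ 2)
    (hA : A p e ρc = -1 + ((e + 1 : ℕ) : ℚ_[p]) ^ T) (hb : Ball p q e T ρc ρ)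
    (hb' : Ball p q e T ρc ρ') :
    ‖W p e T ρ - W p e T ρ'‖ = q * q ^ ((e + 1) * e) / q ^ T * ‖ρ - ρ'‖ := by
  rcases eq_or_ne ρ ρ' with rfl | hne
  · simp
  have hq := hQ.q0
  have hq1 := hQ.q1
  have hqT : 0 < q ^ T := pow_pos hq _
  have hqD : 0 < q ^ ((e + 1) * e) := pow_pos hq _
  have hD1 := hQ.qD1
  have h1 := hb.first hQ hc
  have h1' := hb'.first hQ hc
  have hn := norm_eq_of_close h1 eps_lt (rs_ne hQ)
  have hn' := norm_eq_of_close h1' eps_lt (rs_ne hQ)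
  have H := hb.hy hP hQ hc hA
  have H' := hb'.hy hP hQ hc hA
  have hr0 : 0 < ‖rs p e‖ := norm_pos_iff.2 (rs_ne hQ)
  have hr' : ρ' ≠ 0 := by
    intro h0; rw [h0, norm_zero] at hn'; exact hr0.ne hn'
  have hr : ρ ≠ 0 := by
    intro h0; rw [h0, norm_zero] at hn; exact hr0.ne hn
  have hA0 : A p e ρ ≠ 0 := by
    intro h; have := H.ht; rw [h, norm_zero] at this; exact zero_ne_one this
  have hA0' : A p e ρ' ≠ 0 := by
    intro h; have := H'.ht; rw [h, norm_zero] at this; exact zero_ne_one this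
  have hδ0 : A p e ρ + 1 ≠ 0 := by
    intro h; have := H.hs; rw [h, norm_zero] at this; exact hqT.ne this
  have hδ0' : A p e ρ' + 1 ≠ 0 := by
    intro h; have := H'.hs; rw [h, norm_zero] at this; exact hqT.ne this
  have hAA := A_iso hP hQ h1 h1'
  set η : ℝ := q ^ ((e + 1) * e) * ‖ρ - ρ'‖ / q ^ T with hη
  have hη0 : 0 < η := by
    rw [hη]; exact div_pos (mul_pos hqD (norm_pos_iff.2 (sub_ne_zero.2 hne))) hqT
  have hηe : η ≤ ((p : ℝ)⁻¹) ^ 2 := by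
    have h2 : ‖ρ - ρ'‖ ≤ ‖rs p e‖ * q ^ T * ((p : ℝ)⁻¹) ^ 2 := by
      rw [show ρ - ρ' = (ρ - ρc) - (ρ' - ρc) by ring]
      exact sub_le hb.h hb'.h
    rw [hη, div_le_iff₀ hqT]
    calc q ^ ((e + 1) * e) * ‖ρ - ρ'‖
        ≤ q ^ ((e + 1) * e) * (‖rs p e‖ * q ^ T * ((p : ℝ)⁻¹) ^ 2) :=
          mul_le_mul_of_nonneg_left h2 hqD.le
      _ = (‖rs p e‖ * q ^ ((e + 1) * e)) * (((p : ℝ)⁻¹) ^ 2 * q ^ T) := by ring
      _ = _ := by rw [rs_norm hQ, one_mul]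
  have hη1 : η < 1 := lt_of_le_of_lt hηe eps_lt
  have hTq : q ^ T ≤ q * q := by
    have := pow_le_pow_of_le_one hq.le hq1.le (by omega : 2 ≤ T)
    rwa [pow_two] at this
  have hqη0 : 0 < q * η := mul_pos hq hη0
  have hqη1 : q * η < 1 := by nlinarith
  have hTη : q ^ T * η ≤ q * (q * η) := by nlinarith
  have hTη' : q ^ T * η ≤ q * η := by nlinarith
  -- the relative differences
  have hAn : ‖A p e ρ - A p e ρ'‖ = q ^ T * η := by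
    rw [hAA, hη]; field_simp
  have hRρ : R (q ^ T * η) ρ ρ' := by
    refine ⟨(ρ - ρ') / ρ', ?_, by field_simp; ring⟩
    rw [norm_div, hn', div_le_iff₀ hr0]
    have : q ^ T * η * ‖rs p e‖ = (‖rs p e‖ * q ^ ((e + 1) * e)) * ‖ρ - ρ'‖ := by
      rw [hη]; field_simp
    rw [this, rs_norm hQ, one_mul]
  have hRA : R (q ^ T * η) (A p e ρ) (A p e ρ') := by
    refine ⟨(A p e ρ - A p e ρ') / A p e ρ', ?_, by field_simp; ring⟩
    rw [norm_div, H'.ht, div_one, hAn]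
  set w : ℚ_[p] := (A p e ρ - A p e ρ') / (A p e ρ' + 1) with hw
  have hwn : ‖w‖ = η := by
    rw [hw, norm_div, H'.hs, hAn, mul_div_assoc, mul_comm, div_mul_cancel₀ _ hqT.ne']
  have hδw : A p e ρ + 1 = (A p e ρ' + 1) * (1 + w) := by
    rw [hw]; field_simp; ring
  have hv := Z_var hP hQ H H' (μ := q * η) (η := η) hqη1 hqη0.le hηe le_rfl
    (hRρ.mono hTη') (hRA.mono hTη') ⟨w, hwn.le, hδw⟩
  -- the main term
  have hTη0 : 0 ≤ q ^ T * η := (mul_pos hqT hη0).le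
  have hTη1 : q ^ T * η < 1 := lt_of_le_of_lt hTη' hqη1
  have hM1 := (hRρ.pow hTη0 hTη1.le T).mul ((hRA.pow hTη0 hTη1.le e).inv hTη1) hTη1.le
  obtain ⟨u, hu, huu⟩ := hM1
  set w' : ℚ_[p] := (1 + w) ^ ((e + 1) * e) - 1 with hw'
  have hw'n : ‖w'‖ = q * η := by
    have hp2 : (2 : ℝ) ≤ p := by exact_mod_cast hp.out.two_le
    have hpi : (0 : ℝ) < (p : ℝ)⁻¹ := by positivity
    have hpi1 : (p : ℝ)⁻¹ ≤ 1 := inv_le_one_of_one_le₀ (by linarith)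
    have h2 : ‖w‖ ≤ (p : ℝ)⁻¹ := by
      rw [hwn]
      refine hηe.trans ?_
      rw [pow_two]
      calc (p : ℝ)⁻¹ * (p : ℝ)⁻¹ ≤ (p : ℝ)⁻¹ * 1 := mul_le_mul_of_nonneg_left hpi1 hpi.le
        _ = (p : ℝ)⁻¹ := mul_one _
    have h3 : p = 2 → ‖w‖ ≤ 1 / 4 := by
      intro h
      rw [hwn]
      refine hηe.trans ?_
      rw [h]; norm_num
    rw [hw', hP p _ w h2 h3, Nat.cast_mul, norm_mul, norm_e hQ, mul_one, ← hQ.qe, hwn]
  have hMM : M e T ρ (A p e ρ) = M e T ρ' (A p e ρ') * ((1 + u) * (1 + w')) := by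
    unfold M
    rw [huu, hδw, mul_pow, hw']
    ring
  obtain ⟨ζ, hζ, hvv⟩ := hv
  have hM0 : M e T ρ' (A p e ρ') ≠ 0 := by
    unfold M
    exact mul_ne_zero (mul_ne_zero (pow_ne_zero _ hr') (inv_ne_zero (pow_ne_zero _ hA0')))
      (pow_ne_zero _ hδ0')
  have hWW : W p e T ρ = W p e T ρ' * (1 + w') * (1 + (u + ζ + u * ζ)) := by
    have h2 : W p e T ρ * M e T ρ' (A p e ρ') =
        (W p e T ρ' * (1 + w') * (1 + (u + ζ + u * ζ))) * M e T ρ' (A p e ρ') := by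
      unfold W
      rw [hvv, hMM]
      ring
    exact mul_right_cancel₀ hM0 h2
  have hsm : ‖u + ζ + u * ζ‖ < ‖w'‖ := by
    have hbd : ‖u + ζ + u * ζ‖ ≤ max (q ^ T * η) (q ^ ((e + 1) * e) * (q * η)) := by
      have h3 : ‖u‖ ≤ max (q ^ T * η) (q ^ ((e + 1) * e) * (q * η)) := hu.trans (le_max_left _ _)
      have h4 : ‖ζ‖ ≤ max (q ^ T * η) (q ^ ((e + 1) * e) * (q * η)) := hζ.trans (le_max_right _ _)
      refine add_le (add_le h3 h4) ?_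
      rw [norm_mul]
      calc ‖u‖ * ‖ζ‖ ≤ 1 * max (q ^ T * η) (q ^ ((e + 1) * e) * (q * η)) :=
            mul_le_mul (hu.trans hTη1.le) h4 (norm_nonneg _) zero_le_one
        _ = _ := one_mul _
    rw [hw'n]
    refine lt_of_le_of_lt hbd (max_lt ?_ ?_)
    · exact lt_of_le_of_lt hTη (by nlinarith)
    · nlinarith
  have hW'1 : ‖W p e T ρ'‖ = 1 := v_last hq hq1 hQ.e1 H'
  rw [iso_aux hW'1 (by rw [hw'n]; exact hqη1) hsm hWW, hw'n, hη]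
  ring

/-- powers of `1 - d` -/
lemma pow_close (hP : S_POW) (hQ : Hq p q e) (hpe : p ∣ e + 1) (N : ℕ) :
    R (q * ((p : ℝ)⁻¹) ^ 2) ((1 - ((e + 1 : ℕ) : ℚ_[p])) ^ (e ^ 2 * p ^ (N + 3))) 1 := by
  have hp0 : (0 : ℝ) < (p : ℝ)⁻¹ := by
    have := hp.out.pos
    positivity
  have h1 : ‖(1 - ((e + 1 : ℕ) : ℚ_[p])) ^ p - 1‖ ≤ q * (p : ℝ)⁻¹ := by
    rcases hp.out.eq_two_or_odd' with h2 | hodd
    · subst h2
      rw [show (1 - ((e + 1 : ℕ) : ℚ_[2])) ^ 2 - 1 =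
        ((e + 1 : ℕ) : ℚ_[2]) * (((e + 1 : ℕ) : ℚ_[2]) - ((2 : ℕ) : ℚ_[2])) by push_cast; ring,
        norm_mul, ← hQ.qe]
      refine mul_le_mul_of_nonneg_left ?_ hQ.q0.le
      exact sub_le (norm_le_of_dvd hpe) (norm_le_of_dvd dvd_rfl)
    · have h3 := hP p p (-((e + 1 : ℕ) : ℚ_[p])) (by rw [norm_neg]; exact norm_le_of_dvd hpe) (by
        intro h; rw [h] at hodd; exact absurd hodd (by decide))
      rw [sub_eq_add_neg (1 : ℚ_[p]), h3, norm_neg, ← hQ.qe, Padic.norm_p, mul_comm]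
  have h2 : R (q * (p : ℝ)⁻¹) ((1 - ((e + 1 : ℕ) : ℚ_[p])) ^ p) 1 := ⟨_, h1, by ring⟩
  have h3 : q * (p : ℝ)⁻¹ ≤ ((p : ℝ)⁻¹) ^ 2 := by
    rw [pow_two]; exact mul_le_mul_of_nonneg_right hQ.qp hp0.le
  have h4 := h2.powS hP h3 (e ^ 2 * p ^ (N + 2))
  rw [one_pow, ← pow_mul, show p * (e ^ 2 * p ^ (N + 2)) = e ^ 2 * p ^ (N + 3) by ring] at h4
  refine h4.mono ?_
  have h5 : ‖((e ^ 2 * p ^ (N + 2) : ℕ) : ℚ_[p])‖ ≤ (p : ℝ)⁻¹ :=
    norm_le_of_dvd (Dvd.dvd.mul_left (dvd_pow_self p (by omega)) _)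
  calc ‖((e ^ 2 * p ^ (N + 2) : ℕ) : ℚ_[p])‖ * (q * (p : ℝ)⁻¹) ≤ (p : ℝ)⁻¹ * (q * (p : ℝ)⁻¹) :=
        mul_le_mul_of_nonneg_right h5 (mul_nonneg hQ.q0.le hp0.le)
    _ = q * ((p : ℝ)⁻¹) ^ 2 := by ring

lemma sign_eq (hpe : p ∣ e + 1) (N : ℕ) :
    rs p e ^ (p ^ (N + 3)) * ((-1 : ℚ_[p]) ^ e)⁻¹ *
      (((e + 1 : ℕ) : ℚ_[p]) ^ (p ^ (N + 3))) ^ ((e + 1) * e) =
      -((1 - ((e + 1 : ℕ) : ℚ_[p])) ^ (e ^ 2 * p ^ (N + 3))) := by
  set T := p ^ (N + 3) with hT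
  have hd : ((e + 1 : ℕ) : ℚ_[p]) ≠ 0 := d_ne
  have he : (e : ℚ_[p]) = (-1) * (1 - ((e + 1 : ℕ) : ℚ_[p])) := by push_cast; ring
  have h1 : ((-1 : ℚ_[p]) ^ e)⁻¹ = (-1) ^ e := by
    rw [← inv_pow]; norm_num
  have hodd : Odd (T + e + e ^ 2 * T) := by
    have hee : Even (e * (e + 1)) := Nat.even_mul_succ_self e
    rcases hp.out.eq_two_or_odd' with h2 | hodd
    · subst h2
      have hTe : Even T := by rw [hT]; exact (even_two.pow_of_ne_zero (by omega))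
      have heo : Odd e := by
        have : Even (e + 1) := even_iff_two_dvd.2 hpe
        rwa [Nat.even_add_one, Nat.not_even_iff_odd] at this
      exact (hTe.add_odd heo).add_even (hTe.mul_left _)
    · have hTo : Odd T := by rw [hT]; exact hodd.pow
      rcases Nat.even_or_odd e with h | h
      · have h3 : Even (e ^ 2 * T) := (h.pow_of_ne_zero (by norm_num)).mul_right _
        exact (hTo.add_even h).add_even h3
      · have h3 : Odd (e ^ 2 * T) := h.pow.mul hTo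
        exact (hTo.add_odd h).add_odd h3
  have h2 : rs p e ^ T * (((e + 1 : ℕ) : ℚ_[p]) ^ T) ^ ((e + 1) * e) =
      (-1) ^ T * (e : ℚ_[p]) ^ (e ^ 2 * T) := by
    rw [rs, neg_pow, div_pow, ← pow_mul, ← pow_mul, ← pow_mul, mul_comm ((e + 1) * e) T]
    field_simp
  calc rs p e ^ T * ((-1 : ℚ_[p]) ^ e)⁻¹ * (((e + 1 : ℕ) : ℚ_[p]) ^ T) ^ ((e + 1) * e)
      = (rs p e ^ T * (((e + 1 : ℕ) : ℚ_[p]) ^ T) ^ ((e + 1) * e)) * ((-1 : ℚ_[p]) ^ e)⁻¹ := by ring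
    _ = (-1) ^ T * ((-1) ^ (e ^ 2 * T) * (1 - ((e + 1 : ℕ) : ℚ_[p])) ^ (e ^ 2 * T)) * (-1) ^ e := by
        rw [h2, h1]
        conv_lhs => rw [he]
        rw [mul_pow]
    _ = (-1) ^ (T + e + e ^ 2 * T) * (1 - ((e + 1 : ℕ) : ℚ_[p])) ^ (e ^ 2 * T) := by
        rw [pow_add, pow_add]; ring
    _ = _ := by rw [hodd.neg_one_pow]; ring

/-- some `ρ` has final value `-1` -/
lemma exists_rho (hI : S_ISO) (hP : S_POW) (hQ : Hq p q e) (hpe : p ∣ e + 1) (N : ℕ) :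
    ∃ ρ : ℚ_[p], Hy q e 1 ρ (a0 p e) ∧ Hy q e (p ^ (N + 3)) ρ (A p e ρ) ∧
      W p e (p ^ (N + 3)) ρ = -1 := by
  have hT : 3 ≤ p ^ (N + 3) := by
    have h1 := hp.out.two_le
    calc 3 ≤ 2 ^ 3 := by norm_num
      _ ≤ 2 ^ (N + 3) := Nat.pow_le_pow_right (by norm_num) (by omega)
      _ ≤ p ^ (N + 3) := Nat.pow_le_pow_left h1 _
  set T := p ^ (N + 3) with hTdef
  obtain ⟨ρc, hc, hA⟩ := exists_center hI hP hQ hT
  have hq := hQ.q0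
  have hqT : 0 < q ^ T := pow_pos hq _
  have hqD : 0 < q ^ ((e + 1) * e) := pow_pos hq _
  have hr0 : 0 < ‖rs p e‖ := norm_pos_iff.2 (rs_ne hQ)
  have hbc : Ball p q e T ρc ρc := ⟨by
    rw [sub_self, norm_zero]
    exact (mul_pos (mul_pos hr0 hqT) eps_pos).le⟩
  have Hc := hbc.hy hP hQ hc hA
  have hε0 : 0 ≤ q * ((p : ℝ)⁻¹) ^ 2 := (mul_pos hq eps_pos).le
  have hε1 := qeps_lt hQ
  have hW : R (q * ((p : ℝ)⁻¹) ^ 2) (W p e T ρc) (-1) := by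
    have h1 := (Z_main hP hQ Hc).mono (q_le_one hQ)
    refine h1.trans ?_ hε1.le
    have h2 := (center_close hP hQ hT hc hA).pow hε0 hε1.le T
    have h3 : R (q * ((p : ℝ)⁻¹) ^ 2) (A p e ρc) (-1) := by rw [hA]; exact R_Ac hQ hT
    have h4 := (h3.pow hε0 hε1.le e).inv hε1
    have h5 := (h2.mul h4 hε1.le).mul
      (R.refl hε0 ((((e + 1 : ℕ) : ℚ_[p]) ^ T) ^ ((e + 1) * e))) hε1.le
    rw [sign_eq hpe N] at h5
    have h6 : M e T ρc (A p e ρc) = ρc ^ T * (A p e ρc ^ e)⁻¹ *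
        (((e + 1 : ℕ) : ℚ_[p]) ^ T) ^ ((e + 1) * e) := by
      unfold M
      rw [hA]
      congr 2
      ring
    rw [h6]
    exact h5.trans (pow_close hP hQ hpe N).neg hε1.le
  have hcl := hW.close (by rw [norm_neg, norm_one])
  obtain ⟨ρ, hρ, hρW⟩ := hI p (W p e T) ρc (‖rs p e‖ * q ^ T * ((p : ℝ)⁻¹) ^ 2)
    (q * q ^ ((e + 1) * e) / q ^ T) (mul_pos (mul_pos hr0 hqT) eps_pos)
    (div_pos (mul_pos hq hqD) hqT)
    (fun x y hx hy => W_iso hP hQ hT hc hA ⟨hx⟩ ⟨hy⟩) (-1) (by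
      rw [← norm_neg, neg_sub]
      refine hcl.trans (le_of_eq ?_)
      have h1 : q * q ^ ((e + 1) * e) / q ^ T * (‖rs p e‖ * q ^ T * ((p : ℝ)⁻¹) ^ 2) =
          q * ((p : ℝ)⁻¹) ^ 2 * (‖rs p e‖ * q ^ ((e + 1) * e)) := by
        field_simp
      rw [h1, rs_norm hQ, mul_one])
  have hb : Ball p q e T ρc ρ := ⟨hρ⟩
  exact ⟨ρ, hy_first hQ (norm_eq_of_close (hb.first hQ hc) eps_lt (rs_ne hQ)),
    hb.hy hP hQ hc hA, hρW⟩

end main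

end Pool.Agent.Y955.PF.Beta

namespace Pool.Agent.Y955.PF

open Beta

/-- Case `p ∣ d`, from the isometry lemma and the lemma on powers. -/
theorem beta_of (hI : S_ISO) (hP : S_POW) : S_BETA := by
  intro p hp d hd hpd N
  obtain ⟨e, rfl⟩ : ∃ e, d = e + 1 := ⟨d - 1, by omega⟩
  have hQ : Hq p ‖((e + 1 : ℕ) : ℚ_[p])‖ e :=
    ⟨norm_pos_iff.2 d_ne, by omega, norm_le_of_dvd hpd, rfl⟩
  obtain ⟨ρ, H1, H2, hW⟩ := exists_rho hI hP hQ hpd N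
  set q : ℝ := ‖((e + 1 : ℕ) : ℚ_[p])‖ with hq
  set T := p ^ (N + 3) with hT
  have hNT : N ≤ T := by
    have h1 : N + 3 < p ^ (N + 3) := Nat.lt_pow_self hp.out.one_lt
    omega
  have he1 : 1 ≤ e := by omega
  set x : ℕ → ℚ_[p] := fun k => (g e ρ)^[k] (a0 p e) with hx
  have hx1 : ∀ k, x (k + 1) = v e ρ (a0 p e) k := fun k => rfl
  have hxA : x (e + 2) = A p e ρ := by
    rw [show e + 2 = (1 + e) + 1 by ring, hx1]; rfl
  have hx2 : ∀ k, x (k + (e + 3)) = v e ρ (A p e ρ) k := by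
    intro k
    have : x (k + (e + 3)) = (g e ρ)^[k + 1] (x (e + 2)) := by
      rw [hx]
      simp only
      rw [show k + (e + 3) = (k + 1) + (e + 2) by ring, Function.iterate_add_apply]
    rw [this, hxA]; rfl
  have hρ0 : ρ ≠ 0 := by
    intro h; have := H1.hρ; rw [h, norm_zero, zero_mul] at this; exact zero_ne_one this
  have hne_of : ∀ y : ℚ_[p], ‖y‖ ≠ 1 → y ≠ -1 := by
    intro y hy h; apply hy; rw [h, norm_neg, norm_one]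
  refine ⟨T + 2 * e + 3, by omega, ρ, x, hρ0, ?_, ?_, ?_⟩
  · have h1 : x 0 = (e : ℚ_[p])⁻¹ := rfl
    rw [h1]
    push_cast
    rw [add_sub_cancel_right]
    exact mul_inv_cancel₀ (e_ne hQ)
  · intro k hk
    refine ⟨?_, ?_⟩
    · have h1 : x (k + 1) = g e ρ (x k) := by
        rw [hx]; simp only; rw [Function.iterate_succ_apply']
      rw [h1, g]
    · rcases Nat.eq_zero_or_pos k with h0 | h0
      · rw [h0]
        intro h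
        have h1 : x 0 + 1 = 0 := by rw [h]; ring
        have h2 : ‖a0 p e + 1‖ = q ^ 1 := H1.hs
        have h3 : x 0 = a0 p e := rfl
        rw [← h3, h1, norm_zero, pow_one] at h2
        exact hQ.q0.ne h2
      · obtain ⟨j, rfl⟩ : ∃ j, k = j + 1 := ⟨k - 1, by omega⟩
        rcases Nat.eq_zero_or_pos j with hj | hj
        · rw [hj, hx1]
          exact hne_of _ (v0_large hQ.q0 hQ.q1 he1 H1).ne'
        · rcases lt_or_ge j (1 + e) with hj2 | hj2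
          · rw [hx1]
            exact hne_of _ (lt_of_le_of_lt (v_small hQ.q0 hQ.q1 he1 H1 j hj hj2) hQ.qD1).ne
          · rcases Nat.eq_or_lt_of_le hj2 with hj3 | hj3
            · rw [← hj3, show 1 + e + 1 = e + 2 by ring, hxA]
              intro h
              have h2 := H2.hs
              rw [h, neg_add_cancel, norm_zero] at h2
              exact (pow_pos hQ.q0 T).ne h2
            · obtain ⟨i, rfl⟩ : ∃ i, j = i + (e + 2) := ⟨j - (e + 2), by omega⟩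
              rw [show i + (e + 2) + 1 = i + (e + 3) by ring, hx2]
              rcases Nat.eq_zero_or_pos i with hi | hi
              · rw [hi]
                exact hne_of _ (v0_large hQ.q0 hQ.q1 he1 H2).ne'
              · exact hne_of _ (lt_of_le_of_lt
                  (v_small hQ.q0 hQ.q1 he1 H2 i hi (by omega)) hQ.qD1).ne
  · rw [show T + 2 * e + 3 = (T + e) + (e + 3) by ring, hx2]
    exact hW

/-- Case `p ∣ d`. -/
theorem beta : S_BETA := beta_of iso pow_norm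

end Pool.Agent.Y955.PF
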