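import Pool.Agent.Y955.PF.Stm

set_option autoImplicit false

namespace Pool.Agent.Y955.PF

open Filter Topology

/-- an isometry of a compact set into itself is onto -/
theorem surj_of_isom {X : Type} [MetricSpace X] {K : Set X} (hK : IsCompact K) (g : X → X)
    (hg : Set.MapsTo g K K) (hi : ∀ x ∈ K, ∀ y ∈ K, dist (g x) (g y) = dist x y) :
    ∀ y ∈ K, ∃ x ∈ K, g x = y := by
  intro y hy
  have hcont : ContinuousOn g K := by
    intro x hx
    rw [ContinuousWithinAt, tendsto_iff_dist_tendsto_zero]
    have h1 : Tendsto (fun z => dist z x) (𝓝[K] x) (𝓝 0) := by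
      rw [← tendsto_iff_dist_tendsto_zero]
      exact tendsto_nhdsWithin_of_tendsto_nhds tendsto_id
    refine Tendsto.congr' ?_ h1
    filter_upwards [self_mem_nhdsWithin] with z hz
    exact (hi z hz x hx).symm
  have hclosed : IsClosed (g '' K) := (hK.image_of_continuousOn hcont).isClosed
  have hmem : ∀ n, g^[n] y ∈ K := by
    intro n
    induction n with
    | zero => exact hy
    | succ n ih =>
      rw [Function.iterate_succ_apply']
      exact hg ih
  have hshift : ∀ m k, dist (g^[m] y) (g^[m + k] y) = dist y (g^[k] y) := by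
    intro m k
    induction m with
    | zero => simp
    | succ m ih =>
      rw [show m + 1 + k = (m + k) + 1 by ring, Function.iterate_succ_apply',
        Function.iterate_succ_apply', hi _ (hmem m) _ (hmem (m + k)), ih]
  have hcl : y ∈ closure (g '' K) := by
    rw [Metric.mem_closure_iff]
    intro ε hε
    obtain ⟨a, _, φ, hφ, hlim⟩ := hK.tendsto_subseq hmem
    have hc : CauchySeq ((fun n => g^[n] y) ∘ φ) := hlim.cauchySeq
    rw [Metric.cauchySeq_iff] at hc
    obtain ⟨N, hN⟩ := hc ε hε
    have h1 := hN N le_rfl (N + 1) (Nat.le_succ N)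
    have h2 : φ N < φ (N + 1) := hφ (Nat.lt_succ_self N)
    obtain ⟨k, hk⟩ := Nat.exists_eq_add_of_lt h2
    simp only [Function.comp] at h1
    rw [hk, show φ N + k + 1 = φ N + (k + 1) by ring, hshift] at h1
    refine ⟨g^[k + 1] y, ?_, h1⟩
    rw [Function.iterate_succ_apply']
    exact ⟨_, hmem k, rfl⟩
  rw [hclosed.closure_eq] at hcl
  exact hcl

theorem iso : S_ISO := by
  intro p _ f a r C hr hC hf b hb
  obtain ⟨z, hz0, hzr⟩ := NormedField.exists_norm_lt ℚ_[p] hr
  have hzne : z ≠ 0 := norm_pos_iff.1 hz0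
  set c : ℚ_[p] := (f (a + z) - f a) / z with hc
  have haz : ‖(a + z) - a‖ ≤ r := by
    rw [add_sub_cancel_left]
    exact hzr.le
  have haa : ‖a - a‖ ≤ r := by
    rw [sub_self, norm_zero]
    exact hr.le
  have hcn : ‖c‖ = C := by
    rw [hc, norm_div, hf _ _ haz haa, add_sub_cancel_left]
    field_simp
  have hcne : c ≠ 0 := by
    intro h
    rw [h, norm_zero] at hcn
    linarith
  set K : Set ℚ_[p] := Metric.closedBall a r with hK
  have hmemK : ∀ x, x ∈ K ↔ ‖x - a‖ ≤ r := by
    intro x
    rw [hK, Metric.mem_closedBall, dist_eq_norm]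
  have hcomp : IsCompact K := isCompact_closedBall a r
  set g : ℚ_[p] → ℚ_[p] := fun x => a + (f x - f a) / c with hg
  have hgm : Set.MapsTo g K K := by
    intro x hx
    rw [hmemK] at hx ⊢
    rw [hg]
    simp only
    rw [add_sub_cancel_left, norm_div, hf x a hx haa, hcn]
    have : C * ‖x - a‖ / C = ‖x - a‖ := by field_simp
    rw [this]
    exact hx
  have hgi : ∀ x ∈ K, ∀ y ∈ K, dist (g x) (g y) = dist x y := by
    intro x hx y hy
    rw [hmemK] at hx hy
    rw [dist_eq_norm, dist_eq_norm]
    have e : g x - g y = (f x - f y) / c := by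
      rw [hg]
      ring
    rw [e, norm_div, hf x y hx hy, hcn]
    field_simp
  have hy : a + (b - f a) / c ∈ K := by
    rw [hmemK, add_sub_cancel_left, norm_div, hcn, div_le_iff₀ hC]
    linarith
  obtain ⟨x, hx, hxe⟩ := surj_of_isom hcomp g hgm hgi _ hy
  refine ⟨x, (hmemK x).1 hx, ?_⟩
  rw [hg] at hxe
  simp only at hxe
  have h1 := add_left_cancel hxe
  rw [div_left_inj' hcne] at h1
  linear_combination h1

end Pool.Agent.Y955.PF
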