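import Pool.Agent.Y955.PF.Stm

/-! Job PF-MOD: the reduction to long critical orbits. -/

set_option autoImplicit false

namespace Pool.Agent.Y955.PF

open Polynomial OnePoint

noncomputable section

open scoped Classical

/-- the points with fewer than `d` preimages -/
def Bset {K : Type} (d : ℕ) (f : OnePoint K → OnePoint K) : Set (OnePoint K) :=
  {w | (f ⁻¹' {w}).encard < d}

/-- the forward orbits of these points -/
def PCset {K : Type} (d : ℕ) (f : OnePoint K → OnePoint K) : Set (OnePoint K) :=
  ⋃ w ∈ Bset d f, Set.range (fun n : ℕ => f^[n] w)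

section conj

variable {K : Type} [Field K] {d : ℕ} {f g : OnePoint K → OnePoint K} {M : GL (Fin 2) K}

theorem smul_inj (M : GL (Fin 2) K) : Function.Injective (fun z : OnePoint K => M • z) :=
  MulAction.injective M

theorem fib_conj (h : ∀ z : OnePoint K, f (M • z) = M • g z) (w : OnePoint K) :
    f ⁻¹' {M • w} = (fun z : OnePoint K => M • z) '' (g ⁻¹' {w}) := by
  ext z
  simp only [Set.mem_preimage, Set.mem_singleton_iff, Set.mem_image]
  constructor
  · intro hz
    refine ⟨M⁻¹ • z, ?_, smul_inv_smul M z⟩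
    have h1 := h (M⁻¹ • z)
    rw [smul_inv_smul, hz] at h1
    exact (smul_inj M h1).symm
  · rintro ⟨z', hz', rfl⟩
    rw [h, hz']

theorem B_conj (h : ∀ z : OnePoint K, f (M • z) = M • g z) (w : OnePoint K) :
    M • w ∈ Bset d f ↔ w ∈ Bset d g := by
  unfold Bset
  rw [Set.mem_ofPred_eq, Set.mem_ofPred_eq, fib_conj h, (smul_inj M).encard_image]

theorem iter_conj (h : ∀ z : OnePoint K, f (M • z) = M • g z) (n : ℕ) (w : OnePoint K) :
    f^[n] (M • w) = M • g^[n] w := by
  induction n generalizing w with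
  | zero => rfl
  | succ n ih => rw [Function.iterate_succ_apply, Function.iterate_succ_apply, h, ih]

theorem PC_conj (h : ∀ z : OnePoint K, f (M • z) = M • g z) :
    PCset d f = (fun z : OnePoint K => M • z) '' PCset d g := by
  ext z
  simp only [PCset, Set.mem_iUnion, Set.mem_range, Set.mem_image, exists_prop]
  constructor
  · rintro ⟨w, hw, n, rfl⟩
    refine ⟨g^[n] (M⁻¹ • w), ⟨M⁻¹ • w, ?_, n, rfl⟩, ?_⟩
    · rw [← B_conj h, smul_inv_smul]; exact hw
    · rw [← iter_conj h, smul_inv_smul]
  · rintro ⟨_, ⟨w, hw, n, rfl⟩, rfl⟩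
    exact ⟨M • w, (B_conj h w).2 hw, n, iter_conj h n w⟩

theorem encard_PC_conj (h : ∀ z : OnePoint K, f (M • z) = M • g z) :
    (PCset d f).encard = (PCset d g).encard := by
  rw [PC_conj h, (smul_inj M).encard_image]

end conj

section pair

variable {K : Type} [Field K]

/-- the zeros of the form of degree `d` given by `A` -/
def Zer (d : ℕ) (A : K[X]) : Set (OnePoint K) :=
  {z | z.elim (A.coeff d = 0) (fun x => A.eval x = 0)}

/-- the Wronskian -/
def Wr (A U : K[X]) : K[X] := derivative A * U - A * derivative U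

theorem ne_zero_of_LT {d : ℕ} (hd : 1 ≤ d) {A U : K[X]} (h : LowestTerms d A U) : A ≠ 0 := by
  rintro rfl
  have h1 := h.1
  rw [isCoprime_zero_left] at h1
  have h2 := natDegree_eq_zero_of_isUnit h1
  have h3 := h.2
  rw [h2, natDegree_zero] at h3
  simp at h3
  omega

theorem coeff_ne_zero_of_LT {d : ℕ} (hd : 1 ≤ d) {A U : K[X]} (h : LowestTerms d A U)
    (hA : A.coeff d = 0) : U.coeff d ≠ 0 := by
  intro hU
  have hA0 := ne_zero_of_LT hd h
  have h2 := h.2
  have hAd : A.natDegree ≠ d := by
    rintro rfl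
    exact hA0 (leadingCoeff_eq_zero.1 hA)
  have hUd : U.natDegree = d := by
    rcases max_choice A.natDegree U.natDegree with h3 | h3
    · rw [h3] at h2; exact absurd h2 hAd
    · rw [h3] at h2; exact h2
  have : U = 0 := by
    rw [← leadingCoeff_eq_zero, leadingCoeff, hUd]; exact hU
  rw [this, natDegree_zero] at hUd
  omega

theorem zer_eq (d : ℕ) {A : K[X]} (hA : A ≠ 0) :
    Zer d A = (fun x : K => (x : OnePoint K)) '' (A.roots.toFinset : Set K) ∪
      (if A.coeff d = 0 then {∞} else ∅) := by
  ext z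
  cases z with
  | infty =>
    simp only [Zer, Set.mem_ofPred_eq, OnePoint.elim_infty, Set.mem_union, Set.mem_image]
    constructor
    · intro h; right; rw [if_pos h]; rfl
    · rintro (⟨x, _, hx⟩ | h)
      · exact absurd hx (OnePoint.coe_ne_infty x)
      · by_contra hne
        rw [if_neg hne] at h
        exact h
  | coe x =>
    simp only [Zer, Set.mem_ofPred_eq, OnePoint.elim_some, Set.mem_union, Set.mem_image,
      Finset.mem_coe, Multiset.mem_toFinset, mem_roots hA, IsRoot.def]
    constructor
    · intro h; left; exact ⟨x, h, rfl⟩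
    · rintro (⟨y, hy, hxy⟩ | h)
      · rw [OnePoint.coe_eq_coe] at hxy; rwa [← hxy]
      · split_ifs at h
        · exact absurd h (OnePoint.coe_ne_infty x)
        · exact absurd h (by simp)

theorem encard_zer (d : ℕ) {A : K[X]} (hA : A ≠ 0) :
    (Zer d A).encard = ((A.roots.toFinset.card + (if A.coeff d = 0 then 1 else 0) : ℕ) : ℕ∞) := by
  rw [zer_eq d hA, Set.encard_union_eq, OnePoint.coe_injective.encard_image,
    Set.encard_coe_eq_coe_finsetCard]
  · split_ifs <;> simp
  · rw [Set.disjoint_left]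
    rintro _ ⟨x, _, rfl⟩ h
    split_ifs at h
    · exact absurd h (OnePoint.coe_ne_infty x)
    · exact absurd h (by simp)

variable [CharZero K]

theorem derivative_eq_zero_of_dvd {A : K[X]} (h : A ∣ derivative A) : A.natDegree = 0 := by
  by_contra hne
  have h1 : derivative A ≠ 0 := fun h0 => hne (derivative_eq_zero.1 h0)
  have h2 := natDegree_le_of_dvd h h1
  have h3 := natDegree_derivative_lt hne
  omega

theorem Wr_ne_zero {d : ℕ} (hd : 1 ≤ d) {A U : K[X]} (h : LowestTerms d A U) : Wr A U ≠ 0 := by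
  intro h0
  unfold Wr at h0
  rw [sub_eq_zero] at h0
  have h1 : A ∣ derivative A := by
    have : A ∣ derivative A * U := ⟨derivative U, h0⟩
    exact h.1.dvd_of_dvd_mul_right this
  have h2 : U ∣ derivative U := by
    have : U ∣ A * derivative U := ⟨derivative A, by rw [← h0, mul_comm]⟩
    exact h.1.symm.dvd_of_dvd_mul_left this
  have h3 := derivative_eq_zero_of_dvd h1
  have h4 := derivative_eq_zero_of_dvd h2
  have h5 := h.2
  rw [h3, h4] at h5
  simp at h5
  omega

variable [IsAlgClosed K]

theorem eval_U_ne {A U : K[X]} (h : IsCoprime A U) {x : K} (hx : A.eval x = 0) : U.eval x ≠ 0 := by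
  obtain ⟨a, b, hab⟩ := h
  intro hU
  have := congrArg (eval x) hab
  simp [hx, hU] at this

/-- a fibre with fewer than `d` points contains a critical point -/
theorem exists_crit {d : ℕ} (hd : 2 ≤ d) {A U : K[X]} (h : LowestTerms d A U)
    (hlt : (Zer d A).encard < d) : ∃ z ∈ Zer d A, z ∈ Zer (2 * d - 2) (Wr A U) := by
  by_contra hcon
  push Not at hcon
  have hA := ne_zero_of_LT (by omega) h
  have hAd : A.natDegree ≤ d := by rw [← h.2]; exact le_max_left _ _
  have hUd : U.natDegree ≤ d := by rw [← h.2]; exact le_max_right _ _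
  have hnd : A.roots.Nodup := by
    rw [Multiset.nodup_iff_count_le_one]
    intro x
    rw [count_roots]
    by_contra h1
    push Not at h1
    rw [one_lt_rootMultiplicity_iff_isRoot hA] at h1
    obtain ⟨h2, h3⟩ := h1
    apply hcon (x : OnePoint K) h2
    show (Wr A U).eval x = 0
    unfold Wr
    rw [eval_sub, eval_mul, eval_mul, h3.eq_zero, h2.eq_zero]
    ring
  have hcard : A.roots.toFinset.card = A.natDegree := by
    rw [Multiset.toFinset_card_of_nodup hnd]
    exact (IsAlgClosed.splits A).natDegree_eq_card_roots.symm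
  rw [encard_zer d hA, hcard] at hlt
  have hlt' : A.natDegree + (if A.coeff d = 0 then 1 else 0) < d := by exact_mod_cast hlt
  have hc : A.coeff d = 0 := by
    by_contra hne
    have := le_natDegree_of_ne_zero hne
    split_ifs at hlt' <;> omega
  rw [if_pos hc] at hlt'
  have hU' : U.natDegree = d := by
    have := h.2
    rcases max_choice A.natDegree U.natDegree with h3 | h3 <;> (rw [h3] at this; omega)
  apply hcon ∞ hc
  show (Wr A U).coeff (2 * d - 2) = 0
  unfold Wr
  rw [coeff_sub]
  have e1 : (derivative A * U).coeff (2 * d - 2) = 0 := by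
    by_cases hA0 : A.natDegree = 0
    · rw [eq_C_of_natDegree_eq_zero hA0]; simp
    · apply coeff_eq_zero_of_natDegree_lt
      have h1 := natDegree_mul_le (p := derivative A) (q := U)
      have h2 := natDegree_derivative_lt hA0
      omega
  have e2 : (A * derivative U).coeff (2 * d - 2) = 0 := by
    apply coeff_eq_zero_of_natDegree_lt
    have h1 := natDegree_mul_le (p := A) (q := derivative U)
    have h2 := natDegree_derivative_lt (p := U) (by omega)
    omega
  rw [e1, e2, sub_zero]

/-- a fibre with a finite critical point has fewer than `d` points -/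
theorem encard_lt_of_crit {d : ℕ} (hd : 2 ≤ d) {A U : K[X]} (h : LowestTerms d A U) {x : K}
    (hx : A.eval x = 0) (hW : (Wr A U).eval x = 0) : (Zer d A).encard < d := by
  have hA := ne_zero_of_LT (by omega) h
  have hAd : A.natDegree ≤ d := by rw [← h.2]; exact le_max_left _ _
  have hU := eval_U_ne h.1 hx
  unfold Wr at hW
  rw [eval_sub, eval_mul, eval_mul, hx, zero_mul, sub_zero, mul_eq_zero, or_iff_left hU] at hW
  have hnd : ¬ A.roots.Nodup := by
    rw [Multiset.nodup_iff_count_le_one]
    push Not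
    refine ⟨x, ?_⟩
    rw [count_roots, one_lt_rootMultiplicity_iff_isRoot hA]
    exact ⟨hx, hW⟩
  have hcard : A.roots.toFinset.card < A.natDegree := by
    have h1 : A.roots.toFinset.card ≤ A.roots.card := Multiset.toFinset_card_le _
    have h2 : A.roots.toFinset.card ≠ A.roots.card := fun he =>
      hnd (Multiset.toFinset_card_eq_card_iff_nodup.1 he)
    have h3 := A.card_roots'
    omega
  rw [encard_zer d hA]
  have : A.roots.toFinset.card + (if A.coeff d = 0 then 1 else 0) < d := by
    by_cases hc : A.coeff d = 0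
    · rw [if_pos hc]
      have : A.natDegree ≠ d := by
        rintro rfl
        exact hA (leadingCoeff_eq_zero.1 hc)
      omega
    · rw [if_neg hc]; omega
  exact_mod_cast this

/-- the numerator of `P / Q - w` -/
def Aof (P Q : K[X]) (w : OnePoint K) : K[X] := w.elim Q (fun a => P - C a * Q)

/-- the partner of the numerator -/
def Uof (P Q : K[X]) (w : OnePoint K) : K[X] := w.elim (-P) (fun _ => Q)

omit [CharZero K] [IsAlgClosed K] in
theorem LT_of {d : ℕ} {P Q : K[X]} (h : LowestTerms d P Q) (w : OnePoint K) :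
    LowestTerms d (Aof P Q w) (Uof P Q w) := by
  cases w with
  | infty =>
    refine ⟨?_, ?_⟩
    · show IsCoprime Q (-P)
      exact h.1.symm.neg_right
    · show max Q.natDegree (-P).natDegree = d
      rw [natDegree_neg, max_comm]; exact h.2
  | coe a =>
    refine ⟨?_, ?_⟩
    · show IsCoprime (P - C a * Q) Q
      have := h.1.add_mul_right_left (-C a)
      rwa [neg_mul, ← sub_eq_add_neg] at this
    · show max (P - C a * Q).natDegree Q.natDegree = d
      have h2 := h.2
      have hC : (C a * Q).natDegree ≤ Q.natDegree := natDegree_C_mul_le a Q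
      rcases lt_or_ge Q.natDegree P.natDegree with h3 | h3
      · rw [natDegree_sub_eq_left_of_natDegree_lt (lt_of_le_of_lt hC h3)]
        exact h2
      · have h4 : (P - C a * Q).natDegree ≤ Q.natDegree :=
          (natDegree_sub_le _ _).trans (max_le h3 hC)
        rw [max_eq_right h4]
        rw [max_eq_right h3] at h2
        exact h2

omit [CharZero K] [IsAlgClosed K] in
theorem Wr_of (P Q : K[X]) (w : OnePoint K) : Wr (Aof P Q w) (Uof P Q w) = Wr P Q := by
  cases w with
  | infty =>
    show Wr Q (-P) = Wr P Q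
    unfold Wr
    rw [derivative_neg]; ring
  | coe a =>
    show Wr (P - C a * Q) Q = Wr P Q
    unfold Wr
    rw [derivative_sub, derivative_C_mul]; ring

omit [CharZero K] [IsAlgClosed K] in
theorem fib_eq {d : ℕ} (hd : 1 ≤ d) {P Q : K[X]} (h : LowestTerms d P Q) (w : OnePoint K) :
    (ratMap d P Q) ⁻¹' {w} = Zer d (Aof P Q w) := by
  have hne : ∀ x : K, Q.eval x = 0 → P.eval x ≠ 0 := by
    intro x hx hP
    obtain ⟨a, b, hab⟩ := h.1
    have := congrArg (eval x) hab
    simp [hx, hP] at this
  have hce : Q.coeff d = 0 → P.coeff d ≠ 0 := fun hQ hP => coeff_ne_zero_of_LT hd h hP hQ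
  ext z
  cases w with
  | infty =>
    cases z with
    | infty =>
      simp only [ratMap, Set.mem_preimage, Set.mem_singleton_iff, OnePoint.elim_infty, Zer, Aof,
        Set.mem_ofPred_eq]
      constructor
      · intro h1
        by_contra hne
        rw [if_neg hne] at h1
        exact OnePoint.coe_ne_infty _ h1
      · intro h1; rw [if_pos h1]
    | coe x =>
      simp only [ratMap, Set.mem_preimage, Set.mem_singleton_iff, OnePoint.elim_some, Zer, Aof,
        Set.mem_ofPred_eq, OnePoint.elim_infty]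
      constructor
      · intro h1
        by_contra hne
        rw [if_neg hne] at h1
        exact OnePoint.coe_ne_infty _ h1
      · intro h1; rw [if_pos h1]
  | coe a =>
    cases z with
    | infty =>
      simp only [ratMap, Set.mem_preimage, Set.mem_singleton_iff, OnePoint.elim_infty, Zer, Aof,
        OnePoint.elim_some, Set.mem_ofPred_eq, coeff_sub, coeff_C_mul]
      by_cases hQ : Q.coeff d = 0
      · rw [if_pos hQ, hQ]
        constructor
        · intro h1; exact absurd h1 (OnePoint.infty_ne_coe a)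
        · intro h1
          exfalso
          apply hce hQ
          simpa using h1
      · rw [if_neg hQ, OnePoint.coe_eq_coe, div_eq_iff hQ, sub_eq_zero]
    | coe x =>
      simp only [ratMap, Set.mem_preimage, Set.mem_singleton_iff, OnePoint.elim_some, Zer, Aof,
        Set.mem_ofPred_eq, eval_sub, eval_mul, eval_C]
      by_cases hQ : Q.eval x = 0
      · rw [if_pos hQ, hQ]
        constructor
        · intro h1; exact absurd h1 (OnePoint.infty_ne_coe a)
        · intro h1
          exfalso
          apply hne x hQ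
          simpa using h1
      · rw [if_neg hQ, OnePoint.coe_eq_coe, div_eq_iff hQ, sub_eq_zero]

omit [CharZero K] [IsAlgClosed K] in
theorem isCritical_iff (d : ℕ) (P Q : K[X]) (z : OnePoint K) :
    IsCritical d P Q z ↔ z ∈ Zer (2 * d - 2) (Wr P Q) := Iff.rfl

omit [IsAlgClosed K] in
theorem crit_finite {d : ℕ} (hd : 1 ≤ d) {P Q : K[X]} (h : LowestTerms d P Q) :
    {z | IsCritical d P Q z}.Finite := by
  have h1 : {z | IsCritical d P Q z} = Zer (2 * d - 2) (Wr P Q) := rfl
  rw [h1, zer_eq _ (Wr_ne_zero hd h)]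
  refine Set.Finite.union ((Finset.finite_toSet _).image _) ?_
  split_ifs <;> simp

theorem exists_crit_of_B {d : ℕ} (hd : 2 ≤ d) {P Q : K[X]} (h : LowestTerms d P Q)
    {w : OnePoint K} (hw : w ∈ Bset d (ratMap d P Q)) :
    ∃ z, IsCritical d P Q z ∧ ratMap d P Q z = w := by
  unfold Bset at hw
  rw [Set.mem_ofPred_eq, fib_eq (by omega) h] at hw
  obtain ⟨z, hz1, hz2⟩ := exists_crit hd (LT_of h w) hw
  rw [Wr_of] at hz2
  refine ⟨z, hz2, ?_⟩
  have h3 : z ∈ (ratMap d P Q) ⁻¹' {w} := by rw [fib_eq (by omega) h]; exact hz1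
  exact h3

omit [IsAlgClosed K] in
theorem crit_mem_B {d : ℕ} (hd : 2 ≤ d) {P Q : K[X]} (h : LowestTerms d P Q) {x : K}
    (hx : (Wr P Q).eval x = 0) [IsAlgClosed K] : ratMap d P Q x ∈ Bset d (ratMap d P Q) := by
  unfold Bset
  rw [Set.mem_ofPred_eq, fib_eq (by omega) h]
  have h1 : (x : OnePoint K) ∈ Zer d (Aof P Q (ratMap d P Q x)) := by
    rw [← fib_eq (by omega) h]; rfl
  exact encard_lt_of_crit hd (LT_of h _) (x := x) h1 (by rw [Wr_of]; exact hx)

theorem PC_finite {d : ℕ} (hd : 2 ≤ d) {P Q : K[X]} (h : LowestTerms d P Q)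
    (hP : IsPCF d P Q) : (PCset d (ratMap d P Q)).Finite := by
  have h1 : (⋃ z ∈ {z | IsCritical d P Q z}, Set.range fun n : ℕ => (ratMap d P Q)^[n] z).Finite :=
    (crit_finite (by omega) h).biUnion (fun z hz => hP z hz)
  refine h1.subset ?_
  intro y hy
  simp only [PCset, Set.mem_iUnion, Set.mem_range, exists_prop] at hy
  obtain ⟨w, hw, n, rfl⟩ := hy
  obtain ⟨z, hz, rfl⟩ := exists_crit_of_B hd h hw
  simp only [Set.mem_iUnion, Set.mem_range, exists_prop]
  exact ⟨z, hz, n + 1, Function.iterate_succ_apply _ _ _⟩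

/-- the invariant of a conjugacy class -/
def inv (d : ℕ) : Moduli K d → ℕ∞ :=
  Quotient.lift (fun f : Rat K d => (PCset d f.1).encard) (by
    rintro f g ⟨M, h⟩
    exact encard_PC_conj h)

theorem inv_PCF {d : ℕ} (hd : 2 ≤ d) {x : Moduli K d} (hx : x ∈ PCF K d) : inv d x ≠ ⊤ := by
  obtain ⟨f, rfl, P, Q, h, hf, hP⟩ := hx
  show (PCset d f.1).encard ≠ ⊤
  rw [hf, Set.encard_ne_top_iff]
  exact PC_finite hd h hP

end pair

section final

variable (p : ℕ) [Fact p.Prime]

/-- the class of a good map -/
theorem good_class {d N : ℕ} (hd : 2 ≤ d) (hN : Good p d N) :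
    ∃ x ∈ RationalPoints p d ∩ PCF (AlgebraicClosure ℚ_[p]) d, (N : ℕ∞) ≤ inv d x := by
  obtain ⟨P, Q, hLT, hPCF, x, hx, y, hy0, hys, hyi⟩ := hN
  set φ : ℚ_[p] →+* AlgebraicClosure ℚ_[p] := algebraMap ℚ_[p] (AlgebraicClosure ℚ_[p]) with hφ
  have hLT' := lowestTerms_map φ hLT
  set f : Rat (AlgebraicClosure ℚ_[p]) d := ⟨ratMap d (P.map φ) (Q.map φ), P.map φ, Q.map φ,
    hLT', rfl⟩ with hf
  refine ⟨Quotient.mk _ f, ⟨?_, ?_⟩, ?_⟩
  · intro σ
    show (Quotient.mk _ (galRat σ.toRingEquiv f) : Moduli _ d) = Quotient.mk _ f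
    congr 1
    apply Subtype.ext
    funext z
    show OnePoint.map σ.toRingEquiv (ratMap d (P.map φ) (Q.map φ)
      (OnePoint.map σ.toRingEquiv.symm z)) = ratMap d (P.map φ) (Q.map φ) z
    have h1 := ratMap_map (σ.toRingEquiv : AlgebraicClosure ℚ_[p] →+* AlgebraicClosure ℚ_[p]) d
      (P.map φ) (Q.map φ) (OnePoint.map σ.toRingEquiv.symm z)
    rw [show OnePoint.map (σ.toRingEquiv : AlgebraicClosure ℚ_[p] →+* AlgebraicClosure ℚ_[p])
      (OnePoint.map σ.toRingEquiv.symm z) = z from map_map_symm σ.toRingEquiv z] at h1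
    have e : (σ.toRingEquiv : AlgebraicClosure ℚ_[p] →+* AlgebraicClosure ℚ_[p]).comp φ = φ := by
      ext a
      exact σ.commutes a
    rw [Polynomial.map_map, Polynomial.map_map, e] at h1
    exact h1.symm
  · exact ⟨f, rfl, P.map φ, Q.map φ, hLT', rfl, hPCF⟩
  · show (N : ℕ∞) ≤ (PCset d (ratMap d (P.map φ) (Q.map φ))).encard
    set F := ratMap d (P.map φ) (Q.map φ) with hF
    have hinj : Function.Injective (OnePoint.map φ : OnePoint ℚ_[p] → _) :=
      Option.map_injective φ.injective
    have hstep : ∀ k < N, OnePoint.map φ (y (k+1)) = F (OnePoint.map φ (y k)) := by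
      intro k hk
      rw [hys k hk, hF, ratMap_map]
    have hW : (Wr (P.map φ) (Q.map φ)).eval (φ x) = 0 := by
      unfold Wr
      rw [derivative_map, derivative_map, ← Polynomial.map_mul, ← Polynomial.map_mul,
        ← Polynomial.map_sub, eval_map, eval₂_at_apply, hx, map_zero]
    have hB : F (φ x : OnePoint (AlgebraicClosure ℚ_[p])) ∈ Bset d F := crit_mem_B hd hLT' hW
    have horb : ∀ k < N, OnePoint.map φ (y (k+1)) =
        F^[k] (F (φ x : OnePoint (AlgebraicClosure ℚ_[p]))) := by
      intro k
      induction k with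
      | zero =>
        intro hk
        rw [hstep 0 hk, hy0, OnePoint.map_some]; rfl
      | succ k ih =>
        intro hk
        rw [hstep (k+1) hk, ih (by omega), Function.iterate_succ_apply']
    have hsub : (fun k => OnePoint.map φ (y (k+1))) '' (Finset.range N : Set ℕ) ⊆ PCset d F := by
      rintro _ ⟨k, hk, rfl⟩
      have hk' : k < N := by simpa using hk
      simp only [PCset, Set.mem_iUnion, Set.mem_range, exists_prop]
      exact ⟨_, hB, k, (horb k hk').symm⟩
    have hio : Set.InjOn (fun k => OnePoint.map φ (y (k+1))) (Finset.range N : Set ℕ) := by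
      intro a ha b hb hab
      have ha' : a < N := by simpa using ha
      have hb' : b < N := by simpa using hb
      have := hyi (show a + 1 ∈ Set.Iic N from ha') (show b + 1 ∈ Set.Iic N from hb') (hinj hab)
      omega
    calc (N : ℕ∞) = (Finset.range N : Set ℕ).encard := by
          rw [Set.encard_coe_eq_coe_finsetCard, Finset.card_range]
      _ = ((fun k => OnePoint.map φ (y (k+1))) '' (Finset.range N : Set ℕ)).encard :=
          hio.encard_image.symm
      _ ≤ _ := Set.encard_le_encard hsub

theorem mod_inf : S_MOD := by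
  intro p _ d hd hG hfin
  obtain ⟨B, hB⟩ : ∃ B : ℕ, ∀ x ∈ RationalPoints p d ∩ PCF (AlgebraicClosure ℚ_[p]) d,
      inv d x ≤ (B : ℕ∞) := by
    refine ⟨∑ x ∈ hfin.toFinset, (inv d x).toNat, fun x hx => ?_⟩
    have h1 : inv d x ≠ ⊤ := inv_PCF hd hx.2
    rw [← ENat.natCast_toNat h1, Nat.cast_le]
    exact Finset.single_le_sum (f := fun x => (inv d x).toNat) (fun _ _ => Nat.zero_le _)
      (hfin.mem_toFinset.2 hx)
  obtain ⟨x, hx, hN⟩ := good_class p hd (hG (B+1))
  have h2 := hN.trans (hB x hx)
  have h3 : B + 1 ≤ B := by exact_mod_cast h2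
  omega

end final

end

end Pool.Agent.Y955.PF
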