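import Pool.Agent.Y955.PF.PCom

set_option autoImplicit false

namespace Pool.Agent.Y955.PF

open Polynomial OnePoint

/-- the Wronskian, `l ≥ 1` (`l = e + 1`, `m = g + 1`) -/
theorem pa_wronskian_pos {K : Type} [Field K] (g e : ℕ) (ρ c z : K) :
    (derivative (C ρ * X ^ (e + 1 + 1) * (X + 1) ^ (g + 1) : K[X]) * (X + C c) ^ (e + 1) -
      C ρ * X ^ (e + 1 + 1) * (X + 1) ^ (g + 1) * derivative ((X + C c) ^ (e + 1) : K[X])).eval z =
      ρ * z ^ (e + 1) * (z + 1) ^ g * (z + c) ^ e *
        ((g + 1 + 1) * z ^ 2 + (1 + (g + 1 + (e + 1) + 1) * c) * z + (e + 1 + 1) * c) := by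
  simp only [derivative_mul, derivative_C, derivative_X_pow, derivative_X_add_C_pow,
    derivative_pow, derivative_add, derivative_X, derivative_one,
    eval_sub, eval_mul, eval_add, eval_pow,
    eval_C, eval_X, eval_one, zero_mul, zero_add, mul_one, Nat.add_sub_cancel, add_zero,
    map_natCast, eval_natCast]
  push_cast
  ring

/-- the Wronskian, `l = 0` -/
theorem pa_wronskian_zero {K : Type} [Field K] (g : ℕ) (ρ c z : K) :
    (derivative (C ρ * X ^ (0 + 1) * (X + 1) ^ (g + 1) : K[X]) * (X + C c) ^ 0 -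
      C ρ * X ^ (0 + 1) * (X + 1) ^ (g + 1) * derivative ((X + C c) ^ 0 : K[X])).eval z =
      ρ * (z + 1) ^ g * ((g + 1 + 1) * z + 1) := by
  simp only [derivative_mul, derivative_C, derivative_X_pow, derivative_X_add_C_pow,
    derivative_pow, derivative_add, derivative_X, derivative_one, pow_zero,
    eval_sub, eval_mul, eval_add, eval_pow,
    eval_C, eval_X, eval_one, zero_mul, zero_add, mul_one, mul_zero, Nat.add_sub_cancel, add_zero,
    map_natCast, eval_natCast, sub_zero, eval_zero]
  push_cast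
  ring

theorem pa : S_PA := by
  intro p _ m l T hm ρ c τ x hx N hN
  obtain ⟨hT2, hρ, hc0, hc1, hv1, hv2, hl0, hstep, hT, hτ⟩ := hx
  obtain ⟨g, rfl⟩ : ∃ g, m = g + 1 := ⟨m - 1, by omega⟩
  set P : ℚ_[p][X] := C ρ * X ^ (l + 1) * (X + 1) ^ (g + 1) with hP
  set Q : ℚ_[p][X] := (X + C c) ^ l with hQ
  have hX1m : (X + 1 : ℚ_[p][X]).Monic := by
    have := monic_X_add_C (1 : ℚ_[p])
    rwa [C_1] at this
  have hX1d : (X + 1 : ℚ_[p][X]).natDegree = 1 := by
    have := natDegree_X_add_C (1 : ℚ_[p])
    rwa [C_1] at this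
  have hQd : Q.natDegree = l := by
    rw [hQ, natDegree_pow, natDegree_X_add_C, mul_one]
  have hPd : P.natDegree = g + 1 + l + 1 := by
    rw [hP, mul_assoc, natDegree_C_mul hρ, natDegree_mul (pow_ne_zero _ X_ne_zero)
      (hX1m.pow _).ne_zero, natDegree_X_pow, natDegree_pow, hX1d]
    ring
  set d := g + 1 + l + 1 with hd
  set f := ratMap d P Q with hf
  have hPe : ∀ y : ℚ_[p], P.eval y = ρ * y ^ (l + 1) * (y + 1) ^ (g + 1) := by
    intro y
    rw [hP]
    simp
  have hQe : ∀ y : ℚ_[p], Q.eval y = (y + c) ^ l := by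
    intro y
    rw [hQ]
    simp
  have hval : ∀ y : ℚ_[p], (l ≠ 0 → y + c ≠ 0) →
      f (y : OnePoint ℚ_[p]) =
        ((ρ * y ^ (l + 1) * (y + 1) ^ (g + 1) / (y + c) ^ l : ℚ_[p]) : OnePoint ℚ_[p]) := by
    intro y hy
    have h1 : Q.eval y ≠ 0 := by
      rw [hQe]
      by_cases hl : l = 0
      · rw [hl, pow_zero]
        exact one_ne_zero
      · exact pow_ne_zero _ (hy hl)
    rw [hf, ratMap_coe d P Q y h1, hPe, hQe]
  have hinf : f ∞ = ∞ := by
    rw [hf]
    unfold ratMap
    rw [OnePoint.elim_infty, if_pos]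
    apply coeff_eq_zero_of_natDegree_lt
    rw [hQd]
    omega
  have hzero : f ((0 : ℚ_[p]) : OnePoint ℚ_[p]) = ((0 : ℚ_[p]) : OnePoint ℚ_[p]) := by
    rw [hval 0 (fun _ => by rwa [zero_add])]
    simp
  have hm1 : f ((-1 : ℚ_[p]) : OnePoint ℚ_[p]) = ((0 : ℚ_[p]) : OnePoint ℚ_[p]) := by
    rw [hval (-1) (fun _ h => hc1 (by linear_combination h))]
    simp
  have hmc : l ≠ 0 → f ((-c : ℚ_[p]) : OnePoint ℚ_[p]) = ∞ := by
    intro hl
    rw [hf]
    apply ratMap_coe_pole
    rw [hQe, neg_add_cancel]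
    exact zero_pow hl
  have o0 := orbit_finite_fixed f _ hzero
  have oinf := orbit_finite_fixed f _ hinf
  have om1 := orbit_finite_step f _ _ hm1 o0
  have omc : l ≠ 0 → _ := fun hl => orbit_finite_step f _ _ (hmc hl) oinf
  have hchain : ∀ k < T, f ((x k : ℚ_[p]) : OnePoint ℚ_[p]) = ((x (k + 1) : ℚ_[p]) : OnePoint ℚ_[p]) := by
    intro k hk
    obtain ⟨h1, _, h3⟩ := hstep k hk
    rw [hval (x k) h3, h1]
  have oT : (Set.range fun n : ℕ => f^[n] ((x T : ℚ_[p]) : OnePoint ℚ_[p])).Finite := by
    rw [hT]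
    exact om1
  have och := orbit_finite_chain f (fun k => ((x k : ℚ_[p]) : OnePoint ℚ_[p])) T hchain oT
  have oτ : l ≠ 0 → (Set.range fun n : ℕ => f^[n] ((τ : ℚ_[p]) : OnePoint ℚ_[p])).Finite := by
    intro hl
    obtain ⟨h1, h2⟩ := hτ hl
    apply orbit_finite_step f _ ((x 2 : ℚ_[p]) : OnePoint ℚ_[p]) _ (och 2 hT2)
    rw [hval τ (fun _ => h1), h2]
  have hcop : IsCoprime P Q := by
    rw [hP, hQ]
    apply IsCoprime.pow_right
    have h1 : IsCoprime (X : ℚ_[p][X]) (X + C c) := by
      refine ⟨-C c⁻¹, C c⁻¹, ?_⟩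
      have : (C c⁻¹ * C c : ℚ_[p][X]) = 1 := by
        rw [← C_mul, inv_mul_cancel₀ hc0, C_1]
      linear_combination this
    have h3 : IsCoprime (X + 1 : ℚ_[p][X]) (X + C c) := by
      refine ⟨-C (c - 1)⁻¹, C (c - 1)⁻¹, ?_⟩
      have h4 : c - 1 ≠ 0 := sub_ne_zero.2 hc1
      have : (C (c - 1)⁻¹ * C (c - 1) : ℚ_[p][X]) = 1 := by
        rw [← C_mul, inv_mul_cancel₀ h4, C_1]
      rw [C_sub, C_1] at this
      linear_combination this
    have h2 : IsCoprime (C ρ : ℚ_[p][X]) (X + C c) :=
      isCoprime_one_left.of_isCoprime_of_dvd_left (by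
        exact (isUnit_C.2 (isUnit_iff_ne_zero.2 hρ)).dvd)
    exact (h2.mul_left h1.pow_left).mul_left h3.pow_left
  refine ⟨P, Q, ⟨hcop, ?_⟩, ?_, x 0, ?_, fun k => ((x k : ℚ_[p]) : OnePoint ℚ_[p]), rfl, ?_, ?_⟩
  · rw [hPd, hQd]
    omega
  · -- PCF
    intro z hz
    set ι := algebraMap ℚ_[p] (AlgebraicClosure ℚ_[p]) with hι
    have tr : ∀ w : ℚ_[p], (Set.range fun n : ℕ => f^[n] ((w : ℚ_[p]) : OnePoint ℚ_[p])).Finite →
        (Set.range fun n : ℕ => (ratMap d (P.map ι) (Q.map ι))^[n]
          ((ι w : AlgebraicClosure ℚ_[p]) : OnePoint (AlgebraicClosure ℚ_[p]))).Finite := by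
      intro w hw
      have := orbit_finite_map ι d P Q (w : OnePoint ℚ_[p]) hw
      rwa [OnePoint.map_some] at this
    cases z with
    | infty => exact orbit_finite_map ι d P Q ∞ oinf
    | coe z =>
      have hz' : (derivative (P.map ι) * (Q.map ι) - (P.map ι) * derivative (Q.map ι)).eval z = 0 := hz
      have e1 : P.map ι = C (ι ρ) * X ^ (l + 1) * (X + 1) ^ (g + 1) := by
        rw [hP]
        simp
      have e2 : Q.map ι = (X + C (ι c)) ^ l := by
        rw [hQ]
        simp
      have hιρ : ι ρ ≠ 0 := by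
        rw [Ne, map_eq_zero]
        exact hρ
      have hzm1 : (z + 1) ^ g = 0 → z = ι (-1) := by
        intro h
        have h1 : z + 1 = 0 := by
          by_contra hne
          exact pow_ne_zero _ hne h
        rw [map_neg, map_one]
        exact eq_neg_of_add_eq_zero_left h1
      have hg : ((g : AlgebraicClosure ℚ_[p]) + 1 + 1) ≠ 0 := by
        have : ((g + 2 : ℕ) : AlgebraicClosure ℚ_[p]) ≠ 0 := by
          exact_mod_cast (by omega : g + 2 ≠ 0)
        intro h
        apply this
        push_cast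
        linear_combination h
      by_cases hl : l = 0
      · subst hl
        rw [e1, e2, pa_wronskian_zero] at hz'
        rcases mul_eq_zero.1 hz' with h | h
        · rcases mul_eq_zero.1 h with h | h
          · exact absurd h hιρ
          · rw [hzm1 h]
            exact tr _ om1
        · have h3 := congrArg ι (hl0 rfl)
          simp only [map_mul, map_add, map_natCast, map_one, map_neg, Nat.cast_add,
            Nat.cast_one] at h3
          have h2 : z = ι (x 0) := by
            apply mul_left_cancel₀ hg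
            linear_combination h - h3
          rw [h2]
          exact tr _ (och 0 (Nat.zero_le _))
      · obtain ⟨e, rfl⟩ : ∃ e, l = e + 1 := ⟨l - 1, by omega⟩
        rw [e1, e2, pa_wronskian_pos] at hz'
        rcases mul_eq_zero.1 hz' with h | h
        · rcases mul_eq_zero.1 h with h | h
          · rcases mul_eq_zero.1 h with h | h
            · rcases mul_eq_zero.1 h with h | h
              · exact absurd h hιρ
              · have h1 : z = ι 0 := by
                  rw [map_zero]
                  by_contra hne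
                  exact pow_ne_zero _ hne h
                rw [h1]
                exact tr _ o0
            · rw [hzm1 h]
              exact tr _ om1
          · have h1 : z = ι (-c) := by
              rw [map_neg]
              have h2 : z + ι c = 0 := by
                by_contra hne
                exact pow_ne_zero _ hne h
              exact eq_neg_of_add_eq_zero_left h2
            rw [h1]
            exact tr _ (omc (by omega))
        · have h3 := congrArg ι hv1
          have h4 := congrArg ι hv2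
          simp only [map_mul, map_add, map_natCast, map_one, map_neg, Nat.cast_add,
            Nat.cast_one] at h3 h4
          have h5 : ((g : AlgebraicClosure ℚ_[p]) + 1 + 1) * ((z - ι (x 0)) * (z - ι τ)) = 0 := by
            linear_combination h - z * h3 + h4
          rcases mul_eq_zero.1 ((mul_eq_zero.1 h5).resolve_left hg) with h6 | h6
          · rw [sub_eq_zero.1 h6]
            exact tr _ (och 0 (Nat.zero_le _))
          · rw [sub_eq_zero.1 h6]
            exact tr _ (oτ (by omega))
  · by_cases hl : l = 0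
    · subst hl
      rw [hP, hQ, pa_wronskian_zero]
      have h3 := hl0 rfl
      push_cast at h3
      have : ((g : ℚ_[p]) + 1 + 1) * x 0 + 1 = 0 := by linear_combination h3
      rw [this, mul_zero]
    · obtain ⟨e, rfl⟩ : ∃ e, l = e + 1 := ⟨l - 1, by omega⟩
      rw [hP, hQ, pa_wronskian_pos]
      push_cast at hv1 hv2
      have : ((g : ℚ_[p]) + 1 + 1) * x 0 ^ 2 + (1 + (g + 1 + (e + 1) + 1) * c) * x 0 +
          (e + 1 + 1) * c = 0 := by
        linear_combination x 0 * hv1 - hv2
      rw [this, mul_zero]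
  · intro k hk
    exact (hchain k (by omega)).symm
  · have h1 := injOn_orbit (fun y => ρ * y ^ (l + 1) * (y + 1) ^ (g + 1) / (y + c) ^ l) x T (-1)
      (fun k hk => (hstep k hk).1) hT (fun k hk => (hstep k hk).2.1)
    intro i hi j hj hij
    exact h1 (le_trans hi hN) (le_trans hj hN) (OnePoint.coe_injective hij)

end Pool.Agent.Y955.PF
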