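import Pool.Agent.Y955.PF.PCom

set_option autoImplicit false

namespace Pool.Agent.Y955.PF

open Polynomial OnePoint

theorem pb_wronskian {K : Type} [Field K] (d : ℕ) (hd : 1 ≤ d) (ρ z : K) :
    (derivative (C ρ * X : K[X]) * (X + 1) ^ d - C ρ * X * derivative ((X + 1) ^ d : K[X])).eval z =
      ρ * (z + 1) ^ (d - 1) * (1 - (d - 1) * z) := by
  obtain ⟨e, rfl⟩ : ∃ e, d = e + 1 := ⟨d - 1, by omega⟩
  have h1 : derivative ((X + 1) ^ (e + 1) : K[X]) = C ((e : K) + 1) * (X + 1) ^ e := by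
    rw [derivative_pow]
    simp
  rw [h1]
  simp only [derivative_mul, derivative_C, derivative_X, eval_sub, eval_mul, eval_add, eval_pow,
    eval_C, eval_X, eval_one, zero_mul, zero_add, mul_one, Nat.add_sub_cancel]
  push_cast
  ring

theorem pb : S_PB := by
  intro p _ d T hd ρ x hx N hN
  obtain ⟨hρ, hx0, hstep, hT⟩ := hx
  have hQm : ((X + 1) ^ d : ℚ_[p][X]).Monic := by
    have : (X + 1 : ℚ_[p][X]).Monic := by
      have := monic_X_add_C (1 : ℚ_[p])
      rwa [C_1] at this
    exact this.pow d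
  have hQd : ((X + 1) ^ d : ℚ_[p][X]).natDegree = d := by
    have h1 : (X + 1 : ℚ_[p][X]).natDegree = 1 := by
      have := natDegree_X_add_C (1 : ℚ_[p])
      rwa [C_1] at this
    rw [natDegree_pow, h1, mul_one]
  have hPd : (C ρ * X : ℚ_[p][X]).natDegree = 1 := by
    rw [natDegree_C_mul hρ, natDegree_X]
  set f := ratMap d (C ρ * X : ℚ_[p][X]) ((X + 1) ^ d) with hf
  -- values
  have hval : ∀ y : ℚ_[p], y + 1 ≠ 0 →
      f (y : OnePoint ℚ_[p]) = ((ρ * y / (y + 1) ^ d : ℚ_[p]) : OnePoint ℚ_[p]) := by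
    intro y hy
    have hq : ((X + 1) ^ d : ℚ_[p][X]).eval y = (y + 1) ^ d := by simp
    rw [hf, ratMap_coe d _ _ y (by rw [hq]; exact pow_ne_zero _ hy), hq]
    simp
  have hpole : f ((-1 : ℚ_[p]) : OnePoint ℚ_[p]) = ∞ := by
    rw [hf]
    apply ratMap_coe_pole
    simp only [eval_pow, eval_add, eval_X, eval_one, neg_add_cancel]
    exact zero_pow (by omega)
  have hzero : f ((0 : ℚ_[p]) : OnePoint ℚ_[p]) = ((0 : ℚ_[p]) : OnePoint ℚ_[p]) := by
    rw [hval 0 (by simp)]
    simp
  have hinf : f ∞ = ((0 : ℚ_[p]) : OnePoint ℚ_[p]) := by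
    rw [hf]
    unfold ratMap
    rw [OnePoint.elim_infty]
    have h1 : ((X + 1) ^ d : ℚ_[p][X]).coeff d = 1 := by
      have := hQm.coeff_natDegree
      rwa [hQd] at this
    have h2 : (C ρ * X : ℚ_[p][X]).coeff d = 0 := by
      apply coeff_eq_zero_of_natDegree_lt
      rw [hPd]
      omega
    rw [h1, h2, if_neg one_ne_zero, zero_div]
  have o0 := orbit_finite_fixed f _ hzero
  have oinf := orbit_finite_step f _ _ hinf o0
  have om1 := orbit_finite_step f _ _ hpole oinf
  have hchain : ∀ k < T, f ((x k : ℚ_[p]) : OnePoint ℚ_[p]) = ((x (k + 1) : ℚ_[p]) : OnePoint ℚ_[p]) := by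
    intro k hk
    obtain ⟨h1, h2⟩ := hstep k hk
    rw [hval (x k) (fun h => h2 (eq_neg_of_add_eq_zero_left h)), h1]
  have oT : (Set.range fun n : ℕ => f^[n] ((x T : ℚ_[p]) : OnePoint ℚ_[p])).Finite := by
    rw [hT]
    exact om1
  have ox0 := orbit_finite_chain f (fun k => ((x k : ℚ_[p]) : OnePoint ℚ_[p])) T hchain oT 0
    (Nat.zero_le _)
  refine ⟨C ρ * X, (X + 1) ^ d, ⟨?_, ?_⟩, ?_, x 0, ?_, fun k => ((x k : ℚ_[p]) : OnePoint ℚ_[p]),
    rfl, ?_, ?_⟩
  · -- coprime
    apply IsCoprime.pow_right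
    have h1 : IsCoprime (X : ℚ_[p][X]) (X + 1) := by
      refine ⟨-1, 1, ?_⟩
      ring
    have h2 : IsCoprime (C ρ : ℚ_[p][X]) (X + 1) :=
      isCoprime_one_left.of_isCoprime_of_dvd_left (by
        exact (isUnit_C.2 (isUnit_iff_ne_zero.2 hρ)).dvd)
    exact h2.mul_left h1
  · rw [hPd, hQd]
    omega
  · -- PCF
    intro z hz
    set ι := algebraMap ℚ_[p] (AlgebraicClosure ℚ_[p]) with hι
    cases z with
    | infty =>
      have := orbit_finite_map ι d (C ρ * X : ℚ_[p][X]) ((X + 1) ^ d) ∞ oinf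
      exact this
    | coe z =>
      have hz' : (derivative ((C ρ * X : ℚ_[p][X]).map ι) * (((X + 1) ^ d : ℚ_[p][X]).map ι) -
          ((C ρ * X : ℚ_[p][X]).map ι) * derivative (((X + 1) ^ d : ℚ_[p][X]).map ι)).eval z = 0 := hz
      have e1 : (C ρ * X : ℚ_[p][X]).map ι = C (ι ρ) * X := by simp
      have e2 : ((X + 1) ^ d : ℚ_[p][X]).map ι = (X + 1) ^ d := by simp
      rw [e1, e2, pb_wronskian d (by omega)] at hz'
      have hιρ : ι ρ ≠ 0 := by
        rw [Ne, map_eq_zero]
        exact hρ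
      rcases mul_eq_zero.1 hz' with h | h
      · rcases mul_eq_zero.1 h with h | h
        · exact absurd h hιρ
        · have h1 : z + 1 = 0 := (pow_eq_zero_iff (by omega)).1 h
          have h2 : z = ι (-1) := by
            rw [map_neg, map_one]
            exact eq_neg_of_add_eq_zero_left h1
          have := orbit_finite_map ι d (C ρ * X : ℚ_[p][X]) ((X + 1) ^ d)
            ((-1 : ℚ_[p]) : OnePoint ℚ_[p]) om1
          rw [OnePoint.map_some] at this
          rw [h2]
          exact this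
      · have h1 : ((d : AlgebraicClosure ℚ_[p]) - 1) * z = 1 := by linear_combination -h
        have h3 : ((d : AlgebraicClosure ℚ_[p]) - 1) * ι (x 0) = 1 := by
          have := congrArg ι hx0
          rw [map_mul, map_sub, map_one, map_natCast] at this
          exact this
        have h2 : z = ι (x 0) := by
          have hne : ((d : AlgebraicClosure ℚ_[p]) - 1) ≠ 0 := by
            intro h0
            rw [h0, zero_mul] at h1
            exact zero_ne_one h1
          exact mul_left_cancel₀ hne (h1.trans h3.symm)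
        have := orbit_finite_map ι d (C ρ * X : ℚ_[p][X]) ((X + 1) ^ d)
          ((x 0 : ℚ_[p]) : OnePoint ℚ_[p]) ox0
        rw [OnePoint.map_some] at this
        rw [h2]
        exact this
  · rw [pb_wronskian d (by omega)]
    have : (1 : ℚ_[p]) - (d - 1) * x 0 = 0 := by rw [hx0]; ring
    rw [this, mul_zero]
  · intro k hk
    exact (hchain k (by omega)).symm
  · have h1 := injOn_orbit (fun y => ρ * y / (y + 1) ^ d) x T (-1) (fun k hk => (hstep k hk).1) hT
      (fun k hk => (hstep k hk).2)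
    intro i hi j hj hij
    exact h1 (le_trans hi hN) (le_trans hj hN) (OnePoint.coe_injective hij)

end Pool.Agent.Y955.PF
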