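import Mathlib

/-!
# Relative distances in `ℚ_p`
-/

set_option autoImplicit false

namespace Pool.Agent.Y955.PF

variable {p : ℕ} [hp : Fact p.Prime]

/-- `a` and `b` have relative distance at most `e` -/
def Rel (e : ℝ) (a b : ℚ_[p]) : Prop := b ≠ 0 ∧ ‖a - b‖ ≤ e * ‖b‖

lemma nadd (a b : ℚ_[p]) : ‖a + b‖ ≤ max ‖a‖ ‖b‖ := Padic.nonarchimedean a b

lemma nsub (a b : ℚ_[p]) : ‖a - b‖ ≤ max ‖a‖ ‖b‖ := by
  rw [sub_eq_add_neg, ← norm_neg b]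
  exact nadd a (-b)

/-- the larger norm wins -/
lemma norm_add_eq {a b : ℚ_[p]} (h : ‖b‖ < ‖a‖) : ‖a + b‖ = ‖a‖ := by
  apply le_antisymm
  · exact (nadd a b).trans (max_le le_rfl h.le)
  · have h1 := nsub (a + b) b
    rw [add_sub_cancel_right] at h1
    rcases le_max_iff.1 h1 with h2 | h2
    · exact h2
    · linarith

lemma norm_one_add {a : ℚ_[p]} (h : ‖a‖ < 1) : ‖1 + a‖ = 1 := by
  have := norm_add_eq (a := (1 : ℚ_[p])) (b := a) (by rwa [norm_one])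
  rwa [norm_one] at this

namespace Rel

variable {e e' : ℝ} {a b c a' b' : ℚ_[p]}

lemma norm_eq (he : e < 1) (h : Rel e a b) : ‖a‖ = ‖b‖ := by
  have hb : 0 < ‖b‖ := norm_pos_iff.2 h.1
  have h1 : ‖a - b‖ < ‖b‖ := lt_of_le_of_lt h.2 (by nlinarith)
  have h2 := norm_add_eq h1
  rwa [add_sub_cancel] at h2

lemma ne_zero (he : e < 1) (h : Rel e a b) : a ≠ 0 := by
  rw [← norm_pos_iff, h.norm_eq he]
  exact norm_pos_iff.2 h.1

lemma refl (he : 0 ≤ e) (hb : b ≠ 0) : Rel e b b :=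
  ⟨hb, by rw [sub_self, norm_zero]; positivity⟩

lemma mono (h : Rel e a b) (hee : e ≤ e') : Rel e' a b :=
  ⟨h.1, h.2.trans (mul_le_mul_of_nonneg_right hee (norm_nonneg _))⟩

lemma symm (he : e < 1) (h : Rel e a b) : Rel e b a :=
  ⟨h.ne_zero he, by rw [norm_sub_rev, h.norm_eq he]; exact h.2⟩

lemma trans (he : e < 1) (h : Rel e a b) (h' : Rel e b c) : Rel e a c := by
  refine ⟨h'.1, ?_⟩
  have h1 : a - c = (a - b) + (b - c) := by ring
  rw [h1]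
  refine (nadd _ _).trans (max_le ?_ h'.2)
  rw [← h'.norm_eq he]
  exact h.2

lemma neg (h : Rel e a b) : Rel e (-a) (-b) :=
  ⟨neg_ne_zero.2 h.1, by rw [norm_neg, show -a - -b = -(a - b) by ring, norm_neg]; exact h.2⟩

lemma mul (he : e < 1) (h : Rel e a b) (h' : Rel e a' b') : Rel e (a * a') (b * b') := by
  refine ⟨mul_ne_zero h.1 h'.1, ?_⟩
  have h1 : a * a' - b * b' = a * (a' - b') + (a - b) * b' := by ring
  rw [h1]
  refine (nadd _ _).trans (max_le ?_ ?_)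
  · rw [norm_mul, norm_mul, h.norm_eq he]
    calc ‖b‖ * ‖a' - b'‖ ≤ ‖b‖ * (e * ‖b'‖) := mul_le_mul_of_nonneg_left h'.2 (norm_nonneg _)
      _ = e * (‖b‖ * ‖b'‖) := by ring
  · rw [norm_mul, norm_mul]
    calc ‖a - b‖ * ‖b'‖ ≤ (e * ‖b‖) * ‖b'‖ := mul_le_mul_of_nonneg_right h.2 (norm_nonneg _)
      _ = e * (‖b‖ * ‖b'‖) := by ring

lemma inv (he : e < 1) (h : Rel e a b) : Rel e a⁻¹ b⁻¹ := by
  have ha := h.ne_zero he
  refine ⟨inv_ne_zero h.1, ?_⟩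
  have h1 : a⁻¹ - b⁻¹ = (b - a) * (a⁻¹ * b⁻¹) := by
    field_simp [h.1]
  have hb : 0 < ‖b‖ := norm_pos_iff.2 h.1
  rw [h1, norm_mul, norm_mul, norm_inv, norm_inv, norm_sub_rev, h.norm_eq he]
  calc ‖a - b‖ * (‖b‖⁻¹ * ‖b‖⁻¹) ≤ (e * ‖b‖) * (‖b‖⁻¹ * ‖b‖⁻¹) :=
        mul_le_mul_of_nonneg_right h.2 (by positivity)
    _ = e * ‖b‖⁻¹ := by field_simp

lemma div (he : e < 1) (h : Rel e a b) (h' : Rel e a' b') : Rel e (a / a') (b / b') := by
  rw [div_eq_mul_inv, div_eq_mul_inv]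
  exact h.mul he (h'.inv he)

lemma pow (he0 : 0 ≤ e) (he : e < 1) (h : Rel e a b) (n : ℕ) : Rel e (a ^ n) (b ^ n) := by
  induction n with
  | zero => rw [pow_zero, pow_zero]; exact refl he0 one_ne_zero
  | succ n ih => rw [pow_succ, pow_succ]; exact ih.mul he h

/-- `1 + a` and `1 + b` are closer -/
lemma one_add {q : ℝ} (hq : q < 1) (he0 : 0 ≤ e) (h : Rel e a b) (hb : ‖b‖ ≤ q) : Rel (q * e) (1 + a) (1 + b) := by
  have h1 : ‖1 + b‖ = 1 := norm_one_add (lt_of_le_of_lt hb hq)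
  refine ⟨?_, ?_⟩
  · rw [← norm_pos_iff, h1]; exact one_pos
  · rw [h1, mul_one, show 1 + a - (1 + b) = a - b by ring]
    refine h.2.trans ?_
    rw [mul_comm]
    exact mul_le_mul_of_nonneg_right hb he0

lemma of_sub (hb : ‖b‖ = 1) (h : ‖a - b‖ ≤ e) : Rel e a b :=
  ⟨by rw [← norm_pos_iff, hb]; exact one_pos, by rw [hb, mul_one]; exact h⟩

end Rel

/-- exact relative distances -/
lemma exact_mul {e q : ℝ} {a b g g' : ℚ_[p]} (he0 : 0 < e) (he : e < 1) (hq : q < e)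
    (hb : b ≠ 0) (h : ‖a - b‖ = e * ‖b‖) (hg : Rel q g g') :
    ‖a * g - b * g'‖ = e * ‖b * g'‖ := by
  have hab : Rel e a b := ⟨hb, h.le⟩
  have hg' : 0 < ‖g'‖ := norm_pos_iff.2 hg.1
  have hb' : 0 < ‖b‖ := norm_pos_iff.2 hb
  have h1 : a * g - b * g' = (a - b) * g' + a * (g - g') := by ring
  rw [h1, norm_add_eq, norm_mul, norm_mul, h]
  · ring
  · rw [norm_mul, norm_mul, h, hab.norm_eq he]
    calc ‖b‖ * ‖g - g'‖ ≤ ‖b‖ * (q * ‖g'‖) := mul_le_mul_of_nonneg_left hg.2 hb'.le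
      _ < ‖b‖ * (e * ‖g'‖) := by
          apply mul_lt_mul_of_pos_left _ hb'
          exact mul_lt_mul_of_pos_right hq hg'
      _ = e * ‖b‖ * ‖g'‖ := by ring

/-- the radius in which powers are controlled -/
noncomputable def eps (p : ℕ) : ℝ := if p = 2 then 1 / 4 else (p : ℝ)⁻¹

lemma eps_pos (hp : p.Prime) : 0 < eps p := by
  unfold eps
  split_ifs
  · norm_num
  · have := hp.pos
    positivity

lemma eps_le (hp : p.Prime) : eps p ≤ (p : ℝ)⁻¹ := by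
  unfold eps
  split_ifs with h
  · rw [h]; norm_num
  · exact le_rfl

lemma inv_p_lt (hp : p.Prime) : (p : ℝ)⁻¹ < 1 := by
  apply inv_lt_one_of_one_lt₀
  exact_mod_cast hp.one_lt

lemma inv_p_le_half (hp : p.Prime) : (p : ℝ)⁻¹ ≤ 1 / 2 := by
  rw [inv_le_comm₀ (by exact_mod_cast hp.pos) (by norm_num)]
  have : (2 : ℝ) ≤ p := by exact_mod_cast hp.two_le
  linarith

lemma sq_le_eps (hp : p.Prime) : ((p : ℝ)⁻¹) ^ 2 ≤ eps p := by
  unfold eps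
  split_ifs with h
  · rw [h]; norm_num
  · have h1 := inv_p_lt hp
    have h0 : (0 : ℝ) ≤ (p : ℝ)⁻¹ := by positivity
    nlinarith

lemma norm_nat_le (p : ℕ) [Fact p.Prime] (n : ℕ) : ‖(n : ℚ_[p])‖ ≤ 1 := by
  have := Padic.norm_int_le_one (p := p) (n : ℤ)
  simpa using this

lemma norm_nat_of_dvd {p : ℕ} [Fact p.Prime] {n : ℕ} (h : p ∣ n) : ‖(n : ℚ_[p])‖ ≤ (p : ℝ)⁻¹ := by
  obtain ⟨k, rfl⟩ := h
  push_cast
  rw [norm_mul, Padic.norm_p]
  have := norm_nat_le p k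
  have h0 : (0 : ℝ) ≤ (p : ℝ)⁻¹ := by positivity
  nlinarith

lemma norm_nat_of_not_dvd {p : ℕ} [Fact p.Prime] {n : ℕ} (h : ¬ p ∣ n) : ‖(n : ℚ_[p])‖ = 1 := by
  have h2 : ¬ ‖(n : ℚ_[p])‖ < 1 := fun h3 => h (Padic.norm_natCast_lt_one_iff.1 h3)
  exact le_antisymm (norm_nat_le p n) (not_lt.1 h2)

lemma pow_sub_one_le {z : ℚ_[p]} (hz : ‖z‖ ≤ 1) (n : ℕ) : ‖(1 + z) ^ n - 1‖ ≤ ‖z‖ := by
  induction n with
  | zero => simp
  | succ n ih =>
    have h1 : (1 + z) ^ (n + 1) - 1 = ((1 + z) ^ n - 1) * (1 + z) + z := by ring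
    rw [h1]
    refine (nadd _ _).trans (max_le ?_ le_rfl)
    rw [norm_mul]
    have h2 : ‖1 + z‖ ≤ 1 := (nadd _ _).trans (max_le norm_one.le hz)
    calc _ ≤ ‖z‖ * 1 := mul_le_mul ih h2 (norm_nonneg _) (norm_nonneg _)
      _ = ‖z‖ := mul_one _

/-- pairs of integral numbers of distance at most `e` -/
def Lip (e : ℝ) (a b : ℚ_[p]) : Prop := ‖a‖ ≤ 1 ∧ ‖b‖ ≤ 1 ∧ ‖a - b‖ ≤ e

namespace Lip

variable {e : ℝ} {a b a' b' : ℚ_[p]}

lemma const (he : 0 ≤ e) (ha : ‖a‖ ≤ 1) : Lip e a a := ⟨ha, ha, by rw [sub_self, norm_zero]; exact he⟩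

lemma add (h : Lip e a b) (h' : Lip e a' b') : Lip e (a + a') (b + b') :=
  ⟨(nadd _ _).trans (max_le h.1 h'.1), (nadd _ _).trans (max_le h.2.1 h'.2.1), by
    rw [show a + a' - (b + b') = (a - b) + (a' - b') by ring]
    exact (nadd _ _).trans (max_le h.2.2 h'.2.2)⟩

lemma neg (h : Lip e a b) : Lip e (-a) (-b) :=
  ⟨by rw [norm_neg]; exact h.1, by rw [norm_neg]; exact h.2.1, by
    rw [show -a - -b = -(a - b) by ring, norm_neg]; exact h.2.2⟩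

lemma mul (h : Lip e a b) (h' : Lip e a' b') : Lip e (a * a') (b * b') := by
  have he : 0 ≤ e := (norm_nonneg _).trans h.2.2
  refine ⟨?_, ?_, ?_⟩
  · rw [norm_mul]; exact mul_le_one₀ h.1 (norm_nonneg _) h'.1
  · rw [norm_mul]; exact mul_le_one₀ h.2.1 (norm_nonneg _) h'.2.1
  · rw [show a * a' - b * b' = a * (a' - b') + (a - b) * b' by ring]
    refine (nadd _ _).trans (max_le ?_ ?_)
    · rw [norm_mul]
      calc _ ≤ 1 * e := mul_le_mul h.1 h'.2.2 (norm_nonneg _) zero_le_one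
        _ = e := one_mul e
    · rw [norm_mul]
      calc _ ≤ e * 1 := mul_le_mul h.2.2 h'.2.1 (norm_nonneg _) he
        _ = e := mul_one e

lemma pow (h : Lip e a b) (n : ℕ) : Lip e (a ^ n) (b ^ n) := by
  induction n with
  | zero => rw [pow_zero, pow_zero]; exact const ((norm_nonneg _).trans h.2.2) norm_one.le
  | succ n ih => rw [pow_succ, pow_succ]; exact ih.mul h

lemma inv (h : Lip e a b) (ha : ‖a‖ = 1) (hb : ‖b‖ = 1) : Lip e a⁻¹ b⁻¹ := by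
  have ha0 : a ≠ 0 := by rw [← norm_pos_iff, ha]; exact one_pos
  have hb0 : b ≠ 0 := by rw [← norm_pos_iff, hb]; exact one_pos
  refine ⟨?_, ?_, ?_⟩
  · rw [norm_inv, ha, inv_one]
  · rw [norm_inv, hb, inv_one]
  · have h1 : a⁻¹ - b⁻¹ = (b - a) * (a⁻¹ * b⁻¹) := by field_simp
    rw [h1, norm_mul, norm_mul, norm_inv, norm_inv, ha, hb, norm_sub_rev]
    simpa using h.2.2

lemma div (h : Lip e a b) (h' : Lip e a' b') (ha : ‖a'‖ = 1) (hb : ‖b'‖ = 1) : Lip e (a / a') (b / b') := by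
  rw [div_eq_mul_inv, div_eq_mul_inv]
  exact h.mul (h'.inv ha hb)

lemma mono {e' : ℝ} (h : Lip e a b) (hee : e ≤ e') : Lip e' a b := ⟨h.1, h.2.1, h.2.2.trans hee⟩

end Lip

lemma Lip.rel {e : ℝ} {a b : ℚ_[p]} (h : Lip e a b) (hb : ‖b‖ = 1) : Rel e a b := Rel.of_sub hb h.2.2

end Pool.Agent.Y955.PF
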