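import Pool.Agent.Y955.PF.Stm
import Pool.Agent.Y955.PF.Tool

/-!
# The first family: algebra and the implicit parameter
-/

set_option autoImplicit false

namespace Pool.Agent.Y955.PF.AL

variable {p : ℕ} [hp : Fact p.Prime]

noncomputable def DD (m l : ℕ) (τ : ℚ_[p]) : ℚ_[p] := (l + 1) + (m + l + 1) * τ

noncomputable def cc (m l : ℕ) (τ : ℚ_[p]) : ℚ_[p] := -(τ * (1 + (m + 1) * τ)) / DD m l τ

noncomputable def xx (m l : ℕ) (τ : ℚ_[p]) : ℚ_[p] := -((l + 1) * (1 + (m + 1) * τ)) / ((m + 1) * DD m l τ)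

noncomputable def gg (m l : ℕ) (τ : ℚ_[p]) : ℚ_[p] := ((l + 1) + (m + 1) * τ) / ((m + 1) * DD m l τ)

noncomputable def hh (m l : ℕ) (τ : ℚ_[p]) : ℚ_[p] := l * (1 + τ) / DD m l τ

noncomputable def UU (m l : ℕ) (δ τ : ℚ_[p]) : ℚ_[p] := (1 + τ) ^ m * (-1 + δ + cc m l τ) ^ l / hh m l τ ^ l

/-- the standing hypotheses -/
structure Hyp (p m l : ℕ) [Fact p.Prime] : Prop where
  hm : 1 ≤ m
  hpm : p ∣ m
  h1 : ¬ p ∣ l + 1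
  h0 : l = 0 ∨ ¬ p ∣ l

section

variable {m l : ℕ} (H : Hyp p m l)

include H

lemma two_le_m : 2 ≤ m := by
  have h1 := Nat.le_of_dvd (by have := H.hm; omega) H.hpm
  have := hp.out.two_le
  omega

lemma norm_m_le : ‖(m : ℚ_[p])‖ ≤ (p : ℝ)⁻¹ := norm_nat_of_dvd H.hpm

lemma norm_m_lt : ‖(m : ℚ_[p])‖ < 1 := (norm_m_le H).trans_lt (inv_p_lt hp.out)

lemma m_ne : (m : ℚ_[p]) ≠ 0 := by
  have := H.hm
  exact_mod_cast (by omega : m ≠ 0)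

lemma norm_m_pos : 0 < ‖(m : ℚ_[p])‖ := norm_pos_iff.2 (m_ne H)

lemma norm_l1 : ‖(l : ℚ_[p]) + 1‖ = 1 := by
  have := norm_nat_of_not_dvd H.h1
  push_cast at this
  exact this

lemma norm_m1 : ‖(m : ℚ_[p]) + 1‖ = 1 := by
  rw [add_comm]
  exact norm_one_add (norm_m_lt H)

lemma norm_ml1 : ‖(m : ℚ_[p]) + l + 1‖ ≤ 1 := by
  have := norm_nat_le p (m + l + 1)
  push_cast at this
  exact this

lemma norm_DD {τ : ℚ_[p]} (hτ : ‖τ‖ < 1) : ‖DD m l τ‖ = 1 := by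
  unfold DD
  rw [norm_add_eq, norm_l1 H]
  rw [norm_l1 H, norm_mul]
  have := norm_ml1 H
  have := norm_nonneg τ
  nlinarith [norm_nonneg ((m : ℚ_[p]) + l + 1)]

lemma norm_1m {τ : ℚ_[p]} (hτ : ‖τ‖ < 1) : ‖1 + ((m : ℚ_[p]) + 1) * τ‖ = 1 := by
  apply norm_one_add
  rw [norm_mul, norm_m1 H, one_mul]
  exact hτ

lemma norm_lm {τ : ℚ_[p]} (hτ : ‖τ‖ < 1) : ‖((l : ℚ_[p]) + 1) + ((m : ℚ_[p]) + 1) * τ‖ = 1 := by
  rw [norm_add_eq, norm_l1 H]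
  rw [norm_mul, norm_m1 H, one_mul, norm_l1 H]
  exact hτ

lemma norm_cc {τ : ℚ_[p]} (hτ : ‖τ‖ < 1) : ‖cc m l τ‖ = ‖τ‖ := by
  unfold cc
  rw [norm_div, norm_neg, norm_mul, norm_1m H hτ, norm_DD H hτ, mul_one, div_one]

lemma norm_xx {τ : ℚ_[p]} (hτ : ‖τ‖ < 1) : ‖xx m l τ‖ = 1 := by
  unfold xx
  rw [norm_div, norm_neg, norm_mul, norm_mul, norm_1m H hτ, norm_DD H hτ, norm_l1 H, norm_m1 H, mul_one,
    div_one]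

lemma norm_gg {τ : ℚ_[p]} (hτ : ‖τ‖ < 1) : ‖gg m l τ‖ = 1 := by
  unfold gg
  rw [norm_div, norm_mul, norm_lm H hτ, norm_DD H hτ, norm_m1 H, mul_one, div_one]

lemma norm_hh {τ : ℚ_[p]} (hτ : ‖τ‖ < 1) : ‖hh m l τ ^ l‖ = 1 := by
  rcases H.h0 with h | h
  · rw [h, pow_zero, norm_one]
  · unfold hh
    rw [norm_pow, norm_div, norm_mul, norm_nat_of_not_dvd h, norm_one_add hτ, norm_DD H hτ]
    norm_num

lemma DD_ne {τ : ℚ_[p]} (hτ : ‖τ‖ < 1) : DD m l τ ≠ 0 := by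
  rw [← norm_pos_iff, norm_DD H hτ]; exact one_pos

lemma m1_ne : (m : ℚ_[p]) + 1 ≠ 0 := by
  rw [← norm_pos_iff, norm_m1 H]; exact one_pos

lemma xx_add_one {τ : ℚ_[p]} (hτ : ‖τ‖ < 1) : xx m l τ + 1 = m * gg m l τ := by
  have h1 := DD_ne H hτ
  have h2 := m1_ne H
  unfold xx gg
  rw [← mul_div_assoc, div_add_one (mul_ne_zero h2 h1)]
  congr 1
  unfold DD
  ring

lemma tau_add_cc {τ : ℚ_[p]} (hτ : ‖τ‖ < 1) : τ + cc m l τ = τ * hh m l τ := by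
  have h1 := DD_ne H hτ
  unfold cc hh
  rw [← mul_div_assoc, add_comm, div_add' _ _ _ h1]
  congr 1
  unfold DD
  ring

lemma eq_sum {τ : ℚ_[p]} (hτ : ‖τ‖ < 1) : ((m : ℚ_[p]) + 1) * (xx m l τ + τ) = -(1 + (m + l + 1) * cc m l τ) := by
  have h1 := DD_ne H hτ
  have h2 := m1_ne H
  unfold xx cc
  field_simp
  unfold DD
  ring

lemma eq_prod {τ : ℚ_[p]} (hτ : ‖τ‖ < 1) : ((m : ℚ_[p]) + 1) * (xx m l τ * τ) = (l + 1) * cc m l τ := by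
  have h1 := DD_ne H hτ
  have h2 := m1_ne H
  unfold xx cc
  field_simp

lemma lip_DD {τ τ' : ℚ_[p]} (hτ : ‖τ‖ < 1) (hτ' : ‖τ'‖ < 1) {e : ℝ} (he : ‖τ - τ'‖ ≤ e) :
    Lip e (DD m l τ) (DD m l τ') := by
  have h0 : 0 ≤ e := (norm_nonneg _).trans he
  exact (Lip.const h0 (norm_l1 H).le).add ((Lip.const h0 (norm_ml1 H)).mul ⟨hτ.le, hτ'.le, he⟩)

lemma lip_1m {τ τ' : ℚ_[p]} (hτ : ‖τ‖ < 1) (hτ' : ‖τ'‖ < 1) {e : ℝ} (he : ‖τ - τ'‖ ≤ e) :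
    Lip e (1 + ((m : ℚ_[p]) + 1) * τ) (1 + ((m : ℚ_[p]) + 1) * τ') := by
  have h0 : 0 ≤ e := (norm_nonneg _).trans he
  exact (Lip.const h0 norm_one.le).add ((Lip.const h0 (norm_m1 H).le).mul ⟨hτ.le, hτ'.le, he⟩)

lemma lip_cc {τ τ' : ℚ_[p]} (hτ : ‖τ‖ < 1) (hτ' : ‖τ'‖ < 1) {e : ℝ} (he : ‖τ - τ'‖ ≤ e) :
    Lip e (cc m l τ) (cc m l τ') := by
  unfold cc
  exact ((Lip.mul ⟨hτ.le, hτ'.le, he⟩ (lip_1m H hτ hτ' he)).neg).div (lip_DD H hτ hτ' he) (norm_DD H hτ)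
    (norm_DD H hτ')

lemma lip_den {τ τ' : ℚ_[p]} (hτ : ‖τ‖ < 1) (hτ' : ‖τ'‖ < 1) {e : ℝ} (he : ‖τ - τ'‖ ≤ e) :
    Lip e (((m : ℚ_[p]) + 1) * DD m l τ) (((m : ℚ_[p]) + 1) * DD m l τ') :=
  (Lip.const ((norm_nonneg _).trans he) (norm_m1 H).le).mul (lip_DD H hτ hτ' he)

lemma norm_den {τ : ℚ_[p]} (hτ : ‖τ‖ < 1) : ‖((m : ℚ_[p]) + 1) * DD m l τ‖ = 1 := by
  rw [norm_mul, norm_m1 H, norm_DD H hτ, mul_one]

lemma lip_xx {τ τ' : ℚ_[p]} (hτ : ‖τ‖ < 1) (hτ' : ‖τ'‖ < 1) {e : ℝ} (he : ‖τ - τ'‖ ≤ e) :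
    Lip e (xx m l τ) (xx m l τ') := by
  unfold xx
  exact (((Lip.const ((norm_nonneg _).trans he) (norm_l1 H).le).mul (lip_1m H hτ hτ' he)).neg).div
    (lip_den H hτ hτ' he) (norm_den H hτ) (norm_den H hτ')

lemma lip_gg {τ τ' : ℚ_[p]} (hτ : ‖τ‖ < 1) (hτ' : ‖τ'‖ < 1) {e : ℝ} (he : ‖τ - τ'‖ ≤ e) :
    Lip e (gg m l τ) (gg m l τ') := by
  have h0 : 0 ≤ e := (norm_nonneg _).trans he
  unfold gg
  exact ((Lip.const h0 (norm_l1 H).le).add ((Lip.const h0 (norm_m1 H).le).mul ⟨hτ.le, hτ'.le, he⟩)).div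
    (lip_den H hτ hτ' he) (norm_den H hτ) (norm_den H hτ')

lemma lip_hh {τ τ' : ℚ_[p]} (hτ : ‖τ‖ < 1) (hτ' : ‖τ'‖ < 1) {e : ℝ} (he : ‖τ - τ'‖ ≤ e) :
    Lip e (hh m l τ ^ l) (hh m l τ' ^ l) := by
  have h0 : 0 ≤ e := (norm_nonneg _).trans he
  unfold hh
  refine Lip.pow ?_ l
  exact ((Lip.const h0 (norm_nat_le p l)).mul ((Lip.const h0 norm_one.le).add ⟨hτ.le, hτ'.le, he⟩)).div
    (lip_DD H hτ hτ' he) (norm_DD H hτ) (norm_DD H hτ')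

lemma norm_v {δ : ℚ_[p]} (hδ : ‖δ‖ < 1) : ‖-1 + δ‖ = 1 := by
  rw [norm_add_eq, norm_neg, norm_one]
  rw [norm_neg, norm_one]
  exact hδ

lemma norm_vc {δ τ : ℚ_[p]} (hδ : ‖δ‖ < 1) (hτ : ‖τ‖ < 1) : ‖-1 + δ + cc m l τ‖ = 1 := by
  rw [norm_add_eq, norm_v H hδ]
  rw [norm_v H hδ, norm_cc H hτ]
  exact hτ

lemma norm_UU {δ τ : ℚ_[p]} (hδ : ‖δ‖ < 1) (hτ : ‖τ‖ < 1) : ‖UU m l δ τ‖ = 1 := by
  unfold UU
  rw [norm_div, norm_mul, norm_pow, norm_pow, norm_one_add hτ, norm_vc H hδ hτ, norm_hh H hτ]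
  norm_num

lemma lip_UU {δ δ' τ τ' : ℚ_[p]} (hδ : ‖δ‖ < 1) (hδ' : ‖δ'‖ < 1) (hτ : ‖τ‖ < 1) (hτ' : ‖τ'‖ < 1) {e : ℝ}
    (he : ‖τ - τ'‖ ≤ e) (hd : ‖δ - δ'‖ ≤ e) : Lip e (UU m l δ τ) (UU m l δ' τ') := by
  have h0 : 0 ≤ e := (norm_nonneg _).trans he
  have hm1 : ‖(-1 : ℚ_[p])‖ ≤ 1 := by rw [norm_neg, norm_one]
  unfold UU
  refine Lip.div ?_ (lip_hh H hτ hτ' he) (norm_hh H hτ) (norm_hh H hτ')
  refine Lip.mul (Lip.pow ((Lip.const h0 norm_one.le).add ⟨hτ.le, hτ'.le, he⟩) m) (Lip.pow ?_ l)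
  exact ((Lip.const h0 hm1).add ⟨hδ.le, hδ'.le, hd⟩).add (lip_cc H hτ hτ' he)

/-- the equation for the implicit parameter -/
lemma exists_tau (hI : S_ISO) {δ : ℚ_[p]} (hδ : ‖δ‖ ≤ (p : ℝ)⁻¹) :
    ∃ τ : ℚ_[p], ‖τ‖ ≤ (p : ℝ)⁻¹ ∧ τ * UU m l δ τ = (-1 + δ) ^ (l + 1) * δ ^ m := by
  have hp1 := inv_p_lt hp.out
  have hp0 : (0 : ℝ) < (p : ℝ)⁻¹ := by have := hp.out.pos; positivity
  have hδ1 : ‖δ‖ < 1 := hδ.trans_lt hp1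
  obtain ⟨τ, h1, h2⟩ := hI p (fun τ => τ * UU m l δ τ) 0 (p : ℝ)⁻¹ 1 hp0 one_pos (by
    intro x y hx hy
    rw [sub_zero] at hx hy
    have hx1 : ‖x‖ < 1 := hx.trans_lt hp1
    have hy1 : ‖y‖ < 1 := hy.trans_lt hp1
    rw [one_mul]
    show ‖x * UU m l δ x - y * UU m l δ y‖ = ‖x - y‖
    rcases eq_or_ne x y with rfl | hxy
    · simp
    have h3 := (lip_UU H hδ1 hδ1 hx1 hy1 (e := ‖x - y‖) le_rfl (by rw [sub_self, norm_zero]; positivity)).2.2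
    rw [show x * UU m l δ x - y * UU m l δ y = (x - y) * UU m l δ x + y * (UU m l δ x - UU m l δ y) by ring]
    have h4 : ‖(x - y) * UU m l δ x‖ = ‖x - y‖ := by rw [norm_mul, norm_UU H hδ1 hx1, mul_one]
    rw [norm_add_eq, h4]
    rw [h4, norm_mul]
    have h5 : 0 < ‖x - y‖ := norm_pos_iff.2 (sub_ne_zero.2 hxy)
    calc ‖y‖ * ‖UU m l δ x - UU m l δ y‖ ≤ ‖y‖ * ‖x - y‖ := mul_le_mul_of_nonneg_left h3 (norm_nonneg _)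
      _ < 1 * ‖x - y‖ := mul_lt_mul_of_pos_right hy1 h5
      _ = ‖x - y‖ := one_mul _) ((-1 + δ) ^ (l + 1) * δ ^ m) (by
    show ‖(-1 + δ) ^ (l + 1) * δ ^ m - 0 * UU m l δ 0‖ ≤ 1 * (p : ℝ)⁻¹
    rw [zero_mul, sub_zero, norm_mul, norm_pow, norm_v H hδ1, one_pow, one_mul, one_mul, norm_pow]
    calc ‖δ‖ ^ m ≤ ‖δ‖ ^ 1 := pow_le_pow_of_le_one (norm_nonneg _) hδ1.le H.hm
      _ = ‖δ‖ := pow_one _
      _ ≤ _ := hδ)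
  exact ⟨τ, by simpa using h1, h2⟩

/-- the norm of the implicit parameter -/
lemma norm_tau {δ τ : ℚ_[p]} (hδ : ‖δ‖ < 1) (hτ : ‖τ‖ < 1)
    (h : τ * UU m l δ τ = (-1 + δ) ^ (l + 1) * δ ^ m) : ‖τ‖ = ‖δ‖ ^ m := by
  have h1 := congrArg norm h
  rw [norm_mul, norm_mul, norm_UU H hδ hτ, mul_one, norm_pow, norm_v H hδ, one_pow, one_mul, norm_pow] at h1
  exact h1

/-- the implicit parameter varies little -/
lemma rel_tau {δ δ' τ τ' : ℚ_[p]} (hδ : ‖δ‖ < 1) (hδ' : ‖δ'‖ < 1) (hτ : ‖τ‖ < 1) (hτ' : ‖τ'‖ < 1)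
    (h : τ * UU m l δ τ = (-1 + δ) ^ (l + 1) * δ ^ m) (h' : τ' * UU m l δ' τ' = (-1 + δ') ^ (l + 1) * δ' ^ m)
    {e : ℝ} (he : e < 1) (hd : ‖δ - δ'‖ ≤ e) (hr : Rel e (δ ^ m) (δ' ^ m)) : Rel e τ τ' := by
  have he0 : 0 ≤ e := (norm_nonneg _).trans hd
  have hv : Rel e (-1 + δ) (-1 + δ') := Rel.of_sub (norm_v H hδ') (by
    rw [show -1 + δ - (-1 + δ') = δ - δ' by ring]; exact hd)
  have hR : Rel e ((-1 + δ) ^ (l + 1) * δ ^ m) ((-1 + δ') ^ (l + 1) * δ' ^ m) := (hv.pow he0 he _).mul he hr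
  have hτ0 : τ' ≠ 0 := by
    intro h0
    apply hR.1
    rw [← h', h0, zero_mul]
  refine ⟨hτ0, ?_⟩
  have hnorm : ‖(-1 + δ') ^ (l + 1) * δ' ^ m‖ = ‖τ'‖ := by
    rw [← h', norm_mul, norm_UU H hδ' hτ', mul_one]
  have h2 := hR.2
  rw [hnorm, ← h, ← h'] at h2
  have h3 := (lip_UU H hδ hδ' hτ hτ' (e := max ‖τ - τ'‖ e) (le_max_left _ _) (hd.trans (le_max_right _ _))).2.2
  have h4 : (τ - τ') * UU m l δ τ =
      (τ * UU m l δ τ - τ' * UU m l δ' τ') + -(τ' * (UU m l δ τ - UU m l δ' τ')) := by ring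
  have h5 : ‖τ - τ'‖ ≤ max (e * ‖τ'‖) (‖τ'‖ * max ‖τ - τ'‖ e) := by
    have h6 := congrArg norm h4
    rw [norm_mul, norm_UU H hδ hτ, mul_one] at h6
    refine h6.le.trans ((nadd _ _).trans (max_le_max h2 ?_))
    rw [norm_neg, norm_mul]
    exact mul_le_mul_of_nonneg_left h3 (norm_nonneg _)
  rcases le_max_iff.1 h5 with h6 | h6
  · exact h6
  · rcases le_total ‖τ - τ'‖ e with h7 | h7
    · rw [max_eq_right h7] at h6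
      linarith
    · rw [max_eq_left h7] at h6
      have h8 : ‖τ - τ'‖ ≤ 0 := by
        by_contra hcon
        push Not at hcon
        nlinarith
      have h9 : 0 ≤ e * ‖τ'‖ := by positivity
      linarith

end

end Pool.Agent.Y955.PF.AL
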