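import Pool.Agent.Y955.PF.Alpha1

/-!
# The first family: the orbit and its dependence on the parameter
-/

set_option autoImplicit false

namespace Pool.Agent.Y955.PF.AL

variable {p : ℕ} [hp : Fact p.Prime]

noncomputable def rho (m l : ℕ) (δ τ : ℚ_[p]) : ℚ_[p] :=
  (-1 + δ) * (xx m l τ + cc m l τ) ^ l / (xx m l τ ^ (l + 1) * (m * gg m l τ) ^ m)

noncomputable def zs (m l : ℕ) (δ τ : ℚ_[p]) : ℕ → ℚ_[p]
  | 0 => δ ^ m * (rho m l δ τ * (-1 + δ) ^ (l + 1) / (-1 + δ + cc m l τ) ^ l)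
  | k + 1 => zs m l δ τ k *
      (rho m l δ τ * (1 + zs m l δ τ k) ^ m / (1 + cc m l τ / zs m l δ τ k) ^ l)

/-- a point of the parameter ball -/
structure Pt (m l T : ℕ) (δ τ : ℚ_[p]) : Prop where
  hT : 2 ≤ T
  hd : ‖δ‖ = ‖(m : ℚ_[p])‖ ^ T
  ht : ‖τ‖ < 1
  he : τ * UU m l δ τ = (-1 + δ) ^ (l + 1) * δ ^ m

section

variable {m l T : ℕ} {δ τ : ℚ_[p]} (H : Hyp p m l) (P : Pt m l T δ τ)

include H P

lemma d_le : ‖δ‖ ≤ ‖(m : ℚ_[p])‖ ^ 2 := by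
  rw [P.hd]
  exact pow_le_pow_of_le_one (norm_nonneg _) (norm_m_lt H).le P.hT

lemma d_lt : ‖δ‖ < 1 := by
  rw [P.hd]
  exact pow_lt_one₀ (norm_nonneg _) (norm_m_lt H) (by have := P.hT; omega)

lemma norm_t : ‖τ‖ = ‖(m : ℚ_[p])‖ ^ (T * m) := by
  rw [norm_tau H (d_lt H P) P.ht P.he, P.hd, ← pow_mul]

lemma t_ne : τ ≠ 0 := by
  rw [← norm_pos_iff, norm_t H P]
  exact pow_pos (norm_m_pos H) _

lemma d_ne : δ ≠ 0 := by
  rw [← norm_pos_iff, P.hd]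
  exact pow_pos (norm_m_pos H) _

lemma norm_xc : ‖xx m l τ + cc m l τ‖ = 1 := by
  rw [norm_add_eq, norm_xx H P.ht]
  rw [norm_xx H P.ht, norm_cc H P.ht]
  exact P.ht

lemma norm_rho : ‖rho m l δ τ‖ * ‖(m : ℚ_[p])‖ ^ m = 1 := by
  have h1 : ‖rho m l δ τ‖ = 1 / ‖(m : ℚ_[p])‖ ^ m := by
    unfold rho
    rw [norm_div, norm_mul, norm_mul, norm_pow, norm_pow, norm_pow, norm_mul, norm_xc H P, norm_v H (d_lt H P),
      norm_xx H P.ht, norm_gg H P.ht, one_pow, one_pow, mul_one, one_mul, mul_one]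
  rw [h1]
  have := pow_pos (norm_m_pos H) m
  field_simp

lemma rho_ne : rho m l δ τ ≠ 0 := by
  have h1 := norm_rho H P
  intro h2
  rw [h2, norm_zero, zero_mul] at h1
  exact zero_ne_one h1

lemma norm_zs : ∀ k j : ℕ, k + j + 1 = T → ‖zs m l δ τ k‖ = ‖(m : ℚ_[p])‖ ^ (j * m) := by
  intro k
  induction k with
  | zero =>
    intro j hj
    have h1 := norm_rho H P
    show ‖δ ^ m * (rho m l δ τ * (-1 + δ) ^ (l + 1) / (-1 + δ + cc m l τ) ^ l)‖ = _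
    rw [norm_mul, norm_div, norm_mul, norm_pow, norm_pow, norm_pow, norm_v H (d_lt H P),
      norm_vc H (d_lt H P) P.ht, P.hd, ← hj, ← pow_mul, one_pow, one_pow, mul_one, div_one,
      show (0 + j + 1) * m = j * m + m by ring, pow_add, mul_assoc, mul_comm (‖(m : ℚ_[p])‖ ^ m), h1, mul_one]
  | succ k ih =>
    intro j hj
    have h1 := norm_rho H P
    have h2 := ih (j + 1) (by omega)
    have hm := two_le_m H
    have h3 : ‖zs m l δ τ k‖ < 1 := by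
      rw [h2]
      exact pow_lt_one₀ (norm_nonneg _) (norm_m_lt H) (by positivity)
    have h0 : 0 < ‖(m : ℚ_[p])‖ ^ ((j + 1) * m) := pow_pos (norm_m_pos H) _
    have h4 : ‖cc m l τ / zs m l δ τ k‖ < 1 := by
      rw [norm_div, norm_cc H P.ht, norm_t H P, h2, div_lt_one h0]
      apply pow_lt_pow_right_of_lt_one₀ (norm_m_pos H) (norm_m_lt H)
      apply Nat.mul_lt_mul_of_pos_right _ (by omega)
      omega
    show ‖zs m l δ τ k *
      (rho m l δ τ * (1 + zs m l δ τ k) ^ m / (1 + cc m l τ / zs m l δ τ k) ^ l)‖ = _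
    rw [norm_mul, norm_div, norm_mul, norm_pow, norm_pow, norm_one_add h3, norm_one_add h4, h2, one_pow, one_pow,
      mul_one, div_one, show (j + 1) * m = j * m + m by ring, pow_add, mul_assoc, mul_comm (‖(m : ℚ_[p])‖ ^ m), h1,
      mul_one]

lemma norm_cz {k j : ℕ} (hkj : k + j + 1 = T) : ‖cc m l τ / zs m l δ τ k‖ = ‖(m : ℚ_[p])‖ ^ ((k + 1) * m) := by
  have h0 : 0 < ‖(m : ℚ_[p])‖ ^ (j * m) := pow_pos (norm_m_pos H) _
  rw [norm_div, norm_cc H P.ht, norm_t H P, norm_zs H P k j hkj, div_eq_iff h0.ne', ← pow_add]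
  congr 1
  rw [← hkj]
  ring

lemma norm_zs_le {k j : ℕ} (hkj : k + (j + 1) + 1 = T) : ‖zs m l δ τ k‖ ≤ ‖(m : ℚ_[p])‖ ^ m := by
  rw [norm_zs H P k (j + 1) hkj]
  apply pow_le_pow_of_le_one (norm_nonneg _) (norm_m_lt H).le
  nlinarith

lemma norm_cz_le {k j : ℕ} (hkj : k + j + 1 = T) : ‖cc m l τ / zs m l δ τ k‖ ≤ ‖(m : ℚ_[p])‖ ^ m := by
  rw [norm_cz H P hkj]
  apply pow_le_pow_of_le_one (norm_nonneg _) (norm_m_lt H).le
  nlinarith

lemma m_pow_le : ‖(m : ℚ_[p])‖ ^ m ≤ ‖(m : ℚ_[p])‖ := by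
  calc ‖(m : ℚ_[p])‖ ^ m ≤ ‖(m : ℚ_[p])‖ ^ 1 := pow_le_pow_of_le_one (norm_nonneg _) (norm_m_lt H).le H.hm
    _ = _ := pow_one _

end

section

variable {m l T : ℕ} {δ τ δ' τ' : ℚ_[p]} (H : Hyp p m l) (P : Pt m l T δ τ) (P' : Pt m l T δ' τ')

include H P P'

/-- the pair estimates -/
lemma pair_aux (hPow : S_POW) {η : ℝ} (hη0 : 0 < η) (hη : η ≤ eps p)
    (hd : ‖δ - δ'‖ = η * ‖(m : ℚ_[p])‖ ^ T) :
    ‖δ ^ m - δ' ^ m‖ = (‖(m : ℚ_[p])‖ * η) * ‖δ' ^ m‖ ∧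
      ‖δ - δ'‖ ≤ ‖(m : ℚ_[p])‖ * (‖(m : ℚ_[p])‖ * η) ∧
      Rel (‖(m : ℚ_[p])‖ * η) (cc m l τ) (cc m l τ') ∧
      ‖τ - τ'‖ ≤ ‖(m : ℚ_[p])‖ * (‖(m : ℚ_[p])‖ * η) := by
  have hM0 := norm_m_pos H
  have hM1 := norm_m_lt H
  have hη1 : η < 1 := hη.trans_lt ((eps_le hp.out).trans_lt (inv_p_lt hp.out))
  have hδ'0 := d_ne H P'
  set M := ‖(m : ℚ_[p])‖ with hMdef
  set e := M * η with hedef
  have he0 : 0 < e := mul_pos hM0 hη0
  have heM : e < M := by nlinarith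
  have he1 : e < 1 := heM.trans hM1
  -- the power of δ
  have hδm : ‖δ ^ m - δ' ^ m‖ = e * ‖δ' ^ m‖ := by
    have hz : ‖(δ - δ') / δ'‖ = η := by
      have : 0 < M ^ T := pow_pos hM0 _
      rw [norm_div, hd, P'.hd, ← hMdef, mul_div_assoc, div_self this.ne', mul_one]
    have h1 := hPow p m ((δ - δ') / δ') (by rw [hz]; exact hη.trans (eps_le hp.out)) (by
      intro h2
      rw [hz]
      refine hη.trans ?_
      unfold eps
      rw [if_pos h2])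
    rw [hz] at h1
    have h2 : δ ^ m - δ' ^ m = ((1 + (δ - δ') / δ') ^ m - 1) * δ' ^ m := by
      rw [sub_mul, ← mul_pow, one_mul]
      congr 2
      field_simp
      ring
    rw [h2, norm_mul, h1]
  have hdd : ‖δ - δ'‖ ≤ M * e := by
    rw [hd]
    have h1 : M ^ T ≤ M ^ 2 := pow_le_pow_of_le_one hM0.le hM1.le P.hT
    calc η * M ^ T ≤ η * M ^ 2 := mul_le_mul_of_nonneg_left h1 hη0.le
      _ = M * e := by rw [hedef]; ring
  have hMe : M * e ≤ e := by nlinarith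
  have hrel : Rel e (δ ^ m) (δ' ^ m) := ⟨pow_ne_zero _ hδ'0, hδm.le⟩
  have hτ := rel_tau H (d_lt H P) (d_lt H P') P.ht P'.ht P.he P'.he he1 (hdd.trans hMe) hrel
  have hττ : ‖τ - τ'‖ ≤ M * e := by
    refine hτ.2.trans ?_
    rw [mul_comm M e]
    apply mul_le_mul_of_nonneg_left _ he0.le
    rw [norm_t H P']
    calc M ^ (T * m) ≤ M ^ 1 := by
          apply pow_le_pow_of_le_one hM0.le hM1.le
          have := P.hT
          have := H.hm
          nlinarith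
      _ = M := pow_one _
  refine ⟨hδm, hdd, ?_, hττ⟩
  unfold cc
  have h1 := (lip_1m H P.ht P'.ht hττ).rel (norm_1m H P'.ht)
  have h2 := (lip_DD H P.ht P'.ht hττ).rel (norm_DD H P'.ht)
  exact ((hτ.mul he1 (h1.mono hMe)).neg).div he1 (h2.mono hMe)

lemma pair_rho {e : ℝ} (he0 : 0 < e) (he1 : e < 1) (hd : ‖δ - δ'‖ ≤ e) (ht : ‖τ - τ'‖ ≤ e) :
    Rel e (rho m l δ τ) (rho m l δ' τ') := by
  have hm1 : ‖(-1 : ℚ_[p])‖ ≤ 1 := by rw [norm_neg, norm_one]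
  have h1 : Rel e (-1 + δ) (-1 + δ') := Rel.of_sub (norm_v H (d_lt H P')) (by
    rw [show -1 + δ - (-1 + δ') = δ - δ' by ring]; exact hd)
  have h2 : Rel e (xx m l τ + cc m l τ) (xx m l τ' + cc m l τ') :=
    ((lip_xx H P.ht P'.ht ht).add (lip_cc H P.ht P'.ht ht)).rel (norm_xc H P')
  have h3 : Rel e (xx m l τ) (xx m l τ') := (lip_xx H P.ht P'.ht ht).rel (norm_xx H P'.ht)
  have h4 : Rel e (gg m l τ) (gg m l τ') := (lip_gg H P.ht P'.ht ht).rel (norm_gg H P'.ht)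
  unfold rho
  exact (h1.mul he1 (h2.pow he0.le he1 l)).div he1 ((h3.pow he0.le he1 _).mul he1
    (((Rel.refl he0.le (m_ne H)).mul he1 h4).pow he0.le he1 m))

lemma pair_zs (hPow : S_POW) {η : ℝ} (hη0 : 0 < η) (hη : η ≤ eps p)
    (hd : ‖δ - δ'‖ = η * ‖(m : ℚ_[p])‖ ^ T) : ∀ k j : ℕ, k + j + 1 = T →
    ‖zs m l δ τ k - zs m l δ' τ' k‖ = (‖(m : ℚ_[p])‖ * η) * ‖zs m l δ' τ' k‖ := by
  obtain ⟨hδm, hdd, hcc, hττ⟩ := pair_aux H P P' hPow hη0 hη hd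
  have hM0 := norm_m_pos H
  have hM1 := norm_m_lt H
  have hη1 : η < 1 := hη.trans_lt ((eps_le hp.out).trans_lt (inv_p_lt hp.out))
  have hMm := m_pow_le H P
  set M := ‖(m : ℚ_[p])‖ with hMdef
  set e := M * η with hedef
  have he0 : 0 < e := mul_pos hM0 hη0
  have heM : e < M := by nlinarith
  have he1 : e < 1 := heM.trans hM1
  have hMe : M * e < e := by nlinarith
  have hMe0 : 0 < M * e := mul_pos hM0 he0
  have hMe1 : M * e < 1 := hMe.trans he1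
  have hrho := pair_rho H P P' hMe0 hMe1 hdd hττ
  have hm1 : ‖(-1 : ℚ_[p])‖ ≤ 1 := by rw [norm_neg, norm_one]
  intro k
  induction k with
  | zero =>
    intro j hj
    have h1 : Rel (M * e) (-1 + δ) (-1 + δ') := Rel.of_sub (norm_v H (d_lt H P')) (by
      rw [show -1 + δ - (-1 + δ') = δ - δ' by ring]; exact hdd)
    have h2 : Rel (M * e) (-1 + δ + cc m l τ) (-1 + δ' + cc m l τ') := by
      have h3 : Lip (M * e) (-1 + δ + cc m l τ) (-1 + δ' + cc m l τ') :=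
        ((Lip.const hMe0.le hm1).add ⟨(d_lt H P).le, (d_lt H P').le, hdd⟩).add (lip_cc H P.ht P'.ht hττ)
      exact h3.rel (norm_vc H (d_lt H P') P'.ht)
    exact exact_mul he0 he1 hMe (pow_ne_zero _ (d_ne H P')) hδm
      ((hrho.mul hMe1 (h1.pow hMe0.le hMe1 _)).div hMe1 (h2.pow hMe0.le hMe1 _))
  | succ k ih =>
    intro j hj
    have hkj : k + (j + 1) + 1 = T := by omega
    have h1 := ih (j + 1) hkj
    have hz0 : zs m l δ' τ' k ≠ 0 := by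
      rw [← norm_pos_iff, norm_zs H P' k (j + 1) hkj]
      exact pow_pos hM0 _
    have hz : Rel e (zs m l δ τ k) (zs m l δ' τ' k) := ⟨hz0, h1.le⟩
    have h2 : Rel (M * e) (1 + zs m l δ τ k) (1 + zs m l δ' τ' k) :=
      hz.one_add hM1 he0.le ((norm_zs_le H P' hkj).trans hMm)
    have h3 : Rel (M * e) (1 + cc m l τ / zs m l δ τ k) (1 + cc m l τ' / zs m l δ' τ' k) :=
      (hcc.div he1 hz).one_add hM1 he0.le ((norm_cz_le H P' hkj).trans hMm)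
    exact exact_mul he0 he1 hMe hz0 h1
      ((hrho.mul hMe1 (h2.pow hMe0.le hMe1 _)).div hMe1 (h3.pow hMe0.le hMe1 _))

end

end Pool.Agent.Y955.PF.AL
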