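import Pool.Agent.Y955.PF.Stm

/-!
Lemmas on orbits used for the two families of postcritically finite maps.
-/

set_option autoImplicit false

namespace Pool.Agent.Y955.PF

open Polynomial OnePoint

theorem orbit_finite_of_iterate {α : Type} (f : α → α) (z : α) (k : ℕ)
    (h : (Set.range fun n : ℕ => f^[n] (f^[k] z)).Finite) :
    (Set.range fun n : ℕ => f^[n] z).Finite := by
  have h1 : (Set.range fun n : ℕ => f^[n] z) ⊆
      ((fun n : ℕ => f^[n] z) '' Set.Iio k) ∪ (Set.range fun n : ℕ => f^[n] (f^[k] z)) := by
    rintro _ ⟨n, rfl⟩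
    rcases lt_or_ge n k with hn | hn
    · left
      exact ⟨n, hn, rfl⟩
    · right
      refine ⟨n - k, ?_⟩
      show f^[n - k] (f^[k] z) = f^[n] z
      rw [← Function.iterate_add_apply, Nat.sub_add_cancel hn]
  exact (((Set.finite_Iio k).image _).union h).subset h1

theorem orbit_finite_fixed {α : Type} (f : α → α) (z : α) (h : f z = z) :
    (Set.range fun n : ℕ => f^[n] z).Finite := by
  have h1 : ∀ n : ℕ, f^[n] z = z := fun n => Function.iterate_fixed h n
  have h2 : (Set.range fun n : ℕ => f^[n] z) ⊆ {z} := by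
    rintro _ ⟨n, rfl⟩
    exact h1 n
  exact (Set.finite_singleton z).subset h2

theorem orbit_finite_step {α : Type} (f : α → α) (z w : α) (h : f z = w)
    (hw : (Set.range fun n : ℕ => f^[n] w).Finite) :
    (Set.range fun n : ℕ => f^[n] z).Finite := by
  apply orbit_finite_of_iterate f z 1
  rw [Function.iterate_one, h]
  exact hw

/-- going down a chain -/
theorem orbit_finite_chain {α : Type} (f : α → α) (y : ℕ → α) (T : ℕ)
    (hy : ∀ k < T, f (y k) = y (k + 1))
    (hT : (Set.range fun n : ℕ => f^[n] (y T)).Finite) :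
    ∀ k ≤ T, (Set.range fun n : ℕ => f^[n] (y k)).Finite := by
  intro k hk
  induction hd : T - k generalizing k with
  | zero =>
    have : k = T := by omega
    rw [this]
    exact hT
  | succ n ih =>
    have hk' : k < T := by omega
    exact orbit_finite_step f _ _ (hy k hk') (ih (k + 1) (by omega) (by omega))

/-- transport of finite orbits to a larger field -/
theorem orbit_finite_map {K L : Type} [Field K] [Field L] (σ : K →+* L) (d : ℕ) (P Q : K[X])
    (z : OnePoint K) (h : (Set.range fun n : ℕ => (ratMap d P Q)^[n] z).Finite) :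
    (Set.range fun n : ℕ => (ratMap d (P.map σ) (Q.map σ))^[n] (OnePoint.map σ z)).Finite := by
  have h1 : ∀ n : ℕ, (ratMap d (P.map σ) (Q.map σ))^[n] (OnePoint.map σ z) =
      OnePoint.map σ ((ratMap d P Q)^[n] z) := by
    intro n
    induction n with
    | zero => rfl
    | succ n ih =>
      rw [Function.iterate_succ_apply', ih, ratMap_map, Function.iterate_succ_apply']
  have h2 : (Set.range fun n : ℕ => (ratMap d (P.map σ) (Q.map σ))^[n] (OnePoint.map σ z)) =
      OnePoint.map σ '' (Set.range fun n : ℕ => (ratMap d P Q)^[n] z) := by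
    ext w
    constructor
    · rintro ⟨n, rfl⟩
      exact ⟨_, ⟨n, rfl⟩, (h1 n).symm⟩
    · rintro ⟨_, ⟨n, rfl⟩, rfl⟩
      exact ⟨n, h1 n⟩
  rw [h2]
  exact h.image _

/-- the orbit up to its first visit of `b` is injective -/
theorem injOn_orbit {α : Type} (R : α → α) (x : ℕ → α) (T : ℕ) (b : α)
    (hx : ∀ k < T, x (k + 1) = R (x k)) (hT : x T = b) (hne : ∀ k < T, x k ≠ b) :
    Set.InjOn x (Set.Iic T) := by
  have key : ∀ i j : ℕ, i < j → j ≤ T → x i ≠ x j := by
    intro i j hij hj he
    have h1 : ∀ s : ℕ, j + s ≤ T → x (i + s) = x (j + s) := by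
      intro s
      induction s with
      | zero => intro _; exact he
      | succ s ih =>
        intro hs
        rw [← add_assoc, ← add_assoc, hx (i + s) (by omega), hx (j + s) (by omega),
          ih (by omega)]
    have h2 := h1 (T - j) (by omega)
    rw [show j + (T - j) = T by omega, hT] at h2
    exact hne _ (by omega) h2
  intro i hi j hj he
  rcases lt_trichotomy i j with h | h | h
  · exact absurd he (key i j h hj)
  · exact h
  · exact absurd he.symm (key j i h hi)

theorem ratMap_coe {K : Type} [Field K] (d : ℕ) (P Q : K[X]) (x : K) (h : Q.eval x ≠ 0) :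
    ratMap d P Q (x : OnePoint K) = ((P.eval x / Q.eval x : K) : OnePoint K) := by
  unfold ratMap
  rw [OnePoint.elim_some, if_neg h]

theorem ratMap_coe_pole {K : Type} [Field K] (d : ℕ) (P Q : K[X]) (x : K) (h : Q.eval x = 0) :
    ratMap d P Q (x : OnePoint K) = ∞ := by
  unfold ratMap
  rw [OnePoint.elim_some, if_pos h]

end Pool.Agent.Y955.PF
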