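import Mathlib

/-!
# Postcritically finite rational maps over `ℚ_p`: definitions and statements of the pieces
-/

set_option autoImplicit false

namespace Pool.Agent.Y955.PF

open Polynomial OnePoint

noncomputable section

open scoped Classical

/-- The self-map of `ℙ¹(K) = K ∪ {∞}` given by the fraction `P / Q` of degree `d`. -/
def ratMap {K : Type} [Field K] (d : ℕ) (P Q : K[X]) (z : OnePoint K) : OnePoint K :=
  z.elim (if Q.coeff d = 0 then ∞ else ((P.coeff d / Q.coeff d : K) : OnePoint K))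
    (fun x => if Q.eval x = 0 then ∞ else ((P.eval x / Q.eval x : K) : OnePoint K))

/-- The fraction `P / Q` is in lowest terms and of degree `d`. -/
def LowestTerms {K : Type} [Field K] (d : ℕ) (P Q : K[X]) : Prop :=
  IsCoprime P Q ∧ max P.natDegree Q.natDegree = d

/-- The critical points of `P / Q`: the zeros of the Wronskian `P' Q - P Q'`, seen as a form of
degree `2 d - 2`. -/
def IsCritical {K : Type} [Field K] (d : ℕ) (P Q : K[X]) (z : OnePoint K) : Prop :=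
  z.elim ((derivative P * Q - P * derivative Q).coeff (2 * d - 2) = 0)
    (fun x => (derivative P * Q - P * derivative Q).eval x = 0)

/-- Every critical point has a finite forward orbit. -/
def IsPCF {K : Type} [Field K] (d : ℕ) (P Q : K[X]) : Prop :=
  ∀ z : OnePoint K, IsCritical d P Q z → (Set.range fun n : ℕ => (ratMap d P Q)^[n] z).Finite

/-- Rational self-maps of the projective line of degree `d` over `K`. -/
def Rat (K : Type) [Field K] (d : ℕ) : Type :=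
  {f : OnePoint K → OnePoint K // ∃ P Q : K[X], LowestTerms d P Q ∧ f = ratMap d P Q}

/-- Conjugacy by Möbius transformations. -/
instance conjSetoid (K : Type) [Field K] (d : ℕ) : Setoid (Rat K d) where
  r f g := ∃ M : GL (Fin 2) K, ∀ z : OnePoint K, f.1 (M • z) = M • g.1 z
  iseqv := ⟨fun f => ⟨1, fun z => by simp⟩, by
      rintro f g ⟨M, h⟩
      refine ⟨M⁻¹, fun z => ?_⟩
      have := h (M⁻¹ • z)
      rw [smul_inv_smul] at this
      rw [this, inv_smul_smul], by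
      rintro f g h ⟨M, h1⟩ ⟨N, h2⟩
      refine ⟨M * N, fun z => ?_⟩
      rw [mul_smul, mul_smul, h1, h2]⟩

/-- The points of the moduli space `M_d` over an algebraically closed field `K`. -/
def Moduli (K : Type) [Field K] (d : ℕ) : Type := Quotient (conjSetoid K d)

lemma map_symm_map {K : Type} [Field K] (σ : K ≃+* K) (z : OnePoint K) :
    OnePoint.map σ.symm (OnePoint.map σ z) = z := by
  cases z with
  | infty => rfl
  | coe x => simp

lemma map_map_symm {K : Type} [Field K] (σ : K ≃+* K) (z : OnePoint K) :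
    OnePoint.map σ (OnePoint.map σ.symm z) = z := by
  cases z with
  | infty => rfl
  | coe x => simp

/-- conjugating the coefficients by an automorphism of the field -/
lemma ratMap_map {K L : Type} [Field K] [Field L] (σ : K →+* L) (d : ℕ) (P Q : K[X]) (z : OnePoint K) :
    ratMap d (P.map σ) (Q.map σ) (OnePoint.map σ z) = OnePoint.map σ (ratMap d P Q z) := by
  cases z with
  | infty =>
    simp only [ratMap, OnePoint.map_infty, OnePoint.elim_infty, coeff_map, map_eq_zero]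
    split_ifs <;> simp
  | coe x =>
    simp only [ratMap, OnePoint.map_some, OnePoint.elim_some, eval_map, eval₂_at_apply, map_eq_zero]
    split_ifs <;> simp

lemma lowestTerms_map {K L : Type} [Field K] [Field L] (σ : K →+* L) {d : ℕ} {P Q : K[X]}
    (h : LowestTerms d P Q) : LowestTerms d (P.map σ) (Q.map σ) :=
  ⟨h.1.map (mapRingHom σ), by
    rw [natDegree_map_eq_of_injective σ.injective, natDegree_map_eq_of_injective σ.injective]; exact h.2⟩

/-- The action of a field automorphism on the rational maps. -/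
def galRat {K : Type} [Field K] {d : ℕ} (σ : K ≃+* K) (f : Rat K d) : Rat K d :=
  ⟨fun z => OnePoint.map σ (f.1 (OnePoint.map σ.symm z)), by
    obtain ⟨P, Q, h, hf⟩ := f.2
    refine ⟨P.map (σ : K →+* K), Q.map (σ : K →+* K), lowestTerms_map _ h, ?_⟩
    funext z
    rw [hf]
    have := ratMap_map (σ : K →+* K) d P Q (OnePoint.map σ.symm z)
    rw [show OnePoint.map (σ : K →+* K) (OnePoint.map σ.symm z) = z from map_map_symm σ z] at this
    exact this.symm⟩

/-- The action of a field automorphism on the points of the moduli space. -/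
def galAct {K : Type} [Field K] (d : ℕ) (σ : K ≃+* K) : Moduli K d → Moduli K d :=
  Quotient.map (galRat σ) (by
    rintro f g ⟨M, h⟩
    refine ⟨M.map (σ : K →+* K), fun z => ?_⟩
    have h1 := OnePoint.map_smul (σ : K →+* K) M (OnePoint.map σ.symm z)
    rw [show OnePoint.map (σ : K →+* K) (OnePoint.map σ.symm z) = z from map_map_symm σ z] at h1
    have h2 := OnePoint.map_smul (σ : K →+* K) M (g.1 (OnePoint.map σ.symm z))
    show OnePoint.map σ (f.1 (OnePoint.map σ.symm (M.map (σ : K →+* K) • z))) =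
      M.map (σ : K →+* K) • OnePoint.map σ (g.1 (OnePoint.map σ.symm z))
    rw [← h1]
    rw [show OnePoint.map σ.symm (OnePoint.map (σ : K →+* K) (M • OnePoint.map σ.symm z)) =
      M • OnePoint.map σ.symm z from map_symm_map σ _, h]
    exact h2)

/-- `M_d(ℚ_p)`: the points of the moduli space over the algebraic closure of `ℚ_p` which are fixed
by the absolute Galois group of `ℚ_p`. -/
def RationalPoints (p : ℕ) [Fact p.Prime] (d : ℕ) : Set (Moduli (AlgebraicClosure ℚ_[p]) d) :=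
  {x | ∀ σ : AlgebraicClosure ℚ_[p] ≃ₐ[ℚ_[p]] AlgebraicClosure ℚ_[p], galAct d σ.toRingEquiv x = x}

/-- The conjugacy classes of postcritically finite maps. -/
def PCF (K : Type) [Field K] (d : ℕ) : Set (Moduli K d) :=
  {x | ∃ f : Rat K d, (Quotient.mk (conjSetoid K d) f : Moduli K d) = x ∧
    ∃ P Q : K[X], LowestTerms d P Q ∧ f.1 = ratMap d P Q ∧ IsPCF d P Q}

/-- The isometry lemma. -/
def S_ISO : Prop := ∀ (p : ℕ) [Fact p.Prime] (f : ℚ_[p] → ℚ_[p]) (a : ℚ_[p]) (r C : ℝ), 0 < r → 0 < C →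
  (∀ x y : ℚ_[p], ‖x - a‖ ≤ r → ‖y - a‖ ≤ r → ‖f x - f y‖ = C * ‖x - y‖) →
  ∀ b : ℚ_[p], ‖b - f a‖ ≤ C * r → ∃ x : ℚ_[p], ‖x - a‖ ≤ r ∧ f x = b

/-- Over `ℚ_p` there is a postcritically finite map of degree `d` with a critical orbit which has at
least `N + 1` different points. -/
def Good (p : ℕ) [Fact p.Prime] (d N : ℕ) : Prop :=
  ∃ P Q : ℚ_[p][X], LowestTerms d P Q ∧
    IsPCF d (P.map (algebraMap ℚ_[p] (AlgebraicClosure ℚ_[p])))
      (Q.map (algebraMap ℚ_[p] (AlgebraicClosure ℚ_[p]))) ∧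
    ∃ x : ℚ_[p], (derivative P * Q - P * derivative Q).eval x = 0 ∧
      ∃ y : ℕ → OnePoint ℚ_[p], y 0 = (x : OnePoint ℚ_[p]) ∧ (∀ k < N, y (k + 1) = ratMap d P Q (y k)) ∧
        Set.InjOn y (Set.Iic N)

/-- The reduction to orbits: if over `ℚ_p` there are postcritically finite maps of degree `d` with
arbitrarily long critical orbits, then `M_d(ℚ_p)` contains infinitely many postcritically finite
classes. -/
def S_MOD : Prop := ∀ (p : ℕ) [Fact p.Prime] (d : ℕ), 2 ≤ d → (∀ N : ℕ, Good p d N) →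
  (RationalPoints p d ∩ PCF (AlgebraicClosure ℚ_[p]) d).Infinite

/-- Powers of numbers close to `1`. -/
def S_POW : Prop := ∀ (p : ℕ) [Fact p.Prime] (n : ℕ) (z : ℚ_[p]), ‖z‖ ≤ (p : ℝ)⁻¹ → (p = 2 → ‖z‖ ≤ 1 / 4) →
  ‖(1 + z) ^ n - 1‖ = ‖(n : ℚ_[p])‖ * ‖z‖

/-- The data of the first case, `f(x) = ρ x^(l+1) (x+1)^m / (x+c)^l`: critical points `x 0`, `τ` (and
`0, -1, -c, ∞`), orbit `x 0, x 1, ..., x T = -1`, and `f τ = x 2`. -/
def DataA (p : ℕ) [Fact p.Prime] (m l T : ℕ) (ρ c τ : ℚ_[p]) (x : ℕ → ℚ_[p]) : Prop :=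
  2 ≤ T ∧ ρ ≠ 0 ∧ c ≠ 0 ∧ c ≠ 1 ∧
    (m + 1) * (x 0 + τ) = -(1 + (m + l + 1) * c) ∧ (m + 1) * (x 0 * τ) = (l + 1) * c ∧
    (l = 0 → (m + 1) * x 0 = -1) ∧
    (∀ k < T, x (k + 1) = ρ * x k ^ (l + 1) * (x k + 1) ^ m / (x k + c) ^ l ∧ x k ≠ -1 ∧
      (l ≠ 0 → x k + c ≠ 0)) ∧
    x T = -1 ∧ (l ≠ 0 → τ + c ≠ 0 ∧ ρ * τ ^ (l + 1) * (τ + 1) ^ m / (τ + c) ^ l = x 2)

/-- The data of the second case, `f(x) = ρ x / (x+1)^d`. -/
def DataB (p : ℕ) [Fact p.Prime] (d T : ℕ) (ρ : ℚ_[p]) (x : ℕ → ℚ_[p]) : Prop :=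
  ρ ≠ 0 ∧ (d - 1) * x 0 = 1 ∧ (∀ k < T, x (k + 1) = ρ * x k / (x k + 1) ^ d ∧ x k ≠ -1) ∧ x T = -1

/-- Case `p ∣ m`, degree `m + l + 1`. -/
def S_ALPHA : Prop := ∀ (p : ℕ) [Fact p.Prime] (m l : ℕ), 1 ≤ m → p ∣ m → ¬ p ∣ l + 1 → (l = 0 ∨ ¬ p ∣ l) →
  ∀ N : ℕ, ∃ T : ℕ, N ≤ T ∧ ∃ ρ c τ : ℚ_[p], ∃ x : ℕ → ℚ_[p], DataA p m l T ρ c τ x

/-- Case `p ∣ d`. -/
def S_BETA : Prop := ∀ (p : ℕ) [Fact p.Prime] (d : ℕ), 2 ≤ d → p ∣ d →
  ∀ N : ℕ, ∃ T : ℕ, N ≤ T ∧ ∃ ρ : ℚ_[p], ∃ x : ℕ → ℚ_[p], DataB p d T ρ x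

/-- The maps of the first case are postcritically finite. -/
def S_PA : Prop := ∀ (p : ℕ) [Fact p.Prime] (m l T : ℕ), 1 ≤ m → ∀ (ρ c τ : ℚ_[p]) (x : ℕ → ℚ_[p]),
  DataA p m l T ρ c τ x → ∀ N ≤ T, Good p (m + l + 1) N

/-- The maps of the second case are postcritically finite. -/
def S_PB : Prop := ∀ (p : ℕ) [Fact p.Prime] (d T : ℕ), 2 ≤ d → ∀ (ρ : ℚ_[p]) (x : ℕ → ℚ_[p]),
  DataB p d T ρ x → ∀ N ≤ T, Good p d N

end

end Pool.Agent.Y955.PF
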