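import Pool.Agent.Y955.PF.Stm

/-!
# Assembly
-/

set_option autoImplicit false

namespace Pool.Agent.Y955.PF

theorem top (hM : S_MOD) (hA : S_ALPHA) (hB : S_BETA) (hPA : S_PA) (hPB : S_PB)
    (p : ℕ) [hp : Fact p.Prime] (d : ℕ) (hd : 2 ≤ d) (hpd : p ≤ d) :
    (RationalPoints p d ∩ PCF (AlgebraicClosure ℚ_[p]) d).Infinite := by
  refine hM p d hd fun N => ?_
  have hp2 := hp.out.two_le
  by_cases h1 : p ∣ d
  · obtain ⟨T, hT, ρ, x, h⟩ := hB p d hd h1 N
    exact hPB p d T hd ρ x h N hT
  · by_cases h2 : p ∣ d - 1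
    · obtain ⟨T, hT, ρ, c, τ, x, h⟩ := hA p (d - 1) 0 (by omega) h2 (by
        intro h; have := Nat.le_of_dvd (by omega) h; omega) (Or.inl rfl) N
      have := hPA p (d - 1) 0 T (by omega) ρ c τ x h N hT
      rwa [show d - 1 + 0 + 1 = d by omega] at this
    · have h3 : p < d := lt_of_le_of_ne hpd (by rintro rfl; exact h1 dvd_rfl)
      have h4 : p ≠ d - 1 := by intro h; exact h2 (h ▸ dvd_rfl)
      obtain ⟨T, hT, ρ, c, τ, x, h⟩ := hA p p (d - 1 - p) (by omega) dvd_rfl (by
        intro h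
        apply h1
        have := Nat.dvd_add h (dvd_refl p)
        rwa [show d - 1 - p + 1 + p = d by omega] at this) (Or.inr (by
        intro h
        apply h2
        have := Nat.dvd_add h (dvd_refl p)
        rwa [show d - 1 - p + p = d - 1 by omega] at this)) N
      have := hPA p p (d - 1 - p) T (by omega) ρ c τ x h N hT
      rwa [show p + (d - 1 - p) + 1 = d by omega] at this

end Pool.Agent.Y955.PF
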